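import Pool.Agent.T6.H19.PQ.Base

/-!
# Geometry of the torus and localization of the generators
-/

set_option autoImplicit false
set_option linter.unusedSectionVars false

open scoped BigOperators Matrix
open Finset Pool.Agent.TH235.PP

namespace Pool.Agent.T6.H19.PQ

/-- distance on the cycle -/
def za {L : ℕ} (a : ZMod L) : ℕ := a.valMinAbs.natAbs

theorem za_neg {L : ℕ} (a : ZMod L) : za (-a) = za a := ZMod.natAbs_valMinAbs_neg a

theorem za_cast {L : ℕ} [NeZero L] (z : ℤ) : za ((z : ZMod L)) ≤ z.natAbs := by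
  -- `valMinAbs` is the representative of smallest absolute value
  unfold za
  have h1 := ZMod.valMinAbs_mem_Ioc (z : ZMod L)
  have h2 : ((((z : ZMod L)).valMinAbs : ℤ) : ZMod L) = ((z : ℤ) : ZMod L) :=
    ZMod.coe_valMinAbs _
  rw [ZMod.intCast_eq_intCast_iff] at h2
  obtain ⟨k, hk⟩ := h2.dvd
  obtain ⟨ha, hb⟩ := h1
  generalize ((z : ZMod L)).valMinAbs = x at *
  have hL : (0 : ℤ) < L := by exact_mod_cast Nat.pos_of_ne_zero (NeZero.ne L)
  rcases lt_trichotomy k 0 with h | h | h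
  · have : (L : ℤ) * k ≤ -L := by nlinarith
    omega
  · subst h
    omega
  · have : (L : ℤ) ≤ L * k := by nlinarith
    omega

theorem za_add {L : ℕ} [NeZero L] (a b : ZMod L) : za (a + b) ≤ za a + za b := by
  have h : a + b = (((a.valMinAbs + b.valMinAbs : ℤ)) : ZMod L) := by
    simp
  rw [h]
  refine (za_cast _).trans ?_
  exact Int.natAbs_add_le _ _

/-- distance on the torus -/
def cd {L : ℕ} (u v : Site L) : ℕ := max (za (u.1 - v.1)) (za (u.2 - v.2))

theorem cd_comm {L : ℕ} (u v : Site L) : cd u v = cd v u := by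
  unfold cd
  rw [← za_neg (u.1 - v.1), ← za_neg (u.2 - v.2), neg_sub, neg_sub]

theorem cd_tri {L : ℕ} [NeZero L] (u v w : Site L) : cd u w ≤ cd u v + cd v w := by
  unfold cd
  have h1 := za_add (u.1 - v.1) (v.1 - w.1)
  have h2 := za_add (u.2 - v.2) (v.2 - w.2)
  rw [sub_add_sub_cancel] at h1 h2
  omega

theorem cd_self {L : ℕ} (u : Site L) : cd u u = 0 := by
  unfold cd za
  simp

/-- the boxes at `b` and `b'` meet -/
def adj {L : ℕ} (R : ℕ) (b b' : Site L) : Prop := ¬ Disjoint (box R b) (box R b')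

theorem adj_iff {L : ℕ} (R : ℕ) (b b' : Site L) :
    adj R b b' ↔ ∃ x x' : Fin R × Fin R, sh b x = sh b' x' := by
  unfold adj
  rw [Set.not_disjoint_iff]
  constructor
  · rintro ⟨v, ⟨x, hx⟩, ⟨x', hx'⟩⟩
    exact ⟨x, x', hx.trans hx'.symm⟩
  · rintro ⟨x, x', h⟩
    exact ⟨sh b x, ⟨x, rfl⟩, ⟨x', h.symm⟩⟩

theorem adj_refl {L : ℕ} {R : ℕ} (hR : 0 < R) (b : Site L) : adj R b b := by
  rw [adj_iff]
  exact ⟨(⟨0, hR⟩, ⟨0, hR⟩), (⟨0, hR⟩, ⟨0, hR⟩), rfl⟩

theorem adj_cd {L : ℕ} [NeZero L] {R : ℕ} {b b' : Site L} (h : adj R b b') : cd b b' < R := by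
  rw [adj_iff] at h
  obtain ⟨x, x', h⟩ := h
  have hR : 0 < R := x.1.pos
  unfold sh at h
  rw [Prod.mk.injEq] at h
  obtain ⟨h1, h2⟩ := h
  have k1 : b.1 - b'.1 = ((((x'.1 : ℕ) : ℤ) - ((x.1 : ℕ) : ℤ) : ℤ) : ZMod L) := by
    push_cast
    linear_combination h1
  have k2 : b.2 - b'.2 = ((((x'.2 : ℕ) : ℤ) - ((x.2 : ℕ) : ℤ) : ℤ) : ZMod L) := by
    push_cast
    linear_combination h2
  unfold cd
  rw [k1, k2]
  have l1 := za_cast (L := L) (((x'.1 : ℕ) : ℤ) - ((x.1 : ℕ) : ℤ))
  have l2 := za_cast (L := L) (((x'.2 : ℕ) : ℤ) - ((x.2 : ℕ) : ℤ))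
  have := x.1.2
  have := x.2.2
  have := x'.1.2
  have := x'.2.2
  omega

theorem adj_card {L : ℕ} (R : ℕ) (b : Site L) :
    ∃ T : Finset (Site L), T.card ≤ R ^ 4 ∧ ∀ b', adj R b b' → b' ∈ T := by
  classical
  refine ⟨(univ : Finset ((Fin R × Fin R) × (Fin R × Fin R))).image fun p =>
    (b.1 + ((p.1.1 : ℕ) : ZMod L) - ((p.2.1 : ℕ) : ZMod L),
      b.2 + ((p.1.2 : ℕ) : ZMod L) - ((p.2.2 : ℕ) : ZMod L)), ?_, ?_⟩
  · refine card_image_le.trans ?_
    rw [card_univ, Fintype.card_prod, Fintype.card_prod, Fintype.card_fin]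
    apply le_of_eq
    ring
  · intro b' h
    rw [adj_iff] at h
    obtain ⟨x, x', h⟩ := h
    unfold sh at h
    rw [Prod.mk.injEq] at h
    obtain ⟨h1, h2⟩ := h
    rw [mem_image]
    refine ⟨(x, x'), mem_univ _, ?_⟩
    ext
    · simp only
      linear_combination h1
    · simp only
      linear_combination h2

/-- the lower left corner of the large box with the centre `c` -/
def corner {L : ℕ} (ρ : ℕ) (c : Site L) : Site L := (c.1 - (ρ : ZMod L), c.2 - (ρ : ZMod L))

theorem box_sub {L : ℕ} [NeZero L] {R ρ : ℕ} {b c : Site L} (h : cd b c ≤ ρ) :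
    box R b ⊆ box (2 * ρ + R) (corner ρ c) := by
  rintro v ⟨x, rfl⟩
  unfold cd za at h
  have e1 : (((b.1 - c.1).valMinAbs : ℤ) : ZMod L) = b.1 - c.1 := ZMod.coe_valMinAbs _
  have e2 : (((b.2 - c.2).valMinAbs : ℤ) : ZMod L) = b.2 - c.2 := ZMod.coe_valMinAbs _
  generalize (b.1 - c.1).valMinAbs = z1 at *
  generalize (b.2 - c.2).valMinAbs = z2 at *
  have hx1 := x.1.2
  have hx2 := x.2.2
  refine ⟨(⟨((ρ : ℤ) + z1 + (x.1 : ℕ)).toNat, by omega⟩, ⟨((ρ : ℤ) + z2 + (x.2 : ℕ)).toNat, by omega⟩), ?_⟩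
  unfold sh corner
  have f1 : ((((ρ : ℤ) + z1 + (x.1 : ℕ)).toNat : ℕ) : ZMod L) =
      (((ρ : ℤ) + z1 + (x.1 : ℕ) : ℤ) : ZMod L) := by
    rw [← Int.cast_natCast, Int.toNat_of_nonneg (by omega)]
  have f2 : ((((ρ : ℤ) + z2 + (x.2 : ℕ)).toNat : ℕ) : ZMod L) =
      (((ρ : ℤ) + z2 + (x.2 : ℕ) : ℤ) : ZMod L) := by
    rw [← Int.cast_natCast, Int.toNat_of_nonneg (by omega)]
  ext
  · simp only
    rw [f1]
    push_cast
    linear_combination e1
  · simp only
    rw [f2]
    push_cast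
    linear_combination e2

/-- the levels -/
def lev {L : ℕ} (R : ℕ) (b b' : Site L) : ℕ := cd b b' / R

theorem lev_step {L : ℕ} [NeZero L] {R : ℕ} (hR : 0 < R) (b b' b'' : Site L)
    (h : adj R b' b'') : lev R b b' ≤ lev R b b'' + 1 := by
  unfold lev
  have h1 := adj_cd h
  have h2 := cd_tri b b'' b'
  rw [cd_comm b'' b'] at h2
  rw [← Nat.add_div_right _ hR]
  exact Nat.div_le_div_right (by omega)

theorem lev_zero {L : ℕ} [NeZero L] {R : ℕ} (b b' : Site L) (h : adj R b b') :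
    lev R b b' = 0 := Nat.div_eq_of_lt (adj_cd h)

open scoped Matrix.Norms.L2Operator in
/-- one generator can be replaced by a local one -/
theorem local_gen {d R L : ℕ} [NeZero L] (hR : 0 < R) (hh : Site L → BoxOp d R)
    (hherm : ∀ u, (hh u).IsHermitian) (J : ℝ) (hJ : ∀ u, ‖term (hh u) u‖ ≤ J)
    (a : BoxOp d R) (ha : a.IsHermitian) (c : Site L) (w : ℝ) (hw : 0 < w) (m n : ℕ)
    (hL : 2 * ((n + 2) * R) + R ≤ L) :
    ∃ k : BoxOp d (2 * ((n + 2) * R) + R),
      ‖term k (corner ((n + 2) * R) c)‖ ≤ m * w * ‖term a c‖ ∧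
      star (term k (corner ((n + 2) * R) c)) = term k (corner ((n + 2) * R) c) ∧
      ‖gen (∑ u, term (hh u) u) w m (term a c) - term k (corner ((n + 2) * R) c)‖ ≤
        m * w * (L ^ 2 * ‖term a c‖ *
          ((2 * J * (R ^ 4 : ℕ) * (m * w)) ^ (n + 2) / (n + 2).factorial)) := by
  classical
  set Λ0 : Finset (Site L) := univ.filter fun b => cd b c ≤ (n + 2) * R with hΛ0
  set S : Subalgebra ℂ (TorOp d L) := supAlg d (box (2 * ((n + 2) * R) + R)
    (corner ((n + 2) * R) c)) with hS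
  have hSc : IsClosed (S : Set (TorOp d L)) := by
    have h1 : IsClosed ((Subalgebra.toSubmodule S : Submodule ℂ (TorOp d L)) :
        Set (TorOp d L)) := Submodule.closed_of_finiteDimensional _
    exact h1
  have hmem : ∀ {X : TorOp d L}, X ∈ S ↔ Sup (box (2 * ((n + 2) * R) + R)
      (corner ((n + 2) * R) c)) X := fun {X} => Iff.rfl
  have hH0 : (∑ b ∈ Λ0, term (hh b) b) ∈ S := by
    refine Subalgebra.sum_mem _ fun b hb => ?_
    rw [hmem]
    exact (sup_term (hh b) b).mono (box_sub (mem_filter.1 hb).2)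
  have hX : term a c ∈ S := by
    rw [hmem]
    exact (sup_term a c).mono (box_sub (by rw [cd_self]; exact Nat.zero_le _))
  have hg := gen_mem S hSc (∑ b ∈ Λ0, term (hh b) b) (term a c) hH0 hX w m
  obtain ⟨k, hk⟩ := term_of_sup hL _ (hmem.1 hg)
  have hs : ∀ b : Site L, star (term (hh b) b) = term (hh b) b := fun b =>
    term_herm (hh b) (hherm b) b
  have hs0 : star (∑ b ∈ Λ0, term (hh b) b) = ∑ b ∈ Λ0, term (hh b) b := by
    rw [star_sum]
    exact Finset.sum_congr rfl fun b _ => hs b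
  have hs1 : star (∑ b, term (hh b) b) = ∑ b, term (hh b) b := by
    rw [star_sum]
    exact Finset.sum_congr rfl fun b _ => hs b
  have hsa : star (term a c) = term a c := term_herm a ha c
  refine ⟨k, ?_, ?_, ?_⟩
  · rw [← hk]
    exact norm_gen_le _ _ hs0 w hw m
  · rw [← hk]
    exact star_gen _ _ hs0 hsa w hw m
  · rw [← hk]
    refine gen_diff _ _ _ hs1 hs0 w hw m _ fun t ht => ?_
    have hcard : ((univ : Finset (Site L)).card : ℝ) = L ^ 2 := by
      rw [card_univ, card_site]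
      push_cast
      ring
    have hb := local_bound (univ : Finset (Site L)) Λ0 (univ.filter fun b => adj R c b)
      (filter_subset _ _) (fun b => term (hh b) b) hs J hJ (adj R) (adj_refl hR)
      (fun b b' hbb => by
        have h1 : Disjoint (box R b) (box R b') := not_not.1 hbb
        exact Sup.comm h1 (sup_term _ _) (sup_term _ _))
      (R ^ 4) (fun b => adj_card R b) (term a c)
      (fun b hb => by
        have h1 : ¬ adj R c b := fun h => hb (mem_filter.2 ⟨mem_univ _, h⟩)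
        exact Sup.comm (not_not.1 h1) (sup_term _ _) (sup_term _ _))
      (by
        obtain ⟨T, hT, hT2⟩ := adj_card R c
        exact (card_le_card fun b hb => hT2 b (mem_filter.1 hb).2).trans hT)
      n (lev R) (fun b b' b'' h => lev_step hR b b' b'' h) (fun b b' h => lev_zero b b' h)
      (fun b _ hb b' hb' => by
        have h1 : ¬ cd b c ≤ (n + 2) * R := fun h => hb (mem_filter.2 ⟨mem_univ _, h⟩)
        have h2 := adj_cd (mem_filter.1 hb').2
        have h3 := cd_tri b b' c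
        rw [cd_comm b' c] at h3
        unfold lev
        rw [Nat.le_div_iff_mul_le hR]
        have h4 : (n + 2) * R = (n + 1) * R + R := by ring
        omega) t
    refine hb.trans ?_
    rw [hcard]
    refine mul_le_mul_of_nonneg_left ?_ (by positivity)
    refine div_le_div_of_nonneg_right ?_ (by positivity)
    have hJ0 : 0 ≤ J := (norm_nonneg _).trans (hJ c)
    refine pow_le_pow_left₀ (by positivity) ?_ _
    exact mul_le_mul_of_nonneg_left ht (by positivity)

open scoped Matrix.Norms.L2Operator in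
/-- all generators -/
theorem loc {d R L : ℕ} [NeZero L] (hR : 0 < R) (hh : Site L → BoxOp d R)
    (hherm : ∀ u, (hh u).IsHermitian) (J : ℝ) (hJ : ∀ u, ‖term (hh u) u‖ ≤ J)
    (a : Site L → BoxOp d R) (ha : ∀ u, (a u).IsHermitian) (α : ℝ)
    (hα : ∀ u, ‖term (a u) u‖ ≤ α) (w : ℝ) (hw : 0 < w) (m n : ℕ)
    (hL : 2 * ((n + 2) * R) + R ≤ L) :
    ∃ k : Site L → BoxOp d (2 * ((n + 2) * R) + R),
      (∀ u, ‖term (k u) u‖ ≤ m * w * α) ∧ (∀ u, star (term (k u) u) = term (k u) u) ∧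
      ‖gen (∑ u, term (hh u) u) w m (∑ u, term (a u) u) - ∑ u, term (k u) u‖ ≤
        L ^ 2 * (m * w * (L ^ 2 * α *
          ((2 * J * (R ^ 4 : ℕ) * (m * w)) ^ (n + 2) / (n + 2).factorial))) := by
  classical
  have hJ0 : 0 ≤ J := (norm_nonneg _).trans (hJ 0)
  choose k hk1 hk2 hk3 using fun c => local_gen hR hh hherm J hJ (a c) (ha c) c w hw m n hL
  let e : Site L ≃ Site L :=
    ⟨fun u => (u.1 + (((n + 2) * R : ℕ) : ZMod L), u.2 + (((n + 2) * R : ℕ) : ZMod L)),
      corner ((n + 2) * R), fun u => by ext <;> simp [corner], fun u => by ext <;> simp [corner]⟩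
  have hce : ∀ u, corner ((n + 2) * R) (e u) = u := fun u => e.symm_apply_apply u
  refine ⟨fun u => k (e u), fun u => ?_, fun u => ?_, ?_⟩
  · have h1 := hk1 (e u)
    rw [hce] at h1
    exact h1.trans (mul_le_mul_of_nonneg_left (hα _) (by positivity))
  · have h1 := hk2 (e u)
    rw [hce] at h1
    exact h1
  · have h1 : ∑ u, term (k (e u)) u = ∑ c, term (k c) (corner ((n + 2) * R) c) := by
      rw [← e.sum_comp (fun c => term (k c) (corner ((n + 2) * R) c))]
      refine Finset.sum_congr rfl fun u _ => ?_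
      rw [hce]
    rw [h1, gen_sum, ← Finset.sum_sub_distrib]
    refine (norm_sum_le _ _).trans ?_
    have h2 : ∀ c ∈ (univ : Finset (Site L)),
        ‖gen (∑ u, term (hh u) u) w m (term (a c) c) - term (k c) (corner ((n + 2) * R) c)‖ ≤
        m * w * (L ^ 2 * α *
          ((2 * J * (R ^ 4 : ℕ) * (m * w)) ^ (n + 2) / (n + 2).factorial)) := by
      intro c _
      refine (hk3 c).trans ?_
      refine mul_le_mul_of_nonneg_left ?_ (by positivity)
      refine mul_le_mul_of_nonneg_right ?_ (by positivity)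
      exact mul_le_mul_of_nonneg_left (hα c) (by positivity)
    refine (Finset.sum_le_sum h2).trans (le_of_eq ?_)
    rw [Finset.sum_const, card_univ, card_site, nsmul_eq_mul]
    push_cast
    ring

end Pool.Agent.T6.H19.PQ
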