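import Mathlib

/-!
# Numerical bounds for the choice of the parameters
-/

set_option autoImplicit false

namespace Pool.Agent.T6.H19.PQ

theorem num_bounds (p q N Jp T M E F X Z : ℝ) (hp : 1 ≤ p) (hq : 1 ≤ q) (hZ : 27 / 10 ≤ Z)
    (hpZ : p ≤ Z) (hqZ : q ≤ Z) (hN0 : 0 ≤ N) (hN : N ≤ Z ^ 2) (hJ0 : 0 ≤ Jp) (hJ : Jp ≤ p)
    (hT : T = 60 * p ^ 2 * q) (hM : Z ^ 40 ≤ M) (hE0 : 0 ≤ E) (hE : E ≤ 1 / Z ^ 20) (hF0 : 0 ≤ F)
    (hF : F ≤ 1 / Z ^ 40) (hX0 : 0 ≤ X) (hX : X ≤ 1 / Z ^ 20) :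
    4 * (N * Jp / M) ≤ 1 / p ∧ N * T * Jp / M ≤ 1 / 4 ∧
      2 / (1 / p) * (N * Jp * (E + 2 * (N * T * Jp / M))) ≤ 1 / Z ^ 13 ∧
      N ^ 2 * T * Jp * F ≤ 1 / Z ^ 13 ∧ 6 * (N * X) ≤ 1 / Z ^ 13 ∧
      4 * (M * (N * T * Jp / M) ^ 2) ≤ 1 / Z ^ 13 := by
  have hZ0 : 0 < Z := by linarith
  have hZ1 : 1 ≤ Z := by linarith
  have hM0 : 0 < M := lt_of_lt_of_le (by positivity) hM
  have hp0 : 0 < p := by linarith
  have z2 : 6 ≤ Z ^ 2 := by nlinarith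
  have z5 : 60 ≤ Z ^ 5 := by
    have : (27 / 10 : ℝ) ^ 5 ≤ Z ^ 5 := pow_le_pow_left₀ (by norm_num) hZ 5
    norm_num at this
    linarith
  have hJZ : Jp ≤ Z := hJ.trans hpZ
  have hT0 : 0 ≤ T := by rw [hT]; positivity
  have hTZ : T ≤ Z ^ 8 := by
    rw [hT]
    calc 60 * p ^ 2 * q ≤ Z ^ 5 * Z ^ 2 * Z := by gcongr
      _ = Z ^ 8 := by ring
  have hB : N * T * Jp ≤ Z ^ 11 := by
    calc N * T * Jp ≤ Z ^ 2 * Z ^ 8 * Z := by gcongr
      _ = Z ^ 11 := by ring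
  have hB0 : 0 ≤ N * T * Jp := by positivity
  have hBM : N * T * Jp / M ≤ 1 / Z ^ 29 := by
    rw [div_le_div_iff₀ hM0 (by positivity), one_mul]
    calc N * T * Jp * Z ^ 29 ≤ Z ^ 11 * Z ^ 29 := by gcongr
      _ = Z ^ 40 := by ring
      _ ≤ M := hM
  have hmono : ∀ a b : ℕ, a ≤ b → (1 : ℝ) / Z ^ b ≤ 1 / Z ^ a := fun a b hab =>
    one_div_le_one_div_of_le (by positivity) (pow_le_pow_right₀ hZ1 hab)
  refine ⟨?_, ?_, ?_, ?_, ?_, ?_⟩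
  · rw [show 4 * (N * Jp / M) = 4 * (N * Jp) / M by ring, div_le_div_iff₀ hM0 hp0, one_mul]
    calc 4 * (N * Jp) * p ≤ Z ^ 2 * (Z ^ 2 * Z) * Z := by
          gcongr
          linarith
      _ = Z ^ 6 := by ring
      _ ≤ Z ^ 40 := pow_le_pow_right₀ hZ1 (by norm_num)
      _ ≤ M := hM
  · refine hBM.trans ((hmono 2 29 (by norm_num)).trans ?_)
    exact one_div_le_one_div_of_le (by norm_num) (by linarith)
  · have h1 : E + 2 * (N * T * Jp / M) ≤ 3 / Z ^ 20 := by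
      have := hmono 20 29 (by norm_num)
      calc E + 2 * (N * T * Jp / M) ≤ 1 / Z ^ 20 + 2 * (1 / Z ^ 20) :=
            add_le_add hE (mul_le_mul_of_nonneg_left (hBM.trans this) (by norm_num))
        _ = 3 / Z ^ 20 := by ring
    have h0 : 0 ≤ N * T * Jp / M := by positivity
    calc 2 / (1 / p) * (N * Jp * (E + 2 * (N * T * Jp / M)))
        = 2 * p * (N * Jp) * (E + 2 * (N * T * Jp / M)) := by rw [div_div_eq_mul_div]; ring
      _ ≤ 2 * Z * (Z ^ 2 * Z) * (3 / Z ^ 20) := by gcongr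
      _ = 6 * Z ^ 4 / Z ^ 20 := by ring
      _ ≤ Z ^ 2 * Z ^ 4 / Z ^ 20 := by gcongr
      _ = 1 / Z ^ 14 := by field_simp
      _ ≤ 1 / Z ^ 13 := hmono 13 14 (by norm_num)
  · calc N ^ 2 * T * Jp * F = N * (N * T * Jp) * F := by ring
      _ ≤ Z ^ 2 * Z ^ 11 * (1 / Z ^ 40) := by gcongr
      _ = 1 / Z ^ 27 := by field_simp
      _ ≤ 1 / Z ^ 13 := hmono 13 27 (by norm_num)
  · calc 6 * (N * X) ≤ Z ^ 2 * (Z ^ 2 * (1 / Z ^ 20)) := by gcongr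
      _ = 1 / Z ^ 16 := by field_simp
      _ ≤ 1 / Z ^ 13 := hmono 13 16 (by norm_num)
  · calc 4 * (M * (N * T * Jp / M) ^ 2) = 4 * ((N * T * Jp) * (N * T * Jp / M)) := by field_simp
      _ ≤ Z ^ 2 * (Z ^ 11 * (1 / Z ^ 29)) := by
          gcongr
          linarith
      _ = 1 / Z ^ 16 := by field_simp
      _ ≤ 1 / Z ^ 13 := hmono 13 16 (by norm_num)

/-- `X ^ k / k!` is tiny when `k ≥ 8 X` -/
theorem pow_fact (X : ℝ) (hX : 0 ≤ X) (k : ℕ) (hk : 8 * X ≤ k) :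
    X ^ k / k.factorial ≤ Real.exp (-k) := by
  have h1 : (8 * X) ^ k / k.factorial ≤ Real.exp (8 * X) :=
    Real.pow_div_factorial_le_exp (8 * X) (by positivity) k
  have h2 : Real.exp 2 ≤ 8 := by
    have h3 := Real.exp_one_lt_d9
    have h4 : Real.exp 2 = Real.exp 1 * Real.exp 1 := by rw [← Real.exp_add]; norm_num
    rw [h4]
    have h5 := Real.exp_pos 1
    nlinarith
  have h3 : Real.exp (2 * k) ≤ 8 ^ k := by
    rw [mul_comm, Real.exp_nat_mul]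
    exact pow_le_pow_left₀ (Real.exp_pos _).le h2 k
  have h4 : X ^ k / k.factorial * Real.exp (2 * k) ≤ Real.exp k := by
    calc X ^ k / k.factorial * Real.exp (2 * k) ≤ X ^ k / k.factorial * 8 ^ k :=
          mul_le_mul_of_nonneg_left h3 (by positivity)
      _ = (8 * X) ^ k / k.factorial := by rw [mul_pow]; ring
      _ ≤ Real.exp (8 * X) := h1
      _ ≤ Real.exp k := Real.exp_le_exp.2 hk
  have h5 : X ^ k / k.factorial ≤ Real.exp k / Real.exp (2 * k) :=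
    (le_div_iff₀ (Real.exp_pos _)).2 h4
  refine h5.trans (le_of_eq ?_)
  rw [← Real.exp_sub]
  congr 1
  ring

end Pool.Agent.T6.H19.PQ
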