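import Pool.Agent.T6.H19.PQ.Asm
import Pool.Agent.T6.H19.PQ.Num
import Pool.Agent.Results.MP_953b23_mp.OverlapBoosting

/-!
# Choice of the parameters
-/

set_option autoImplicit false
set_option linter.unusedSectionVars false

open scoped BigOperators Matrix
open Finset Pool.Agent.TH235.PP Pool.Agent.Results.MP_953b23_mp.OverlapBoosting

namespace Pool.Agent.T6.H19.PQ

theorem gapped_mono {n : Type*} [Fintype n] {H : Matrix n n ℂ} {Δ Δ' : ℝ} {ψ : n → ℂ}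
    (h : IsGappedGround H Δ ψ) (hΔ : Δ' ≤ Δ) : IsGappedGround H Δ' ψ := by
  obtain ⟨E, h1, h2, h3⟩ := h
  refine ⟨E, h1, h2, fun E' φ hφ hE' => ?_⟩
  rcases h3 E' φ hφ hE' with h4 | h4
  · exact Or.inl h4
  · exact Or.inr (by linarith)

/-- the virtual dimension -/
theorem card_final {d : ℕ} (D0 P Q R R' : ℕ) (hP : 1 ≤ P) (hQ : 1 ≤ Q)
    (hRP : R ≤ P) (hd : (d : ℝ) ≤ Real.exp P)
    (hR' : 2 * ((1000 * P ^ 7 * Q) * R) + R = R' + 1) :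
    ((Fintype.card (Fin D0 × (Fin (R' + 1) × Fin (R' + 1) →
      Lab d (R' + 1) (3 ^ (40 * (P * Q))) (800 * P ^ 3 * Q))) : ℕ) : ℝ) ≤
      D0 * Real.exp (3 * 10 ^ 16 * P ^ 36 * Q ^ 5) := by
  have hp : (1 : ℝ) ≤ P := by exact_mod_cast hP
  have hq : (1 : ℝ) ≤ Q := by exact_mod_cast hQ
  have hl : ((R' + 1 : ℕ) : ℝ) ≤ 2001 * P ^ 8 * Q := by
    have h1 : R' + 1 ≤ 2001 * P ^ 8 * Q := by
      rw [← hR']
      have h2 : P ≤ P ^ 8 * Q := by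
        calc P = P ^ 1 * 1 := by ring
          _ ≤ P ^ 8 * Q := Nat.mul_le_mul (Nat.pow_le_pow_right hP (by norm_num)) hQ
      calc 2 * (1000 * P ^ 7 * Q * R) + R ≤ 2 * (1000 * P ^ 7 * Q * P) + P := by gcongr
        _ ≤ 2 * (1000 * P ^ 7 * Q * P) + P ^ 8 * Q := by gcongr
        _ = 2001 * P ^ 8 * Q := by ring
    exact_mod_cast h1
  have hl0 : (0 : ℝ) ≤ ((R' + 1 : ℕ) : ℝ) := Nat.cast_nonneg _
  have hl2 : ((R' + 1 : ℕ) : ℝ) ^ 2 ≤ 4004001 * P ^ 16 * Q ^ 2 := by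
    refine (pow_le_pow_left₀ hl0 hl 2).trans (le_of_eq ?_)
    ring
  have hcL : Fintype.card (Lm d (R' + 1)) = d ^ (2 * (R' + 1) ^ 2) := by
    rw [Fintype.card_prod, Fintype.card_fun, Fintype.card_fin, Fintype.card_prod, Fintype.card_fin,
      ← pow_add]
    congr 1
    ring
  have h1 : ((3 ^ (40 * (P * Q)) * Fintype.card (Lm d (R' + 1)) + 1 : ℕ) : ℝ) ≤
      Real.exp (9 * 10 ^ 6 * P ^ 17 * Q ^ 2) := by
    rw [hcL]
    push_cast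
    have k1 : (3 : ℝ) ^ (40 * (P * Q)) ≤ Real.exp (80 * (P * Q)) := by
      have h3 : (3 : ℝ) ≤ Real.exp 2 := by
        have h3 := Real.exp_one_gt_d9
        have h4 : Real.exp 2 = Real.exp 1 * Real.exp 1 := by rw [← Real.exp_add]; norm_num
        rw [h4]
        nlinarith
      calc (3 : ℝ) ^ (40 * (P * Q)) ≤ (Real.exp 2) ^ (40 * (P * Q)) :=
            pow_le_pow_left₀ (by norm_num) h3 _
        _ = Real.exp (80 * (P * Q)) := by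
            rw [← Real.exp_nat_mul]
            congr 1
            push_cast
            ring
    have k2 : (d : ℝ) ^ (2 * (R' + 1) ^ 2) ≤ Real.exp (P * (2 * (4004001 * P ^ 16 * Q ^ 2))) := by
      calc (d : ℝ) ^ (2 * (R' + 1) ^ 2) ≤ (Real.exp P) ^ (2 * (R' + 1) ^ 2) :=
            pow_le_pow_left₀ (Nat.cast_nonneg _) hd _
        _ = Real.exp (P * (2 * ((R' + 1 : ℕ) : ℝ) ^ 2)) := by
            rw [← Real.exp_nat_mul]
            congr 1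
            push_cast
            ring
        _ ≤ _ := by
            apply Real.exp_le_exp.2
            gcongr
    have k3 : (3 : ℝ) ^ (40 * (P * Q)) * (d : ℝ) ^ (2 * (R' + 1) ^ 2) ≤
        Real.exp (80 * (P * Q) + P * (2 * (4004001 * P ^ 16 * Q ^ 2))) := by
      rw [Real.exp_add]
      exact mul_le_mul k1 k2 (by positivity) (Real.exp_pos _).le
    have k4 : Real.exp (80 * (P * Q) + P * (2 * (4004001 * P ^ 16 * Q ^ 2))) + 1 ≤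
        Real.exp (80 * (P * Q) + P * (2 * (4004001 * P ^ 16 * Q ^ 2)) + 1) := by
      rw [Real.exp_add _ 1]
      have h5 := Real.exp_one_gt_d9
      have h6 : 1 ≤ Real.exp (80 * (P * Q) + P * (2 * (4004001 * P ^ 16 * Q ^ 2)) : ℝ) :=
        Real.one_le_exp (by positivity)
      nlinarith
    refine (by linarith : _ ≤ _).trans (k4.trans (Real.exp_le_exp.2 ?_))
    have k5 : (P : ℝ) * Q ≤ P ^ 17 * Q ^ 2 := by
      calc (P : ℝ) * Q = P ^ 1 * Q ^ 1 := by ring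
        _ ≤ P ^ 17 * Q ^ 2 := by gcongr <;> first | assumption | norm_num
    have k6 : (1 : ℝ) ≤ P ^ 17 * Q ^ 2 := by
      calc (1 : ℝ) = 1 * 1 := by ring
        _ ≤ P ^ 17 * Q ^ 2 := mul_le_mul (one_le_pow₀ hp) (one_le_pow₀ hq) zero_le_one (by positivity)
    nlinarith only [k5, k6]
  refine (card_bd D0 _ _ (9 * 10 ^ 6 * P ^ 17 * Q ^ 2) (800 * P ^ 3 * Q) (by positivity) h1
    (by push_cast; exact le_rfl)).trans ?_
  refine mul_le_mul_of_nonneg_left (Real.exp_le_exp.2 ?_) (Nat.cast_nonneg _)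
  calc 9 * 10 ^ 6 * (P : ℝ) ^ 17 * (Q : ℝ) ^ 2 * (800 * (P : ℝ) ^ 3 * (Q : ℝ)) *
        ((R' + 1 : ℕ) : ℝ) ^ 2
      ≤ 9 * 10 ^ 6 * (P : ℝ) ^ 17 * (Q : ℝ) ^ 2 * (800 * (P : ℝ) ^ 3 * (Q : ℝ)) *
        (4004001 * (P : ℝ) ^ 16 * (Q : ℝ) ^ 2) :=
        mul_le_mul_of_nonneg_left hl2 (by positivity)
    _ = 28828807200000000 * ((P : ℝ) ^ 36 * (Q : ℝ) ^ 5) := by ring
    _ ≤ 3 * 10 ^ 16 * (P : ℝ) ^ 36 * (Q : ℝ) ^ 5 := by
        have : (0 : ℝ) ≤ (P : ℝ) ^ 36 * (Q : ℝ) ^ 5 := by positivity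
        nlinarith only [this]

open scoped Matrix.Norms.L2Operator in
/-- transport of a PEPS along a gapped path, with explicit parameters -/
theorem transport_q {d R L : ℕ} [NeZero L] (P Q : ℕ) (hP : 1 ≤ P) (hQ : 1 ≤ Q) (hR : 0 < R)
    (hRP : R ≤ P) (hd : (d : ℝ) ≤ Real.exp P) (hLQ : (L : ℝ) ≤ Real.exp Q)
    (hbig : 2001 * P ^ 8 * Q ≤ L) (g : ℝ → Site L → BoxOp d R) (Φ : ℝ → (Site L → Fin d) → ℂ)
    (hherm : ∀ s ∈ Set.Icc (0 : ℝ) 1, ∀ u, (g s u).IsHermitian)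
    (hJ : ∀ s ∈ Set.Icc (0 : ℝ) 1, ∀ u : Site L, ‖term (g s u) u‖ ≤ P)
    (hLip : ∀ s ∈ Set.Icc (0 : ℝ) 1, ∀ t ∈ Set.Icc (0 : ℝ) 1, ∀ u : Site L,
      ‖term (g s u - g t u) u‖ ≤ P * |s - t|)
    (hΦ : ∀ s ∈ Set.Icc (0 : ℝ) 1, normSq (Φ s) = 1)
    (hgap : ∀ s ∈ Set.Icc (0 : ℝ) 1, IsGappedGround (∑ u, term (g s u) u) (1 / P) (Φ s))
    {D0 : ℕ} {φ : (Site L → Fin d) → ℂ} (hφ : IsPEPS D0 φ) (hφ1 : normSq φ = 1)
    (hov : Real.exp (-Q) ≤ ‖ip (Φ 0) φ‖) :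
    ∃ (D : ℕ) (ψ : (Site L → Fin d) → ℂ),
      (D : ℝ) ≤ D0 * Real.exp (3 * 10 ^ 16 * P ^ 36 * Q ^ 5) ∧ IsPEPS D ψ ∧ normSq ψ = 1 ∧
        ‖ip (Φ 0) φ‖ / 8 ≤ ‖ip (Φ 1) ψ‖ := by
  have hp : (1 : ℝ) ≤ P := by exact_mod_cast hP
  have hq : (1 : ℝ) ≤ Q := by exact_mod_cast hQ
  obtain ⟨A0, rfl⟩ := hφ
  obtain ⟨z, hz⟩ : ∃ z : ℝ, z = (P : ℝ) * Q := ⟨_, rfl⟩
  have hz1 : 1 ≤ z := by rw [hz]; nlinarith
  have hzq : (Q : ℝ) ≤ z := by rw [hz]; nlinarith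
  have hzp : (P : ℝ) ≤ z := by rw [hz]; nlinarith
  have hZk : ∀ k : ℕ, Real.exp z ^ k = Real.exp (k * z) := fun k => (Real.exp_nat_mul z k).symm
  have hZ27 : (27 / 10 : ℝ) ≤ Real.exp z := by
    have h1 := Real.exp_one_gt_d9
    have h2 := Real.exp_le_exp.2 hz1
    linarith
  have hinv : ∀ k : ℕ, (1 : ℝ) / Real.exp z ^ k = Real.exp (-(k * z)) := by
    intro k
    rw [hZk, Real.exp_neg, one_div]
  obtain ⟨n, hn⟩ : ∃ n : ℕ, n + 2 = 1000 * P ^ 7 * Q := by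
    have h1 : 1 ≤ P ^ 7 := Nat.one_le_pow _ _ hP
    have h2 : 1 ≤ P ^ 7 * Q := Nat.mul_le_mul h1 hQ
    refine ⟨1000 * P ^ 7 * Q - 2, ?_⟩
    have h3 : 1000 ≤ 1000 * P ^ 7 * Q := by
      calc 1000 = 1000 * 1 := by ring
        _ ≤ 1000 * (P ^ 7 * Q) := Nat.mul_le_mul le_rfl h2
        _ = 1000 * P ^ 7 * Q := by ring
    omega
  have hell : 2 * ((n + 2) * R) + R ≤ 2001 * P ^ 8 * Q := by
    rw [hn]
    have h2 : P ≤ P ^ 8 * Q := by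
      calc P = P ^ 1 * 1 := by ring
        _ ≤ P ^ 8 * Q := Nat.mul_le_mul (Nat.pow_le_pow_right hP (by norm_num)) hQ
    calc 2 * (1000 * P ^ 7 * Q * R) + R ≤ 2 * (1000 * P ^ 7 * Q * P) + P := by gcongr
      _ ≤ 2 * (1000 * P ^ 7 * Q * P) + P ^ 8 * Q := by gcongr
      _ = 2001 * P ^ 8 * Q := by ring
  obtain ⟨R', hR'⟩ : ∃ R', 2 * ((n + 2) * R) + R = R' + 1 :=
    ⟨2 * ((n + 2) * R) + R - 1, by omega⟩
  obtain ⟨M, hM⟩ : ∃ M : ℕ, M = 3 ^ (40 * (P * Q)) := ⟨_, rfl⟩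
  have hMZ : Real.exp z ^ 40 ≤ (M : ℝ) := by
    rw [hM, hZk]
    push_cast
    have h3 : Real.exp 1 ≤ 3 := by
      have := Real.exp_one_lt_d9
      linarith
    calc Real.exp (((40 : ℕ) : ℝ) * z) = Real.exp 1 ^ (40 * (P * Q)) := by
          rw [← Real.exp_nat_mul, hz]
          congr 1
          push_cast
          ring
      _ ≤ 3 ^ (40 * (P * Q)) := pow_le_pow_left₀ (Real.exp_pos _).le h3 _
  have hM0 : 0 < M := by rw [hM]; positivity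
  obtain ⟨F, hF⟩ : ∃ F : ℝ, F = (2 * (P : ℝ) * (R ^ 4 : ℕ) * (60 * (P : ℝ) ^ 2 * Q)) ^ (n + 2) /
    (n + 2).factorial := ⟨_, rfl⟩
  have hF0 : 0 ≤ F := by rw [hF]; positivity
  have hF1 : F ≤ 1 / Real.exp z ^ 40 := by
    rw [hF, hinv]
    refine (pow_fact _ (by positivity) (n + 2) ?_).trans (Real.exp_le_exp.2 ?_)
    · rw [hn]
      push_cast
      have hR4 : (R : ℝ) ^ 4 ≤ (P : ℝ) ^ 4 :=
        pow_le_pow_left₀ (Nat.cast_nonneg _) (by exact_mod_cast hRP) 4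
      calc 8 * (2 * (P : ℝ) * (R : ℝ) ^ 4 * (60 * (P : ℝ) ^ 2 * Q))
          ≤ 8 * (2 * (P : ℝ) * (P : ℝ) ^ 4 * (60 * (P : ℝ) ^ 2 * Q)) := by gcongr
        _ = 960 * ((P : ℝ) ^ 7 * Q) := by ring
        _ ≤ 1000 * (P : ℝ) ^ 7 * Q := by
            have : (0 : ℝ) ≤ (P : ℝ) ^ 7 * Q := by positivity
            nlinarith only [this]
    · rw [hn, hz]
      push_cast
      have h1 : (P : ℝ) * Q ≤ (P : ℝ) ^ 7 * Q := by
        refine mul_le_mul_of_nonneg_right ?_ (by positivity)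
        calc (P : ℝ) = (P : ℝ) ^ 1 := by ring
          _ ≤ (P : ℝ) ^ 7 := pow_le_pow_right₀ hp (by norm_num)
      have h2 : (0 : ℝ) ≤ (P : ℝ) * Q := by positivity
      nlinarith only [h1, h2]
  obtain ⟨X, hX⟩ : ∃ X : ℝ, X = Real.exp (13 * ((60 * (P : ℝ) ^ 2 * Q) * P) -
    ((800 * P ^ 3 * Q : ℕ) : ℝ)) := ⟨_, rfl⟩
  have hX0 : 0 ≤ X := by rw [hX]; exact (Real.exp_pos _).le
  have hX1 : X ≤ 1 / Real.exp z ^ 20 := by
    rw [hX, hinv]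
    apply Real.exp_le_exp.2
    push_cast
    have h1 : (P : ℝ) * Q ≤ (P : ℝ) ^ 3 * Q := by
      refine mul_le_mul_of_nonneg_right ?_ (by positivity)
      calc (P : ℝ) = (P : ℝ) ^ 1 := by ring
        _ ≤ (P : ℝ) ^ 3 := pow_le_pow_right₀ hp (by norm_num)
    rw [hz]
    nlinarith only [h1]
  obtain ⟨E, hE⟩ : ∃ E : ℝ, E = (1 / (3 * (P : ℝ) * (1 / P))) ^ (20 * (P * Q)) := ⟨_, rfl⟩
  have hE0 : 0 ≤ E := by rw [hE]; positivity
  have hE1 : E ≤ 1 / Real.exp z ^ 20 := by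
    have h1 : 3 * (P : ℝ) * (1 / P) = 3 := by field_simp
    rw [hE, h1, hinv]
    have h3 : (1 : ℝ) / 3 ≤ Real.exp (-1) := by
      rw [Real.exp_neg, ← one_div]
      apply one_div_le_one_div_of_le (Real.exp_pos _)
      have := Real.exp_one_lt_d9
      linarith
    calc ((1 : ℝ) / 3) ^ (20 * (P * Q)) ≤ Real.exp (-1) ^ (20 * (P * Q)) :=
          pow_le_pow_left₀ (by norm_num) h3 _
      _ = Real.exp (-(((20 : ℕ) : ℝ) * z)) := by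
          rw [← Real.exp_nat_mul, hz]
          congr 1
          push_cast
          ring
  have hL0 : (0 : ℝ) ≤ L := Nat.cast_nonneg _
  have hN : (L : ℝ) ^ 2 ≤ Real.exp z ^ 2 :=
    pow_le_pow_left₀ hL0 (hLQ.trans (Real.exp_le_exp.2 hzq)) 2
  have hxe : ∀ x : ℝ, x ≤ z → x ≤ Real.exp z := by
    intro x hx
    have := Real.add_one_le_exp z
    linarith
  obtain ⟨b1, b2, b3, b4, b5, b6⟩ := num_bounds (P : ℝ) Q ((L : ℝ) ^ 2) P (60 * (P : ℝ) ^ 2 * Q) M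
    E F X (Real.exp z) hp hq hZ27 (hxe _ hzp) (hxe _ hzq) (by positivity) hN (by positivity)
    le_rfl rfl hMZ hE0 hE1 hF0 hF1 hX0 hX1
  have hδ : (1 : ℝ) / Real.exp z ^ 13 ≤ 1 / 1000 * Real.exp (-Q) := by
    rw [hinv]
    have h1 : Real.exp (-(((13 : ℕ) : ℝ) * z)) ≤ Real.exp (-12) * Real.exp (-Q) := by
      rw [← Real.exp_add]
      apply Real.exp_le_exp.2
      push_cast
      linarith
    refine h1.trans (mul_le_mul_of_nonneg_right ?_ (Real.exp_pos _).le)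
    rw [Real.exp_neg, ← one_div]
    apply one_div_le_one_div_of_le (by norm_num)
    have h2 : (2 : ℝ) ^ 12 ≤ Real.exp 1 ^ 12 := by
      apply pow_le_pow_left₀ (by norm_num)
      have := Real.exp_one_gt_d9
      linarith
    rw [← Real.exp_nat_mul] at h2
    norm_num at h2
    linarith
  have hQ1 : Real.exp (-(Q : ℝ)) ≤ 1 := Real.exp_le_one_iff.2 (by linarith)
  generalize hδd : (1 : ℝ) / Real.exp z ^ 13 = δ at b3 b4 b5 b6 hδ
  have hδ1 : δ ≤ 1 / 1000 := by nlinarith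
  have hm : (60 * (P : ℝ) ^ 2 * Q) = ((20 * (P * Q) : ℕ) : ℝ) * (3 * (P : ℝ)) := by
    push_cast
    ring
  have hn1 : nr (contract A0) = 1 := nr_one _ hφ1
  obtain ⟨A, hA1, hA2⟩ := transport hR (P : ℝ) P (1 / P) (by positivity) (by positivity) g Φ hherm
    hJ hLip hΦ hgap (3 * (P : ℝ)) (by positivity) (20 * (P * Q)) n M (800 * P ^ 3 * Q) hM0
    (hell.trans hbig) R' hR' A0 hn1 ((L : ℝ) ^ 2) (60 * (P : ℝ) ^ 2 * Q) F hm rfl hF b1 b2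
    (by nlinarith only [b6, hδ1, sq_nonneg ((L : ℝ) ^ 2 * (60 * (P : ℝ) ^ 2 * Q) * P / M)])
    (by rw [← hX]; linarith) (by linarith)
  rw [← hX, ← hE] at hA2
  rw [← hX] at hA1
  obtain ⟨a1, ha1⟩ : ∃ a1 : ℝ, a1 = 2 / (1 / (P : ℝ)) * ((L : ℝ) ^ 2 * P *
    (E + 2 * ((L : ℝ) ^ 2 * (60 * (P : ℝ) ^ 2 * Q) * P / M))) := ⟨_, rfl⟩
  rw [← ha1] at hA2 b3
  have hA1' : nr (contract A) ≤ 4 := by linarith
  have hθ1 : ‖ip (Φ 0) (contract A0)‖ ≤ 1 :=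
    ip_le_one _ _ (nr_one _ (hΦ 0 ⟨le_rfl, zero_le_one⟩)) hn1
  have hA2' : ‖ip (Φ 0) (contract A0)‖ / 2 ≤ ‖ip (Φ 1) (contract A)‖ := by
    refine le_trans ?_ hA2
    have h1 : a1 * ‖ip (Φ 0) (contract A0)‖ ≤ δ := by
      have h0 : 0 ≤ ‖ip (Φ 0) (contract A0)‖ := norm_nonneg _
      have h2 : 0 ≤ a1 := by rw [ha1]; positivity
      nlinarith only [h0, h2, hθ1, b3]
    rw [sub_mul, one_mul]
    have h3 := Real.exp_pos (-(Q : ℝ))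
    linarith
  have hpos : 0 < nr (contract A) := by
    have h1 : ‖ip (Φ 1) (contract A)‖ ≤ nr (Φ 1) * nr (contract A) := ip_le _ _
    rw [nr_one _ (hΦ 1 ⟨zero_le_one, le_rfl⟩), one_mul] at h1
    have := Real.exp_pos (-(Q : ℝ))
    linarith
  obtain ⟨u1, u2, u3⟩ := unit_of (isPEPS_contract A) hpos
  refine ⟨_, _, ?_, u1, u2, ?_⟩
  · rw [hM]
    exact card_final D0 P Q R R' hP hQ hRP hd (by rw [← hn]; exact hR')
  · rw [u3, le_div_iff₀ hpos]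
    have h9 := norm_nonneg (ip (Φ 0) (contract A0))
    calc ‖ip (Φ 0) (contract A0)‖ / 8 * nr (contract A)
        ≤ ‖ip (Φ 0) (contract A0)‖ / 8 * 4 := by gcongr
      _ = ‖ip (Φ 0) (contract A0)‖ / 2 := by ring
      _ ≤ _ := hA2'

end Pool.Agent.T6.H19.PQ
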