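import Pool.Agent.T6.H19.PQ.Base
import Pool.Agent.TH235.PP.Therm

/-!
# The discrete adiabatic chain

The ground vectors of a slowly changing gapped Hamiltonian follow the products of `1 + i D`, `D` the
filtered generators.
-/

set_option autoImplicit false
set_option linter.unusedSectionVars false

open scoped BigOperators Matrix InnerProductSpace
open Finset Pool.Agent.TH235.PP

namespace Pool.Agent.T6.H19.PQ

section aux

variable {n : Type*} [Fintype n] [DecidableEq n]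

theorem ip_add_right (x y z : n → ℂ) : ip x (y + z) = ip x y + ip x z := by
  rw [ip_eq, ip_eq, ip_eq, WithLp.toLp_add, inner_add_right]

theorem ip_sub_right (x y z : n → ℂ) : ip x (y - z) = ip x y - ip x z := by
  rw [ip_eq, ip_eq, ip_eq, WithLp.toLp_sub, inner_sub_right]

theorem ip_sub_left (x y z : n → ℂ) : ip (x - y) z = ip x z - ip y z := by
  rw [ip_eq, ip_eq, ip_eq, WithLp.toLp_sub, inner_sub_left]

theorem ip_self (x : n → ℂ) : ip x x = ((nr x ^ 2 : ℝ) : ℂ) := by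
  rw [ip_eq, inner_self_eq_norm_sq_to_K]
  simp [nr]

theorem nr_zero' : nr (0 : n → ℂ) = 0 := by
  unfold nr
  rw [WithLp.toLp_zero, norm_zero]

theorem nr_sub_le (x y : n → ℂ) : nr (x - y) ≤ nr x + nr y := by
  unfold nr
  rw [WithLp.toLp_sub]
  exact norm_sub_le _ _

open scoped Matrix.Norms.L2Operator in
/-- one step of the chain -/
theorem step (H H' : Matrix n n ℂ) (hH : H.IsHermitian) (hH' : H'.IsHermitian) (Δ : ℝ)
    (hΔ : 0 < Δ) (Ψ Ψ' : n → ℂ) (hΨ : normSq Ψ = 1) (hΨ' : normSq Ψ' = 1)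
    (hg : IsGappedGround H Δ Ψ) (hg' : IsGappedGround H' Δ Ψ') (w : ℝ) (hw : 0 < w) (m : ℕ)
    (β : ℝ) (hβ : ‖H' - H‖ ≤ β) (hβΔ : 4 * β ≤ Δ) :
    nr ((1 + Complex.I • gen H w m (H' - H)) *ᵥ Ψ -
        (ip Ψ' ((1 + Complex.I • gen H w m (H' - H)) *ᵥ Ψ)) • Ψ') ≤
        2 / Δ * (β * ((1 / (w * Δ)) ^ m + 2 * (m * w * β))) ∧
      1 ≤ nr ((1 + Complex.I • gen H w m (H' - H)) *ᵥ Ψ) := by
  obtain ⟨B, hB⟩ : ∃ B, B = H' - H := ⟨_, rfl⟩
  rw [← hB] at hβ ⊢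
  have hH'e : H' = H + B := by rw [hB]; abel
  have hBh : B.IsHermitian := by rw [hB]; exact hH'.sub hH
  have hsH : star H = H := hH
  have hsB : star B = B := hBh
  have hβ0 : 0 ≤ β := (norm_nonneg _).trans hβ
  have hnΨ : nr Ψ = 1 := nr_one Ψ hΨ
  have hnΨ' : nr Ψ' = 1 := nr_one Ψ' hΨ'
  obtain ⟨D, hD⟩ : ∃ D, D = gen H w m B := ⟨_, rfl⟩
  have hcomm := gen_comm H B w hw m
  have hDn := norm_gen_le H B hsH w hw m
  have hDs := star_gen H B hsH hsB w hw m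
  have havg := avg_ground H B hH Δ hΔ Ψ hΨ hg w hw m
  rw [← hD] at hcomm hDn hDs ⊢
  obtain ⟨X, hX⟩ : ∃ X, X = Complex.I • D := ⟨_, rfl⟩
  rw [← hX]
  have hXc : H * X - X * H = (avg H w)^[m] B - B := by
    rw [← hcomm, hX, mul_smul_comm, smul_mul_assoc, ← smul_sub]
  have hXn : ‖X‖ ≤ m * w * β := by
    rw [hX, norm_smul, Complex.norm_I, one_mul]
    refine hDn.trans (mul_le_mul_of_nonneg_left hβ (by positivity))
  obtain ⟨E, hE, hsimple, hgap⟩ := id hg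
  obtain ⟨E', hE', hsimple', hgap'⟩ := id hg'
  obtain ⟨b, hb⟩ : ∃ b, b = ip Ψ (B *ᵥ Ψ) := ⟨_, rfl⟩
  rw [← hb] at havg
  have hbn : ‖b‖ ≤ β := by
    rw [hb]
    refine (ip_le _ _).trans ?_
    rw [hnΨ, one_mul]
    refine (nr_mulVec _ _).trans ?_
    rw [hnΨ, mul_one]
    exact hβ
  obtain ⟨χ, hχ⟩ : ∃ χ, χ = (1 + X) *ᵥ Ψ := ⟨_, rfl⟩
  have hχ' : χ = Ψ + X *ᵥ Ψ := by rw [hχ, Matrix.add_mulVec, Matrix.one_mulVec]
  rw [← hχ]
  -- the residual
  have hres : H' *ᵥ χ - ((E : ℂ) + b) • χ =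
      (((avg H w)^[m] B) *ᵥ Ψ - b • Ψ) + (B *ᵥ (X *ᵥ Ψ) - b • (X *ᵥ Ψ)) := by
    have h1 : H *ᵥ (X *ᵥ Ψ) = (E : ℂ) • (X *ᵥ Ψ) + (((avg H w)^[m] B) *ᵥ Ψ - B *ᵥ Ψ) := by
      have h2 : H *ᵥ (X *ᵥ Ψ) - X *ᵥ (H *ᵥ Ψ) = ((avg H w)^[m] B) *ᵥ Ψ - B *ᵥ Ψ := by
        rw [Matrix.mulVec_mulVec, Matrix.mulVec_mulVec, ← Matrix.sub_mulVec, hXc,
          Matrix.sub_mulVec]
      rw [hE, Matrix.mulVec_smul] at h2
      rw [← h2]
      abel
    rw [hχ', hH'e, Matrix.add_mulVec, Matrix.mulVec_add, Matrix.mulVec_add, h1, hE]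
    rw [add_smul, smul_add, smul_add]
    abel
  have hresn : nr (H' *ᵥ χ - ((E : ℂ) + b) • χ) ≤
      β * ((1 / (w * Δ)) ^ m + 2 * (m * w * β)) := by
    rw [hres]
    refine (nr_add _ _).trans ?_
    have h1 : nr ((((avg H w)^[m] B) *ᵥ Ψ - b • Ψ)) ≤ (1 / (w * Δ)) ^ m * β :=
      havg.trans (mul_le_mul_of_nonneg_left hβ (by positivity))
    have h2 : nr (X *ᵥ Ψ) ≤ m * w * β := by
      refine (nr_mulVec _ _).trans ?_
      rw [hnΨ, mul_one]
      exact hXn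
    have h3 : nr (B *ᵥ (X *ᵥ Ψ) - b • (X *ᵥ Ψ)) ≤ β * (m * w * β) + β * (m * w * β) := by
      refine (nr_sub_le _ _).trans (add_le_add ?_ ?_)
      · refine (nr_mulVec _ _).trans ?_
        exact mul_le_mul hβ h2 (nr_nonneg _) hβ0
      · rw [nr_smul]
        exact mul_le_mul hbn h2 (nr_nonneg _) hβ0
    calc _ ≤ (1 / (w * Δ)) ^ m * β + (β * (m * w * β) + β * (m * w * β)) := add_le_add h1 h3
      _ = _ := by ring
  obtain ⟨ρ, hρ⟩ : ∃ ρ, ρ = β * ((1 / (w * Δ)) ^ m + 2 * (m * w * β)) := ⟨_, rfl⟩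
  rw [← hρ] at hresn ⊢
  have hρ0 : 0 ≤ ρ := (nr_nonneg _).trans hresn
  obtain ⟨a, ha⟩ : ∃ a, a = ip Ψ' χ := ⟨_, rfl⟩
  rw [← ha]
  obtain ⟨y, hy⟩ : ∃ y, y = χ - a • Ψ' := ⟨_, rfl⟩
  rw [← hy]
  have hΨy : ip Ψ' y = 0 := by
    rw [hy, ip_sub_right, ip_smul_right, ip_self_one Ψ' hΨ', ← ha]
    ring
  have hyΨ : ip y Ψ' = 0 := by
    have h1 : ip y Ψ' = (starRingEnd ℂ) (ip Ψ' y) := by
      rw [ip_eq, ip_eq, inner_conj_symm]
    rw [h1, hΨy, map_zero]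
  constructor
  · -- the equation for `y`
    have h1 : ip y (H' *ᵥ y) - ((E : ℂ) + b) * ip y y = ip y (H' *ᵥ χ - ((E : ℂ) + b) • χ) := by
      have e1 : χ = y + a • Ψ' := by rw [hy]; abel
      rw [ip_sub_right, ip_smul_right]
      conv_rhs => rw [e1, Matrix.mulVec_add, Matrix.mulVec_smul, hE', ip_add_right, ip_add_right,
        ip_smul_right, ip_smul_right, ip_smul_right, hyΨ]
      ring
    have h2 := gap_ineq H' hH' Δ hΔ Ψ' hΨ' hg' y
    have hE'r : (ip Ψ' (H' *ᵥ Ψ')).re = E' := by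
      rw [hE', ip_smul_right, ip_self_one Ψ' hΨ', mul_one, Complex.ofReal_re]
    rw [hE'r, hΨy, norm_zero] at h2
    -- comparison of the energies
    have h3 : E - β ≤ E' := by
      have h4 := gap_ineq H hH Δ hΔ Ψ hΨ hg Ψ'
      have hEr : (ip Ψ (H *ᵥ Ψ)).re = E := by
        rw [hE, ip_smul_right, ip_self_one Ψ hΨ, mul_one, Complex.ofReal_re]
      rw [hEr, hΨ'] at h4
      have h5 : ‖ip Ψ Ψ'‖ ≤ 1 := ip_le_one Ψ Ψ' hnΨ hnΨ'
      have h6 : H *ᵥ Ψ' = H' *ᵥ Ψ' - B *ᵥ Ψ' := by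
        rw [hH'e, Matrix.add_mulVec]; abel
      rw [h6, ip_sub_right, Complex.sub_re, hE'r] at h4
      have h7 : |(ip Ψ' (B *ᵥ Ψ')).re| ≤ β := by
        refine (Complex.abs_re_le_norm _).trans ((ip_le _ _).trans ?_)
        rw [hnΨ', one_mul]
        refine (nr_mulVec _ _).trans ?_
        rw [hnΨ', mul_one]
        exact hβ
      have h8 := (abs_le.1 h7).1
      have h9 : ‖ip Ψ Ψ'‖ ^ 2 ≤ 1 := by
        have := norm_nonneg (ip Ψ Ψ')
        nlinarith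
      nlinarith
    have h4 : b.re ≤ β := (Complex.re_le_norm b).trans hbn
    have h5 : (ip y (H' *ᵥ y)).re - (E + b.re) * nr y ^ 2 ≤ nr y * ρ := by
      have h6 := congrArg Complex.re h1
      rw [Complex.sub_re, ip_self y] at h6
      have h7 : (((E : ℂ) + b) * ((nr y ^ 2 : ℝ) : ℂ)).re = (E + b.re) * nr y ^ 2 := by
        rw [Complex.mul_re, Complex.ofReal_re, Complex.ofReal_im, Complex.add_re,
          Complex.ofReal_re]
        ring
      rw [h7] at h6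
      rw [h6]
      refine (Complex.re_le_norm _).trans ((ip_le _ _).trans ?_)
      exact mul_le_mul_of_nonneg_left hresn (nr_nonneg _)
    rw [← nr_sq] at h2
    have h6 : Δ / 2 * nr y ^ 2 ≤ nr y * ρ := by
      have := sq_nonneg (nr y)
      nlinarith
    rcases (nr_nonneg y).eq_or_lt with h7 | h7
    · rw [← h7]
      positivity
    · have h8 : Δ / 2 * nr y ≤ ρ := by
        by_contra h9
        push Not at h9
        nlinarith
      rw [div_mul_eq_mul_div, le_div_iff₀ hΔ]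
      linarith
  · -- the norm of `χ`
    have h1 : (ip Ψ (X *ᵥ Ψ)).re = 0 := by
      rw [hX, Matrix.smul_mulVec, ip_smul_right]
      have h2 : (ip Ψ (D *ᵥ Ψ)).im = 0 := by
        have h3 := ip_symm_herm D hDs Ψ Ψ
        have h4 : ip (D *ᵥ Ψ) Ψ = (starRingEnd ℂ) (ip Ψ (D *ᵥ Ψ)) := by
          rw [ip_eq, ip_eq, inner_conj_symm]
        rw [h4] at h3
        exact Complex.conj_eq_iff_im.1 h3.symm
      rw [Complex.mul_re, Complex.I_re, Complex.I_im, h2]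
      ring
    have h2 : (ip Ψ χ).re = 1 := by
      rw [hχ', ip_add_right, Complex.add_re, h1, ip_self_one Ψ hΨ]
      simp
    have h3 : ‖ip Ψ χ‖ ≤ nr χ := by
      refine (ip_le _ _).trans ?_
      rw [hnΨ, one_mul]
    have h4 := Complex.re_le_norm (ip Ψ χ)
    linarith

open scoped Matrix.Norms.L2Operator in
/-- the chain -/
theorem chain [Nonempty n] (Δ : ℝ) (hΔ : 0 < Δ) (w : ℝ) (hw : 0 < w) (m : ℕ) (β η G e : ℝ) (hη : 0 ≤ η)
    (hG1 : 1 ≤ G) (hβΔ : 4 * β ≤ Δ)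
    (he : e = 2 / Δ * (β * ((1 / (w * Δ)) ^ m + 2 * (m * w * β)))) :
    ∀ (M : ℕ) (H : ℕ → Matrix n n ℂ) (Ψ : ℕ → n → ℂ) (Z : Fin M → Matrix n n ℂ),
      (∀ k ≤ M, (H k).IsHermitian) → (∀ k ≤ M, normSq (Ψ k) = 1) →
      (∀ k ≤ M, IsGappedGround (H k) Δ (Ψ k)) →
      (∀ k < M, ‖H (k + 1) - H k‖ ≤ β) →
      (∀ k : Fin M, ‖star (Z k) - Complex.I • gen (H k) w m (H (k + 1) - H k)‖ ≤ η) →
      (∀ k : Fin M, ‖1 + Z k‖ + η ≤ G) →
      ∃ c : ℂ, 1 - M * e ≤ ‖c‖ ∧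
        nr (star (op fun t => 1 + Z t) *ᵥ Ψ 0 - c • Ψ M) ≤ M * (e + η) * G ^ M := by
  intro M
  induction M with
  | zero =>
    intro H Ψ Z hH hΨ hg hβ hZ hZG
    refine ⟨1, by simp, ?_⟩
    rw [op_zero, star_one, Matrix.one_mulVec, one_smul, sub_self, nr_zero']
    simp
  | succ M ih =>
    intro H Ψ Z hH hΨ hg hβ hZ hZG
    have hβ0 : 0 ≤ β := (norm_nonneg _).trans (hβ 0 (by omega))
    have he0 : 0 ≤ e := by rw [he]; positivity
    obtain ⟨c, hc1, hc2⟩ := ih (fun k => H (k + 1)) (fun k => Ψ (k + 1)) (fun t => Z t.succ)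
      (fun k hk => hH (k + 1) (by omega)) (fun k hk => hΨ (k + 1) (by omega))
      (fun k hk => hg (k + 1) (by omega)) (fun k hk => hβ (k + 1) (by omega))
      (fun k => by
        have := hZ k.succ
        simpa using this) (fun k => hZG k.succ)
    obtain ⟨h1, h2⟩ := step (H 0) (H 1) (hH 0 (by omega)) (hH 1 (by omega)) Δ hΔ (Ψ 0) (Ψ 1)
      (hΨ 0 (by omega)) (hΨ 1 (by omega)) (hg 0 (by omega)) (hg 1 (by omega)) w hw m β
      (hβ 0 (by omega)) hβΔ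
    have hZ0 := hZ 0
    simp only [Fin.val_zero, zero_add] at hZ0
    rw [← he] at h1
    obtain ⟨X, hX⟩ : ∃ X, X = Complex.I • gen (H 0) w m (H 1 - H 0) := ⟨_, rfl⟩
    rw [← hX] at h1 h2 hZ0
    obtain ⟨χ, hχ⟩ : ∃ χ, χ = (1 + X) *ᵥ Ψ 0 := ⟨_, rfl⟩
    rw [← hχ] at h1 h2
    obtain ⟨a, ha⟩ : ∃ a, a = ip (Ψ 1) χ := ⟨_, rfl⟩
    rw [← ha] at h1
    have hn0 : nr (Ψ 0) = 1 := nr_one _ (hΨ 0 (by omega))
    have hn1 : nr (Ψ 1) = 1 := nr_one _ (hΨ 1 (by omega))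
    have hsZ : ‖1 + star (Z 0)‖ = ‖1 + Z 0‖ := by
      rw [← norm_star (1 + Z 0), star_add, star_one]
    have ha1 : ‖a‖ ≤ G := by
      rw [ha]
      refine (ip_le _ _).trans ?_
      rw [hn1, one_mul, hχ]
      refine (nr_mulVec _ _).trans ?_
      rw [hn0, mul_one]
      have h3 : (1 : Matrix n n ℂ) + X = (1 + star (Z 0)) - (star (Z 0) - X) := by abel
      rw [h3]
      refine (norm_sub_le _ _).trans (le_trans ?_ (hZG 0))
      rw [hsZ]
      linarith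
    have ha2 : 1 - e ≤ ‖a‖ := by
      have h3 : nr χ ≤ nr (χ - a • Ψ 1) + nr (a • Ψ 1) := by
        have := nr_add (χ - a • Ψ 1) (a • Ψ 1)
        rwa [sub_add_cancel] at this
      rw [nr_smul, hn1, mul_one] at h3
      linarith
    obtain ⟨V, hV⟩ : ∃ V, V = op fun t : Fin M => 1 + Z t.succ := ⟨_, rfl⟩
    have hVn : ‖V‖ ≤ G ^ M := by
      have hnt : Nontrivial (Matrix n n ℂ) := inferInstance
      rw [hV]
      refine (norm_op_le (R := Matrix n n ℂ) (fun t : Fin M => 1 + Z t.succ) (fun _ => G)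
        (fun i => ?_)).trans ?_
      · have := hZG i.succ
        linarith
      · simp
    have hG0 : 0 ≤ G := by linarith
    refine ⟨a * c, ?_, ?_⟩
    · rw [norm_mul]
      push_cast
      by_cases h3 : e ≤ 1 ∧ (M : ℝ) * e ≤ 1
      · obtain ⟨h4, h5⟩ := h3
        have h6 : (1 - e) * (1 - M * e) ≤ ‖a‖ * ‖c‖ :=
          mul_le_mul ha2 hc1 (by linarith) (norm_nonneg _)
        have h7 : 0 ≤ (M : ℝ) * e * e := by positivity
        nlinarith
      · have h4 : 1 ≤ ((M : ℝ) + 1) * e := by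
          by_contra h5
          push Not at h5
          apply h3
          have h6 : 0 ≤ (M : ℝ) * e := by positivity
          constructor <;> nlinarith
        have h5 : 0 ≤ ‖a‖ * ‖c‖ := by positivity
        linarith
    · rw [op_succ, star_mul, ← hV, ← Matrix.mulVec_mulVec, star_add, star_one]
      have h3 : star V *ᵥ ((1 + star (Z 0)) *ᵥ Ψ 0) - (a * c) • Ψ (M + 1) =
          a • (star V *ᵥ Ψ 1 - c • Ψ (M + 1)) +
            star V *ᵥ ((χ - a • Ψ 1) + (star (Z 0) - X) *ᵥ Ψ 0) := by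
        have h4 : (χ - a • Ψ 1) + (star (Z 0) - X) *ᵥ Ψ 0 = (1 + star (Z 0)) *ᵥ Ψ 0 - a • Ψ 1 := by
          rw [hχ, Matrix.sub_mulVec, Matrix.add_mulVec, Matrix.add_mulVec]
          abel
        rw [h4, Matrix.mulVec_sub, Matrix.mulVec_smul, smul_sub, smul_smul]
        abel
      rw [h3]
      refine (nr_add _ _).trans ?_
      rw [nr_smul]
      have h5 : nr (star V *ᵥ Ψ 1 - c • Ψ (M + 1)) ≤ M * (e + η) * G ^ M := by
        rw [hV]
        exact hc2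
      have h6 : nr (star V *ᵥ ((χ - a • Ψ 1) + (star (Z 0) - X) *ᵥ Ψ 0)) ≤ G ^ M * (e + η) := by
        refine (nr_mulVec _ _).trans ?_
        rw [norm_star]
        refine mul_le_mul hVn ((nr_add _ _).trans (add_le_add h1 ?_)) (nr_nonneg _)
          (by positivity)
        refine (nr_mulVec _ _).trans ?_
        rw [hn0, mul_one]
        exact hZ0
      have h7 : ‖a‖ * nr (star V *ᵥ Ψ 1 - c • Ψ (M + 1)) ≤ G * (M * (e + η) * G ^ M) :=
        mul_le_mul ha1 h5 (nr_nonneg _) hG0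
      have h8 : G ^ M * (e + η) ≤ G ^ (M + 1) * (e + η) := by
        refine mul_le_mul_of_nonneg_right ?_ (by positivity)
        rw [pow_succ]
        exact le_mul_of_one_le_right (by positivity) hG1
      calc _ ≤ G * (M * (e + η) * G ^ M) + G ^ (M + 1) * (e + η) := by linarith
        _ = _ := by push_cast; ring

end aux

end Pool.Agent.T6.H19.PQ
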