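import Pool.Agent.T6.H19.PQ.Chain
import Pool.Agent.T6.H19.PQ.Geo

/-!
# Tensor networks transported along a gapped path

The overlap of a tensor network with one endpoint of a gapped path gives a tensor network with
almost the same overlap with the other endpoint.
-/

set_option autoImplicit false
set_option linter.unusedSectionVars false

open scoped BigOperators Matrix
open Finset Pool.Agent.TH235.PP

namespace Pool.Agent.T6.H19.PQ

section term

variable {d R L : ℕ}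

theorem term_sub (a b : BoxOp d R) (u : Site L) : term (a - b) u = term a u - term b u := by
  classical
  ext s t
  rw [Matrix.sub_apply]
  unfold term
  split_ifs with h
  · rw [Matrix.sub_apply]
  · simp

theorem term_smul (c : ℂ) (a : BoxOp d R) (u : Site L) : term (c • a) u = c • term a u := by
  classical
  ext s t
  rw [Matrix.smul_apply]
  unfold term
  split_ifs with h
  · rw [Matrix.smul_apply]
  · simp

end term

section norms

open scoped Matrix.Norms.L2Operator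

variable {n : Type*} [Fintype n] [DecidableEq n]

/-- `1 + Z` for a skew-Hermitian `Z` -/
theorem norm_one_add_skew [Nonempty n] (Z : Matrix n n ℂ) (hZ : star Z = -Z) (b : ℝ)
    (hb : ‖Z‖ ≤ b) : ‖1 + Z‖ ≤ 1 + b ^ 2 := by
  have h1 : star (1 + Z) * (1 + Z) = 1 - Z * Z := by
    rw [star_add, star_one, hZ]
    noncomm_ring
  have h2 : ‖1 + Z‖ * ‖1 + Z‖ ≤ 1 + b ^ 2 := by
    rw [← CStarRing.norm_star_mul_self, h1]
    refine (norm_sub_le _ _).trans ?_
    have h3 : ‖(1 : Matrix n n ℂ)‖ = 1 := norm_one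
    rw [h3]
    have h4 : ‖Z * Z‖ ≤ b ^ 2 := by
      refine (norm_mul_le _ _).trans ?_
      rw [sq]
      exact mul_le_mul hb hb (norm_nonneg _) ((norm_nonneg _).trans hb)
    linarith
  have h5 : 0 ≤ b ^ 2 := by positivity
  have h6 := norm_nonneg (1 + Z)
  by_contra h7
  push Not at h7
  nlinarith

end norms

open scoped Matrix.Norms.L2Operator in
/-- transport of a tensor network -/
theorem transport {d R L : ℕ} [NeZero L] (hR : 0 < R) (J Jp Δ : ℝ) (hΔ : 0 < Δ) (hJp : 0 ≤ Jp)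
    (g : ℝ → Site L → BoxOp d R) (Φ : ℝ → (Site L → Fin d) → ℂ)
    (hherm : ∀ s ∈ Set.Icc (0 : ℝ) 1, ∀ u, (g s u).IsHermitian)
    (hJ : ∀ s ∈ Set.Icc (0 : ℝ) 1, ∀ u : Site L, ‖term (g s u) u‖ ≤ J)
    (hLip : ∀ s ∈ Set.Icc (0 : ℝ) 1, ∀ t ∈ Set.Icc (0 : ℝ) 1, ∀ u : Site L,
      ‖term (g s u - g t u) u‖ ≤ Jp * |s - t|)
    (hΦ : ∀ s ∈ Set.Icc (0 : ℝ) 1, normSq (Φ s) = 1)
    (hgap : ∀ s ∈ Set.Icc (0 : ℝ) 1, IsGappedGround (∑ u, term (g s u) u) Δ (Φ s))
    (w : ℝ) (hw : 0 < w) (m n M r : ℕ) (hM : 0 < M) (hL : 2 * ((n + 2) * R) + R ≤ L)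
    (R' : ℕ) (hR' : 2 * ((n + 2) * R) + R = R' + 1)
    {K : Type*} [Fintype K] (A0 : Site L → Fin d → K → K → K → K → ℂ)
    (hφ : nr (contract A0) = 1) (N T F : ℝ) (hT : T = m * w) (hN : N = (L : ℝ) ^ 2)
    (hF : F = (2 * J * (R ^ 4 : ℕ) * T) ^ (n + 2) / (n + 2).factorial)
    (h1 : 4 * (N * Jp / M) ≤ Δ) (h2 : N * T * Jp / M ≤ 1 / 4)
    (h3 : 2 * M * (N * T * Jp / M) ^ 2 ≤ 1) (h4 : N * Real.exp (13 * (T * Jp) - r) ≤ 1)
    (h5 : 2 * (N ^ 2 * T * Jp * F) ≤ 1) :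
    ∃ A : Site L → Fin d → (K × (Fin (R' + 1) × Fin (R' + 1) → Lab d (R' + 1) M r)) →
      (K × (Fin (R' + 1) × Fin (R' + 1) → Lab d (R' + 1) M r)) →
      (K × (Fin (R' + 1) × Fin (R' + 1) → Lab d (R' + 1) M r)) →
      (K × (Fin (R' + 1) × Fin (R' + 1) → Lab d (R' + 1) M r)) → ℂ,
      nr (contract A) ≤ 3 * (1 + (6 * (N * Real.exp (13 * (T * Jp) - r)) +
          4 * (M * (N * T * Jp / M) ^ 2))) ∧
      (1 - 2 / Δ * (N * Jp * ((1 / (w * Δ)) ^ m + 2 * (N * T * Jp / M)))) *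
          ‖ip (Φ 0) (contract A0)‖ -
        3 * (2 / Δ * (N * Jp * ((1 / (w * Δ)) ^ m + 2 * (N * T * Jp / M))) +
          N ^ 2 * T * Jp * F + (6 * (N * Real.exp (13 * (T * Jp) - r)) +
          4 * (M * (N * T * Jp / M) ^ 2))) ≤ ‖ip (Φ 1) (contract A)‖ := by
  classical
  have h01 : (0 : ℝ) ∈ Set.Icc (0 : ℝ) 1 := ⟨le_rfl, zero_le_one⟩
  have h11 : (1 : ℝ) ∈ Set.Icc (0 : ℝ) 1 := ⟨zero_le_one, le_rfl⟩
  have hne := nonempty_of_normSq (Φ 0) (hΦ 0 h01)
  have hnt : Nontrivial (TorOp d L) := inferInstance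
  have hM0 : (0 : ℝ) < M := by exact_mod_cast hM
  have hJ0 : 0 ≤ J := (norm_nonneg _).trans (hJ 0 h01 0)
  have hT0 : 0 ≤ T := by rw [hT]; positivity
  have hN0 : 0 ≤ N := by rw [hN]; positivity
  have hF0 : 0 ≤ F := by rw [hF]; positivity
  -- the times
  obtain ⟨σ, hσ⟩ : ∃ σ : ℕ → ℝ, σ = fun k : ℕ => 1 - (k : ℝ) / M := ⟨_, rfl⟩
  have hσI : ∀ k ≤ M, σ k ∈ Set.Icc (0 : ℝ) 1 := by
    intro k hk
    have hk' : (k : ℝ) ≤ M := by exact_mod_cast hk
    rw [hσ]
    constructor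
    · have : (k : ℝ) / M ≤ 1 := by rw [div_le_one hM0]; exact hk'
      simpa using this
    · have : 0 ≤ (k : ℝ) / M := by positivity
      simpa using this
  have hσd : ∀ k : ℕ, |σ (k + 1) - σ k| = 1 / M := by
    intro k
    have : σ (k + 1) - σ k = -(1 / M) := by
      rw [hσ]
      push_cast
      ring
    rw [this, abs_neg, abs_of_nonneg (by positivity)]
  have hσ0 : σ 0 = 1 := by rw [hσ]; simp
  have hσM : σ M = 0 := by rw [hσ]; simp [hM0.ne']
  obtain ⟨α, hα⟩ : ∃ α : ℝ, α = Jp / M := ⟨_, rfl⟩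
  have hα0 : 0 ≤ α := by rw [hα]; positivity
  obtain ⟨H, hH⟩ : ∃ H : ℕ → TorOp d L, H = fun k => ∑ u, term (g (σ k) u) u := ⟨_, rfl⟩
  have hHk : ∀ k, H k = ∑ u, term (g (σ k) u) u := fun k => by rw [hH]
  have hHd : ∀ k, H (k + 1) - H k = ∑ u, term (g (σ (k + 1)) u - g (σ k) u) u := by
    intro k
    rw [hHk, hHk, ← Finset.sum_sub_distrib]
    exact Finset.sum_congr rfl fun u _ => (term_sub _ _ u).symm
  have hinc : ∀ k, k < M → ∀ u : Site L, ‖term (g (σ (k + 1)) u - g (σ k) u) u‖ ≤ α := by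
    intro k hk u
    refine (hLip _ (hσI (k + 1) hk) _ (hσI k hk.le) u).trans (le_of_eq ?_)
    rw [hσd, hα]
    ring
  -- the local generators
  have hloc : ∀ k : Fin M, ∃ kk : Site L → BoxOp d (R' + 1),
      (∀ u : Site L, ‖term (kk u) u‖ ≤ m * w * α) ∧
      (∀ u : Site L, star (term (kk u) u) = term (kk u) u) ∧
      ‖gen (H k) w m (H (k + 1) - H k) - ∑ u, term (kk u) u‖ ≤
        L ^ 2 * (m * w * (L ^ 2 * α *
          ((2 * J * (R ^ 4 : ℕ) * (m * w)) ^ (n + 2) / (n + 2).factorial))) := by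
    intro k
    have := loc hR (fun u => g (σ k) u) (hherm _ (hσI k k.2.le)) J (hJ _ (hσI k k.2.le))
      (fun u => g (σ (k + 1)) u - g (σ k) u)
      (fun u => (hherm _ (hσI (k + 1) k.2) u).sub (hherm _ (hσI k k.2.le) u)) α
      (hinc k k.2) w hw m n hL
    rw [← hHk, ← hHd, hR'] at this
    exact this
  choose kk hk1 hk2 hk3 using hloc
  obtain ⟨e⟩ : Nonempty (Fin (L ^ 2) ≃ Site L) := by
    rw [← Fintype.card_eq, Fintype.card_fin, card_site]
  obtain ⟨y, hy⟩ : ∃ y : Fin M → Fin (L ^ 2) → TorOp d L,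
      y = fun t b => term ((-Complex.I) • kk t (e b)) (e b) := ⟨_, rfl⟩
  have hy' : ∀ t b, y t b = (-Complex.I) • term (kk t (e b)) (e b) := by
    intro t b
    rw [hy]
    exact term_smul _ _ _
  obtain ⟨y0, hy0⟩ : ∃ y0 : ℝ, y0 = T * Jp / M := ⟨_, rfl⟩
  have hy00 : 0 ≤ y0 := by rw [hy0]; positivity
  have hyn : ∀ t b, ‖y t b‖ ≤ y0 := by
    intro t b
    rw [hy', norm_smul, norm_neg, Complex.norm_I, one_mul]
    refine (hk1 t (e b)).trans (le_of_eq ?_)
    rw [hy0, hT, hα]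
    ring
  have hNe : ((L ^ 2 : ℕ) : ℝ) = N := by rw [hN]; push_cast; ring
  have hNy : N * y0 = N * T * Jp / M := by rw [hy0]; ring
  have hsum : ∀ t, ∑ b, y t b = (-Complex.I) • ∑ u, term (kk t u) u := by
    intro t
    rw [Finset.smul_sum, ← e.sum_comp]
    exact Finset.sum_congr rfl fun b _ => hy' t b
  have hstar : ∀ t, star (∑ b, y t b) = Complex.I • ∑ u, term (kk t u) u := by
    intro t
    rw [hsum, star_smul, star_sum]
    have : (star (-Complex.I) : ℂ) = Complex.I := by simp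
    rw [this]
    congr 1
    exact Finset.sum_congr rfl fun u _ => hk2 t u
  have hskew : ∀ t, star (∑ b, y t b) = -∑ b, y t b := by
    intro t
    rw [hstar, hsum, neg_smul, neg_neg]
  have hZn : ∀ t, ‖∑ b, y t b‖ ≤ N * y0 := by
    intro t
    refine (norm_sum_le _ _).trans ?_
    refine (Finset.sum_le_sum fun b _ => hyn t b).trans (le_of_eq ?_)
    rw [Finset.sum_const, Finset.card_univ, Fintype.card_fin, nsmul_eq_mul, hNe]
  have hG : ∀ t, ‖1 + ∑ b, y t b‖ ≤ 1 + (N * y0) ^ 2 := fun t =>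
    norm_one_add_skew _ (hskew t) _ (hZn t)
  obtain ⟨η, hη⟩ : ∃ η : ℝ, η = L ^ 2 * (m * w * (L ^ 2 * α *
          ((2 * J * (R ^ 4 : ℕ) * (m * w)) ^ (n + 2) / (n + 2).factorial))) := ⟨_, rfl⟩
  have hη' : M * η = N ^ 2 * T * Jp * F := by
    rw [hη, hF, hN, hT, hα]
    field_simp
  have hη0 : 0 ≤ η := by
    rw [hη]; positivity
  have hη2 : ∀ k : Fin M, ‖star (∑ b, y k b) - Complex.I • gen (H k) w m (H (k + 1) - H k)‖ ≤ η := by
    intro k
    rw [hstar, ← smul_sub, norm_smul, Complex.norm_I, one_mul, norm_sub_rev, hη]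
    exact hk3 k
  obtain ⟨ee, hee⟩ : ∃ ee : ℝ, ee = 2 / Δ * (N * α * ((1 / (w * Δ)) ^ m +
    2 * (m * w * (N * α)))) := ⟨_, rfl⟩
  have hee' : M * ee = 2 / Δ * (N * Jp * ((1 / (w * Δ)) ^ m + 2 * (N * T * Jp / M))) := by
    rw [hee, hα, hT]
    field_simp
  obtain ⟨c, hc1, hc2⟩ := chain Δ hΔ w hw m (N * α) η (1 + (N * y0) ^ 2 + η) ee hη0
    (by nlinarith [sq_nonneg (N * y0)])
    (by
      have : N * α = N * Jp / M := by rw [hα]; ring
      rw [this]
      exact h1) hee M H (fun k => Φ (σ k)) (fun t => ∑ b, y t b)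
    (fun k hk => by
      rw [hHk]
      exact isSelfAdjoint_sum _ fun u _ => term_herm _ (hherm _ (hσI k hk) u) u)
    (fun k hk => hΦ _ (hσI k hk))
    (fun k hk => by
      rw [hHk]
      exact hgap _ (hσI k hk))
    (fun k hk => by
      rw [hHd]
      refine (norm_sum_le _ _).trans ?_
      refine (Finset.sum_le_sum fun u _ => hinc k hk u).trans (le_of_eq ?_)
      rw [Finset.sum_const, Finset.card_univ, card_site, nsmul_eq_mul, hNe])
    hη2 (fun k => by linarith [hG k])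
  simp only [hσ0, hσM] at hc2
  -- the powers of the bounds
  have hpow : (1 + (N * y0) ^ 2 + η) ^ M ≤ 3 := by
    have k1 : (1 + (N * y0) ^ 2 + η) ^ M ≤ Real.exp (M * ((N * y0) ^ 2 + η)) := by
      rw [Real.exp_nat_mul]
      refine pow_le_pow_left₀ (by positivity) ?_ M
      have := Real.add_one_le_exp ((N * y0) ^ 2 + η)
      linarith
    refine k1.trans ((Real.exp_le_exp.2 (?_ : _ ≤ (1 : ℝ))).trans ?_)
    · rw [mul_add, hη', hNy]
      nlinarith only [h3, h5]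
    · have := Real.exp_one_lt_d9
      linarith
  have hpow2 : (1 + (N * y0) ^ 2) ^ M ≤ 3 := by
    refine le_trans (pow_le_pow_left₀ (by positivity) ?_ M) hpow
    linarith
  -- truncation
  have hMy : (M : ℝ) * y0 = T * Jp := by
    rw [hy0]
    field_simp
  have htr := trunc_bound_t y y0 (1 + (N * y0) ^ 2) hy00 hyn hG
    (by nlinarith only [sq_nonneg (N * y0)]) (by rw [hNe, hNy]; exact h2) r
    (by rw [hNe, hNy]; exact h3) (by rw [hNe, hMy]; exact h4)
  rw [hNe, hMy, hNy] at htr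
  obtain ⟨τ, hτ⟩ : ∃ τ : ℝ, τ = 6 * (N * Real.exp (13 * (T * Jp) - r)) +
    4 * (M * (N * T * Jp / M) ^ 2) := ⟨_, rfl⟩
  have hτ0 : 0 ≤ τ := by rw [hτ]; positivity
  rw [← hτ] at htr ⊢
  have htr3 : ‖KTt y r - op (fun t => 1 + ∑ b, y t b)‖ ≤ 3 * τ := by
    refine htr.trans (mul_le_mul_of_nonneg_right ?_ hτ0)
    rw [← hNy]
    exact hpow2
  have hopn : ‖op (fun t => 1 + ∑ b, y t b)‖ ≤ 3 := by
    refine (norm_op_le (R := TorOp d L) (fun t : Fin M => 1 + ∑ b, y t b)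
      (fun _ => 1 + (N * y0) ^ 2) hG).trans ?_
    simpa using hpow2
  obtain ⟨A, hA⟩ := peps_apply_t A0 (fun t u => (-Complex.I) • kk t u) e r
  have hKy : (KTt (fun t b => term ((-Complex.I) • kk t (e b)) (e b)) r : TorOp d L) = KTt y r := by
    rw [hy]
  refine ⟨A, ?_, ?_⟩
  · rw [← hA]
    refine (nr_mulVec _ _).trans ?_
    rw [hφ, mul_one]
    have e1 : KTt (fun t b => term ((-Complex.I) • kk t (e b)) (e b)) r =
        op (fun t => 1 + ∑ b, y t b) + (KTt y r - op (fun t => 1 + ∑ b, y t b)) := by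
      rw [hKy]; abel
    rw [e1]
    refine (norm_add_le _ _).trans ?_
    linarith
  · have e1 : contract A = op (fun t => 1 + ∑ b, y t b) *ᵥ contract A0 +
        (KTt y r - op (fun t => 1 + ∑ b, y t b)) *ᵥ contract A0 := by
      rw [← Matrix.add_mulVec, add_sub_cancel, ← hKy]
      exact hA.symm
    have e2 : ip (Φ 1) (op (fun t => 1 + ∑ b, y t b) *ᵥ contract A0) =
        ip (star (op fun t => 1 + ∑ b, y t b) *ᵥ Φ 1) (contract A0) := by
      have e3 : ∀ u v : (Site L → Fin d) → ℂ, ip u v = star u ⬝ᵥ v := fun u v => rfl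
      rw [e3, e3, Matrix.star_mulVec, Matrix.dotProduct_mulVec, Matrix.star_eq_conjTranspose,
        Matrix.conjTranspose_conjTranspose]
    have e4 : ip (star (op fun t => 1 + ∑ b, y t b) *ᵥ Φ 1) (contract A0) =
        (starRingEnd ℂ) c * ip (Φ 0) (contract A0) +
          ip (star (op fun t => 1 + ∑ b, y t b) *ᵥ Φ 1 - c • Φ 0) (contract A0) := by
      rw [ip_sub_left, ip_smul_left]
      ring
    have k1 : ‖ip (star (op fun t => 1 + ∑ b, y t b) *ᵥ Φ 1 - c • Φ 0) (contract A0)‖ ≤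
        3 * (M * ee + M * η) := by
      refine (ip_le _ _).trans ?_
      rw [hφ, mul_one]
      refine hc2.trans ?_
      have h0 : 0 ≤ M * (ee + η) := by
        have : 0 ≤ ee := by rw [hee]; positivity
        positivity
      have := mul_le_mul_of_nonneg_left hpow h0
      linarith
    have k2 : ‖ip (Φ 1) ((KTt y r - op (fun t => 1 + ∑ b, y t b)) *ᵥ contract A0)‖ ≤ 3 * τ := by
      refine (ip_le _ _).trans ?_
      rw [nr_one _ (hΦ 1 h11), one_mul]
      refine (nr_mulVec _ _).trans ?_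
      rw [hφ, mul_one]
      exact htr3
    have k3 : ‖(starRingEnd ℂ) c * ip (Φ 0) (contract A0)‖ ≤ ‖ip (Φ 1) (contract A)‖ +
        (3 * (M * ee + M * η) + 3 * τ) := by
      have e5 : (starRingEnd ℂ) c * ip (Φ 0) (contract A0) = ip (Φ 1) (contract A) -
          (ip (star (op fun t => 1 + ∑ b, y t b) *ᵥ Φ 1 - c • Φ 0) (contract A0) +
            ip (Φ 1) ((KTt y r - op (fun t => 1 + ∑ b, y t b)) *ᵥ contract A0)) := by
        rw [e1, ip_add_right, e2, e4]
        ring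
      rw [e5]
      refine (norm_sub_le _ _).trans (add_le_add le_rfl ((norm_add_le _ _).trans ?_))
      linarith
    rw [norm_mul, RCLike.norm_conj] at k3
    have k4 := mul_le_mul_of_nonneg_right hc1 (norm_nonneg (ip (Φ 0) (contract A0)))
    rw [hee'] at k4 k3
    rw [hη'] at k3
    linarith

end Pool.Agent.T6.H19.PQ
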