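import Mathlib
import Pool.Agent.TH235.PP.Quant

/-!
# PEPS and spectral flow: definitions

Interface of the modules of the project MP_953b23_mp, slot 2 (PEPS approximation along gapped
paths of Hamiltonians).
-/

set_option autoImplicit false
set_option linter.unusedSectionVars false

open scoped BigOperators Matrix
open Finset Pool.Agent.TH235.PP

namespace Pool.Agent.T6.H19.PQ

/-! ### Time-dependent truncated products (modules T and N) -/

/-- the truncated expansion of the ordered product of all `1 + y t b`: every index `b` occurs at most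
`r` times -/
def KTt {R : Type*} [Ring R] {M N : ℕ} (y : Fin M → Fin N → R) (r : ℕ) : R :=
  ∑ F : Fin M → Fin N → Bool,
    if (∀ b, cnt F b ≤ r) then pr (fun t b => if F t b = true then y t b else 1) else 0

/-! ### Supports (module S) -/

/-- the operator `X` acts on the sites of `S` only -/
def Sup {d L : ℕ} (S : Set (Site L)) (X : TorOp d L) : Prop :=
  (∀ s t, (∃ v, v ∉ S ∧ s v ≠ t v) → X s t = 0) ∧
  ∀ s t s' t', (∀ v, v ∉ S → s v = t v) → (∀ v, v ∉ S → s' v = t' v) →
    (∀ v ∈ S, s v = s' v ∧ t v = t' v) → X s t = X s' t'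

/-- the sites of the `R × R` box at `u` -/
def box {L : ℕ} (R : ℕ) (u : Site L) : Set (Site L) := {v | ∃ x : Fin R × Fin R, sh u x = v}

/-! ### Evolution and filters (modules LR and F) -/

section evol

variable {𝔄 : Type*} [CStarAlgebra 𝔄]

/-- the Heisenberg evolution `exp(itH) X exp(-itH)` -/
noncomputable def tau (H : 𝔄) (t : ℝ) (X : 𝔄) : 𝔄 :=
  NormedSpace.exp (t • (Complex.I • H)) * X * NormedSpace.exp (-(t • (Complex.I • H)))

/-- the average of the evolution over `[-w, w]` -/
noncomputable def avg (H : 𝔄) (w : ℝ) (X : 𝔄) : 𝔄 :=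
  (2 * w)⁻¹ • ∫ t in (-w)..w, tau H t X

/-- the integral of the evolution against the odd function with the values `(1 - t / w) / 2` for
`0 < t < w` -/
noncomputable def prim (H : 𝔄) (w : ℝ) (X : 𝔄) : 𝔄 :=
  ∫ t in (0 : ℝ)..w, ((1 - t / w) / 2) • (tau H t X - tau H (-t) X)

/-- the generator: `i [H, gen H w m X] = (avg H w)^[m] X - X` -/
noncomputable def gen (H : 𝔄) (w : ℝ) (m : ℕ) (X : 𝔄) : 𝔄 :=
  ∑ j ∈ Finset.range m, prim H w ((avg H w)^[j] X)

end evol

end Pool.Agent.T6.H19.PQ
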