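import Mathlib
import Pool.Agent.T6.H19.PQ.Defs

/-!
# Filter integrals in a C*-algebra (module F)
-/

set_option autoImplicit false
set_option linter.unusedSectionVars false
set_option linter.unusedVariables false

open scoped BigOperators Matrix
open Finset Pool.Agent.TH235.PP

namespace Pool.Agent.T6.H19.PQ

section evol

variable {𝔄 : Type*} [CStarAlgebra 𝔄]

lemma tau_eq (H : 𝔄) (t : ℝ) (X : 𝔄) :
    tau H t X = NormedSpace.exp (t • (Complex.I • H)) * X *
      NormedSpace.exp ((-t) • (Complex.I • H)) := by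
  rw [tau, neg_smul]

lemma hasDerivAt_tau (H X : 𝔄) (t : ℝ) :
    HasDerivAt (fun t : ℝ => tau H t X) (Complex.I • (H * tau H t X - tau H t X * H)) t := by
  have h1 : HasDerivAt (fun t : ℝ => NormedSpace.exp (t • (Complex.I • H)))
      ((Complex.I • H) * NormedSpace.exp (t • (Complex.I • H))) t :=
    hasDerivAt_exp_smul_const' (Complex.I • H) t
  have h2 : HasDerivAt (fun t : ℝ => NormedSpace.exp ((-t) • (Complex.I • H)))
      (-(NormedSpace.exp ((-t) • (Complex.I • H)) * (Complex.I • H))) t := by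
    refine ((hasDerivAt_exp_smul_const (Complex.I • H) (-t)).scomp t
      (hasDerivAt_neg t)).congr_deriv ?_
    simp
  have h3 := (h1.mul_const X).mul h2
  have h4 : (fun t : ℝ => tau H t X) = fun t : ℝ => NormedSpace.exp (t • (Complex.I • H)) * X *
      NormedSpace.exp ((-t) • (Complex.I • H)) := by
    funext t; exact tau_eq H t X
  rw [h4]
  refine h3.congr_deriv ?_
  rw [tau_eq]
  simp only [mul_assoc, smul_mul_assoc, mul_smul_comm, smul_sub, mul_neg, neg_smul]
  abel

lemma cont_tau (H X : 𝔄) : Continuous (fun t : ℝ => tau H t X) :=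
  continuous_iff_continuousAt.2 fun t => (hasDerivAt_tau H X t).continuousAt

lemma hasDerivAt_tau_neg (H X : 𝔄) (t : ℝ) :
    HasDerivAt (fun t : ℝ => tau H (-t) X)
      (-(Complex.I • (H * tau H (-t) X - tau H (-t) X * H))) t := by
  refine ((hasDerivAt_tau H X (-t)).scomp t (hasDerivAt_neg t)).congr_deriv ?_
  simp

lemma cont_tau_neg (H X : 𝔄) : Continuous (fun t : ℝ => tau H (-t) X) :=
  continuous_iff_continuousAt.2 fun t => (hasDerivAt_tau_neg H X t).continuousAt

lemma tau_zero (H X : 𝔄) : tau H 0 X = X := by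
  simp [tau]

lemma tau_add_time (H X : 𝔄) (s t : ℝ) : tau H (s + t) X = tau H s (tau H t X) := by
  let _ : NormedAlgebra ℚ 𝔄 := NormedAlgebra.restrictScalars ℚ ℂ 𝔄
  have h1 : NormedSpace.exp ((s + t) • (Complex.I • H)) =
      NormedSpace.exp (s • (Complex.I • H)) * NormedSpace.exp (t • (Complex.I • H)) := by
    rw [add_smul, NormedSpace.exp_add_of_commute]
    exact ((Commute.refl (Complex.I • H)).smul_left s).smul_right t
  have h2 : NormedSpace.exp ((-(s + t)) • (Complex.I • H)) =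
      NormedSpace.exp ((-t) • (Complex.I • H)) * NormedSpace.exp ((-s) • (Complex.I • H)) := by
    rw [show -(s + t) = -t + -s by ring, add_smul, NormedSpace.exp_add_of_commute]
    exact ((Commute.refl (Complex.I • H)).smul_left _).smul_right _
  rw [tau_eq, tau_eq, tau_eq, h1, h2]
  simp only [mul_assoc]

lemma tau_add (H X Y : 𝔄) (t : ℝ) : tau H t (X + Y) = tau H t X + tau H t Y := by
  simp only [tau, mul_add, add_mul]

lemma tau_smul (H X : 𝔄) (t : ℝ) (c : ℝ) : tau H t (c • X) = c • tau H t X := by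
  simp only [tau, mul_smul_comm, smul_mul_assoc]

lemma tau_sum {ι : Type*} (s : Finset ι) (H : 𝔄) (X : ι → 𝔄) (t : ℝ) :
    tau H t (∑ b ∈ s, X b) = ∑ b ∈ s, tau H t (X b) := by
  simp only [tau, Finset.mul_sum, Finset.sum_mul]

/-- `tau` as a continuous real-linear map -/
noncomputable def tauL (H : 𝔄) (t : ℝ) : 𝔄 →L[ℝ] 𝔄 :=
  LinearMap.mkContinuous
    { toFun := fun X => tau H t X
      map_add' := fun X Y => tau_add H X Y t
      map_smul' := fun c X => tau_smul H X t c }
    (‖NormedSpace.exp (t • (Complex.I • H))‖ * ‖NormedSpace.exp (-(t • (Complex.I • H)))‖)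
    (fun X => by
      change ‖tau H t X‖ ≤ _
      rw [tau]
      calc _ ≤ ‖NormedSpace.exp (t • (Complex.I • H)) * X‖ *
            ‖NormedSpace.exp (-(t • (Complex.I • H)))‖ := norm_mul_le _ _
        _ ≤ (‖NormedSpace.exp (t • (Complex.I • H))‖ * ‖X‖) *
            ‖NormedSpace.exp (-(t • (Complex.I • H)))‖ := by
            gcongr; exact norm_mul_le _ _
        _ = _ := by ring)

lemma tauL_apply (H : 𝔄) (t : ℝ) (X : 𝔄) : tauL H t X = tau H t X := rfl

/-- the commutator with `i H` as a continuous real-linear map -/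
noncomputable def comL (H : 𝔄) : 𝔄 →L[ℝ] 𝔄 :=
  LinearMap.mkContinuous
    { toFun := fun X => Complex.I • (H * X - X * H)
      map_add' := fun X Y => by simp only [mul_add, add_mul, smul_sub, smul_add]; abel
      map_smul' := fun c X => by
        simp only [mul_smul_comm, smul_mul_assoc, RingHom.id_apply, ← smul_sub]
        rw [smul_comm] }
    (2 * ‖H‖)
    (fun X => by
      change ‖Complex.I • (H * X - X * H)‖ ≤ _
      rw [norm_smul, Complex.norm_I, one_mul]
      calc _ ≤ ‖H * X‖ + ‖X * H‖ := norm_sub_le _ _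
        _ ≤ ‖H‖ * ‖X‖ + ‖X‖ * ‖H‖ := add_le_add (norm_mul_le _ _) (norm_mul_le _ _)
        _ = _ := by ring)

lemma comL_apply (H X : 𝔄) : comL H X = Complex.I • (H * X - X * H) := rfl

lemma cont_prim_fn (H X : 𝔄) (w : ℝ) :
    Continuous (fun t : ℝ => ((1 - t / w) / 2) • (tau H t X - tau H (-t) X)) := by
  have h1 : Continuous (fun t : ℝ => (1 - t / w) / 2) := by fun_prop
  exact h1.smul ((cont_tau H X).sub (cont_tau_neg H X))

lemma comL_prim (H X : 𝔄) (w : ℝ) (hw : 0 < w) : comL H (prim H w X) = avg H w X - X := by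
  have hc := cont_tau H X
  have hcn := cont_tau_neg H X
  have h1 : comL H (prim H w X) =
      ∫ t in (0 : ℝ)..w, comL H (((1 - t / w) / 2) • (tau H t X - tau H (-t) X)) := by
    rw [prim]
    exact ((comL H).intervalIntegral_comp_comm
      ((cont_prim_fn H X w).intervalIntegrable _ _)).symm
  have hder : ∀ t : ℝ, HasDerivAt (fun t : ℝ => ((1 - t / w) / 2) • (tau H t X + tau H (-t) X))
      (comL H (((1 - t / w) / 2) • (tau H t X - tau H (-t) X)) -
        (2 * w)⁻¹ • (tau H t X + tau H (-t) X)) t := by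
    intro t
    have e1 : HasDerivAt (fun t : ℝ => (1 - t / w) / 2) (-(2 * w)⁻¹) t := by
      have := (((hasDerivAt_id t).div_const w).const_sub 1).div_const 2
      refine this.congr_deriv ?_
      field_simp
    have e2 := (hasDerivAt_tau H X t).add (hasDerivAt_tau_neg H X t)
    refine (e1.smul e2).congr_deriv ?_
    rw [map_smul, map_sub, comL_apply, comL_apply, neg_smul]
    change _ + -((2 * w)⁻¹ • (tau H t X + tau H (-t) X)) = _
    rw [sub_eq_add_neg (Complex.I • (H * tau H t X - tau H t X * H)), ← sub_eq_add_neg (_ • _)]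
  have hcont : Continuous (fun t : ℝ =>
      comL H (((1 - t / w) / 2) • (tau H t X - tau H (-t) X)) -
        (2 * w)⁻¹ • (tau H t X + tau H (-t) X)) := by
    refine ((comL H).continuous.comp (cont_prim_fn H X w)).sub ?_
    exact (hc.add hcn).const_smul _
  have h2 := intervalIntegral.integral_eq_sub_of_hasDerivAt (a := 0) (b := w)
    (fun t _ => hder t) (hcont.intervalIntegrable _ _)
  have hi1 : IntervalIntegrable (fun t : ℝ =>
      comL H (((1 - t / w) / 2) • (tau H t X - tau H (-t) X))) MeasureTheory.volume 0 w :=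
    ((comL H).continuous.comp (cont_prim_fn H X w)).intervalIntegrable _ _
  have hi2 : IntervalIntegrable (fun t : ℝ =>
      (2 * w)⁻¹ • (tau H t X + tau H (-t) X)) MeasureTheory.volume 0 w :=
    ((hc.add hcn).const_smul _).intervalIntegrable _ _
  rw [intervalIntegral.integral_sub hi1 hi2, intervalIntegral.integral_smul,
    intervalIntegral.integral_add (hc.intervalIntegrable _ _) (hcn.intervalIntegrable _ _)] at h2
  have h3 : ∫ t in (0 : ℝ)..w, tau H (-t) X = ∫ t in (-w)..0, tau H t X := by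
    have := intervalIntegral.integral_comp_neg (a := 0) (b := w) (fun t => tau H t X)
    simpa using this
  have h4 : (∫ t in (-w)..0, tau H t X) + ∫ t in (0 : ℝ)..w, tau H t X =
      ∫ t in (-w)..w, tau H t X :=
    intervalIntegral.integral_add_adjacent_intervals (hc.intervalIntegrable _ _)
      (hc.intervalIntegrable _ _)
  rw [h3, add_comm (∫ t in (0 : ℝ)..w, tau H t X), h4, ← h1] at h2
  have h5 : ((1 - w / w) / 2) • (tau H w X + tau H (-w) X) = 0 := by
    rw [div_self hw.ne']; simp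
  have h6 : ((1 - 0 / w) / 2) • (tau H 0 X + tau H (-0) X) = X := by
    rw [neg_zero, tau_zero, ← two_smul ℝ X, smul_smul]; norm_num
  rw [h5, h6] at h2
  rw [avg]
  have h7 : comL H (prim H w X) = (2 * w)⁻¹ • (∫ t in (-w)..w, tau H t X) + (0 - X) := by
    rw [← h2]; abel
  rw [h7]; abel

theorem gen_comm (H X : 𝔄) (w : ℝ) (hw : 0 < w) (m : ℕ) :
    Complex.I • (H * gen H w m X - gen H w m X * H) = (avg H w)^[m] X - X := by
  rw [← comL_apply, gen, map_sum]
  have h : ∀ j ∈ Finset.range m, comL H (prim H w ((avg H w)^[j] X)) =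
      (avg H w)^[j + 1] X - (avg H w)^[j] X := by
    intro j _
    rw [comL_prim H _ w hw, Function.iterate_succ_apply']
  rw [Finset.sum_congr rfl h, Finset.sum_range_sub (fun j => (avg H w)^[j] X)]
  rfl

lemma star_exp (H : 𝔄) (hH : star H = H) (t : ℝ) :
    star (NormedSpace.exp (t • (Complex.I • H))) = NormedSpace.exp (-(t • (Complex.I • H))) := by
  rw [NormedSpace.star_exp, star_smul, star_smul, hH]
  congr 1
  simp

lemma exp_mul_neg (H : 𝔄) (t : ℝ) :
    NormedSpace.exp (t • (Complex.I • H)) * NormedSpace.exp (-(t • (Complex.I • H))) = 1 := by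
  let _ : NormedAlgebra ℚ 𝔄 := NormedAlgebra.restrictScalars ℚ ℂ 𝔄
  rw [← NormedSpace.exp_add_of_commute ((Commute.refl _).neg_right), add_neg_cancel,
    NormedSpace.exp_zero]

lemma exp_neg_mul (H : 𝔄) (t : ℝ) :
    NormedSpace.exp (-(t • (Complex.I • H))) * NormedSpace.exp (t • (Complex.I • H)) = 1 := by
  let _ : NormedAlgebra ℚ 𝔄 := NormedAlgebra.restrictScalars ℚ ℂ 𝔄
  rw [← NormedSpace.exp_add_of_commute ((Commute.refl _).neg_left), neg_add_cancel,
    NormedSpace.exp_zero]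

theorem norm_tau (H : 𝔄) (hH : star H = H) (t : ℝ) (X : 𝔄) : ‖tau H t X‖ = ‖X‖ := by
  have hu : NormedSpace.exp (t • (Complex.I • H)) ∈ unitary 𝔄 := by
    rw [Unitary.mem_iff, star_exp H hH]
    exact ⟨exp_neg_mul H t, exp_mul_neg H t⟩
  have hv : NormedSpace.exp (-(t • (Complex.I • H))) ∈ unitary 𝔄 := by
    rw [← star_exp H hH]
    exact Unitary.star_mem hu
  rw [tau]
  rw [CStarRing.norm_mul_mem_unitary _ hv, CStarRing.norm_mem_unitary_mul _ hu]

lemma norm_avg_le (H : 𝔄) (hH : star H = H) (w : ℝ) (hw : 0 < w) (X : 𝔄) :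
    ‖avg H w X‖ ≤ ‖X‖ := by
  rw [avg, norm_smul]
  have h1 : ‖∫ t in (-w)..w, tau H t X‖ ≤ ‖X‖ * |w - (-w)| :=
    intervalIntegral.norm_integral_le_of_norm_le_const fun t _ => (norm_tau H hH t X).le
  rw [Real.norm_eq_abs, abs_of_pos (by positivity)]
  have h2 : |w - (-w)| = 2 * w := by rw [abs_of_pos (by linarith)]; ring
  rw [h2] at h1
  calc (2 * w)⁻¹ * ‖∫ t in (-w)..w, tau H t X‖ ≤ (2 * w)⁻¹ * (‖X‖ * (2 * w)) := by gcongr
    _ = ‖X‖ := by field_simp

lemma norm_avg_iter_le (H : 𝔄) (hH : star H = H) (w : ℝ) (hw : 0 < w) (X : 𝔄) (j : ℕ) :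
    ‖(avg H w)^[j] X‖ ≤ ‖X‖ := by
  induction j with
  | zero => simp
  | succ j ih =>
    rw [Function.iterate_succ_apply']
    exact (norm_avg_le H hH w hw _).trans ih

lemma abs_weight {w t : ℝ} (hw : 0 < w) (h0 : 0 ≤ t) (h1 : t ≤ w) : |(1 - t / w) / 2| ≤ 1 / 2 := by
  have h2 : t / w ≤ 1 := (div_le_one hw).2 h1
  have h3 : 0 ≤ t / w := by positivity
  rw [abs_of_nonneg (by linarith)]
  linarith

lemma norm_prim_le (H : 𝔄) (hH : star H = H) (w : ℝ) (hw : 0 < w) (X : 𝔄) :
    ‖prim H w X‖ ≤ w * ‖X‖ := by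
  rw [prim]
  have h1 : ‖∫ t in (0 : ℝ)..w, ((1 - t / w) / 2) • (tau H t X - tau H (-t) X)‖ ≤
      ‖X‖ * |w - 0| := by
    refine intervalIntegral.norm_integral_le_of_norm_le_const fun t ht => ?_
    rw [Set.uIoc_of_le hw.le] at ht
    rw [norm_smul, Real.norm_eq_abs]
    calc |(1 - t / w) / 2| * ‖tau H t X - tau H (-t) X‖
        ≤ (1 / 2) * (‖tau H t X‖ + ‖tau H (-t) X‖) :=
          mul_le_mul (abs_weight hw ht.1.le ht.2) (norm_sub_le _ _) (norm_nonneg _) (by norm_num)
      _ = ‖X‖ := by rw [norm_tau H hH, norm_tau H hH]; ring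
  rw [sub_zero, abs_of_pos hw] at h1
  linarith

theorem norm_gen_le (H X : 𝔄) (hH : star H = H) (w : ℝ) (hw : 0 < w) (m : ℕ) :
    ‖gen H w m X‖ ≤ m * w * ‖X‖ := by
  rw [gen]
  calc ‖∑ j ∈ Finset.range m, prim H w ((avg H w)^[j] X)‖
      ≤ ∑ j ∈ Finset.range m, ‖prim H w ((avg H w)^[j] X)‖ := norm_sum_le _ _
    _ ≤ ∑ _j ∈ Finset.range m, w * ‖X‖ := by
        refine Finset.sum_le_sum fun j _ => (norm_prim_le H hH w hw _).trans ?_
        exact mul_le_mul_of_nonneg_left (norm_avg_iter_le H hH w hw X j) hw.le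
    _ = m * w * ‖X‖ := by rw [Finset.sum_const, Finset.card_range, nsmul_eq_mul]; ring

lemma star_tau (H : 𝔄) (hH : star H = H) (t : ℝ) (X : 𝔄) : star (tau H t X) = tau H t (star X) := by
  have h1 := star_exp H hH t
  have h2 : star (NormedSpace.exp (-(t • (Complex.I • H)))) =
      NormedSpace.exp (t • (Complex.I • H)) := by rw [← h1, star_star]
  rw [tau, tau, star_mul, star_mul, h1, h2, mul_assoc]

lemma star_integral (f : ℝ → 𝔄) (hf : Continuous f) (a b : ℝ) :
    star (∫ t in a..b, f t) = ∫ t in a..b, star (f t) := by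
  have := ((starL' ℝ : 𝔄 ≃L[ℝ] 𝔄) : 𝔄 →L[ℝ] 𝔄).intervalIntegral_comp_comm
    (hf.intervalIntegrable (μ := MeasureTheory.volume) a b)
  simpa using this.symm

lemma star_avg (H : 𝔄) (hH : star H = H) (w : ℝ) (X : 𝔄) (hX : star X = X) :
    star (avg H w X) = avg H w X := by
  rw [avg, star_smul, star_integral _ (cont_tau H X)]
  simp only [star_tau H hH, hX, star_trivial]

lemma star_avg_iter (H : 𝔄) (hH : star H = H) (w : ℝ) (X : 𝔄) (hX : star X = X) (j : ℕ) :
    star ((avg H w)^[j] X) = (avg H w)^[j] X := by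
  induction j with
  | zero => simpa using hX
  | succ j ih =>
    rw [Function.iterate_succ_apply']
    exact star_avg H hH w _ ih

lemma star_prim (H : 𝔄) (hH : star H = H) (w : ℝ) (X : 𝔄) (hX : star X = X) :
    star (prim H w X) = prim H w X := by
  rw [prim, star_integral _ (cont_prim_fn H X w)]
  simp only [star_smul, star_sub, star_tau H hH, hX, star_trivial]

theorem star_gen (H X : 𝔄) (hH : star H = H) (hX : star X = X) (w : ℝ) (hw : 0 < w) (m : ℕ) :
    star (gen H w m X) = gen H w m X := by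
  rw [gen, star_sum]
  exact Finset.sum_congr rfl fun j _ => star_prim H hH w _ (star_avg_iter H hH w X hX j)

lemma tau_avg (H : 𝔄) (s w : ℝ) (Y : 𝔄) :
    tau H s (avg H w Y) = (2 * w)⁻¹ • ∫ t in (-w)..w, tau H (s + t) Y := by
  rw [avg, tau_smul]
  congr 1
  have := (tauL H s).intervalIntegral_comp_comm
    ((cont_tau H Y).intervalIntegrable (μ := MeasureTheory.volume) (-w) w)
  rw [← tauL_apply, ← this]
  refine intervalIntegral.integral_congr fun t _ => ?_
  exact (tau_add_time H Y s t).symm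

lemma tau_avg_iter_diff (H H0 X : 𝔄) (w : ℝ) (hw : 0 < w) (m : ℕ)
    (ε : ℝ) (hε : ∀ t : ℝ, |t| ≤ m * w → ‖tau H t X - tau H0 t X‖ ≤ ε) (j : ℕ) :
    ∀ s : ℝ, |s| + j * w ≤ m * w →
      ‖tau H s ((avg H w)^[j] X) - tau H0 s ((avg H0 w)^[j] X)‖ ≤ ε := by
  induction j with
  | zero =>
    intro s hs
    simp only [Nat.cast_zero, zero_mul, add_zero] at hs
    simpa using hε s hs
  | succ j ih =>
    intro s hs
    rw [Function.iterate_succ_apply', Function.iterate_succ_apply', tau_avg, tau_avg, ← smul_sub,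
      ← intervalIntegral.integral_sub, norm_smul]
    · have h1 : ‖∫ t in (-w)..w, (tau H (s + t) ((avg H w)^[j] X) -
          tau H0 (s + t) ((avg H0 w)^[j] X))‖ ≤ ε * |w - (-w)| := by
        refine intervalIntegral.norm_integral_le_of_norm_le_const fun t ht => ?_
        rw [Set.uIoc_of_le (by linarith)] at ht
        refine ih (s + t) ?_
        have h2 : |s + t| ≤ |s| + |t| := abs_add_le _ _
        have h3 : |t| ≤ w := abs_le.2 ⟨ht.1.le, ht.2⟩
        push_cast at hs
        linarith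
      have h2 : |w - (-w)| = 2 * w := by rw [abs_of_pos (by linarith)]; ring
      rw [h2] at h1
      rw [Real.norm_eq_abs, abs_of_pos (by positivity)]
      calc (2 * w)⁻¹ * ‖_‖ ≤ (2 * w)⁻¹ * (ε * (2 * w)) := by gcongr
        _ = ε := by field_simp
    · exact ((cont_tau H _).comp (continuous_const.add continuous_id)).intervalIntegrable _ _
    · exact ((cont_tau H0 _).comp (continuous_const.add continuous_id)).intervalIntegrable _ _

theorem gen_diff (H H0 X : 𝔄) (hH : star H = H) (hH0 : star H0 = H0) (w : ℝ) (hw : 0 < w) (m : ℕ)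
    (ε : ℝ) (hε : ∀ t : ℝ, |t| ≤ m * w → ‖tau H t X - tau H0 t X‖ ≤ ε) :
    ‖gen H w m X - gen H0 w m X‖ ≤ m * w * ε := by
  have hε0 : 0 ≤ ε := by
    have := hε 0 (by rw [abs_zero]; positivity)
    exact (norm_nonneg _).trans this
  rw [gen, gen, ← Finset.sum_sub_distrib]
  have hterm : ∀ j ∈ Finset.range m,
      ‖prim H w ((avg H w)^[j] X) - prim H0 w ((avg H0 w)^[j] X)‖ ≤ w * ε := by
    intro j hj
    have hj' : (j : ℝ) + 1 ≤ m := by exact_mod_cast Finset.mem_range.1 hj
    rw [prim, prim, ← intervalIntegral.integral_sub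
      ((cont_prim_fn H _ w).intervalIntegrable _ _) ((cont_prim_fn H0 _ w).intervalIntegrable _ _)]
    have h1 : ‖∫ t in (0 : ℝ)..w, (((1 - t / w) / 2) • (tau H t ((avg H w)^[j] X) -
          tau H (-t) ((avg H w)^[j] X)) -
        ((1 - t / w) / 2) • (tau H0 t ((avg H0 w)^[j] X) -
          tau H0 (-t) ((avg H0 w)^[j] X)))‖ ≤ ε * |w - 0| := by
      refine intervalIntegral.norm_integral_le_of_norm_le_const fun t ht => ?_
      rw [Set.uIoc_of_le hw.le] at ht
      have hb : |t| + j * w ≤ m * w := by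
        have h3 : |t| ≤ w := abs_le.2 ⟨by linarith [ht.1], ht.2⟩
        nlinarith
      have e1 := tau_avg_iter_diff H H0 X w hw m ε hε j t hb
      have e2 := tau_avg_iter_diff H H0 X w hw m ε hε j (-t) (by rw [abs_neg]; exact hb)
      rw [← smul_sub, norm_smul, Real.norm_eq_abs]
      have e3 : ‖(tau H t ((avg H w)^[j] X) - tau H (-t) ((avg H w)^[j] X)) -
          (tau H0 t ((avg H0 w)^[j] X) - tau H0 (-t) ((avg H0 w)^[j] X))‖ ≤ ε + ε := by
        have e4 : (tau H t ((avg H w)^[j] X) - tau H (-t) ((avg H w)^[j] X)) -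
          (tau H0 t ((avg H0 w)^[j] X) - tau H0 (-t) ((avg H0 w)^[j] X)) =
          (tau H t ((avg H w)^[j] X) - tau H0 t ((avg H0 w)^[j] X)) -
          (tau H (-t) ((avg H w)^[j] X) - tau H0 (-t) ((avg H0 w)^[j] X)) := by abel
        rw [e4]
        exact (norm_sub_le _ _).trans (add_le_add e1 e2)
      calc _ ≤ (1 / 2) * (ε + ε) :=
            mul_le_mul (abs_weight hw ht.1.le ht.2) e3 (norm_nonneg _) (by norm_num)
        _ = ε := by ring
    rw [sub_zero, abs_of_pos hw] at h1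
    linarith
  calc ‖∑ j ∈ Finset.range m, (prim H w ((avg H w)^[j] X) - prim H0 w ((avg H0 w)^[j] X))‖
      ≤ ∑ j ∈ Finset.range m, ‖prim H w ((avg H w)^[j] X) - prim H0 w ((avg H0 w)^[j] X)‖ :=
        norm_sum_le _ _
    _ ≤ ∑ _j ∈ Finset.range m, w * ε := Finset.sum_le_sum hterm
    _ = m * w * ε := by rw [Finset.sum_const, Finset.card_range, nsmul_eq_mul]; ring

lemma exp_mem' (S : Subalgebra ℂ 𝔄) (hS : IsClosed (S : Set 𝔄)) (Y : 𝔄) (hY : Y ∈ S) :
    NormedSpace.exp Y ∈ S := by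
  have h := (NormedSpace.exp_series_hasSum_exp' (𝕂 := ℂ) Y)
  refine hS.mem_of_tendsto h (Filter.Eventually.of_forall fun s => ?_)
  exact S.sum_mem fun n _ => S.smul_mem (S.pow_mem hY n) _

lemma smul_real_mem (S : Subalgebra ℂ 𝔄) (c : ℝ) (Y : 𝔄) (hY : Y ∈ S) : c • Y ∈ S := by
  have : c • Y = (c : ℂ) • Y := by
    rw [Complex.coe_smul]
  rw [this]; exact S.smul_mem hY _

lemma tau_mem (S : Subalgebra ℂ 𝔄) (hS : IsClosed (S : Set 𝔄)) (H X : 𝔄) (hH : H ∈ S)
    (hX : X ∈ S) (t : ℝ) : tau H t X ∈ S := by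
  have h1 : t • (Complex.I • H) ∈ S := smul_real_mem S t _ (S.smul_mem hH _)
  exact S.mul_mem (S.mul_mem (exp_mem' S hS _ h1) hX) (exp_mem' S hS _ (S.neg_mem h1))

lemma integral_mem' (S : Subalgebra ℂ 𝔄) (hS : IsClosed (S : Set 𝔄)) (f : ℝ → 𝔄)
    (hf : Continuous f) (hm : ∀ t, f t ∈ S) (a b : ℝ) : (∫ t in a..b, f t) ∈ S := by
  let T : Submodule ℝ 𝔄 := (Subalgebra.toSubmodule S).restrictScalars ℝ
  have hT : IsClosed (T : Set 𝔄) := hS
  have : CompleteSpace T := hT.completeSpace_coe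
  let g : ℝ → T := fun t => ⟨f t, hm t⟩
  have hg : Continuous g := hf.subtype_mk _
  have h1 := T.subtypeL.intervalIntegral_comp_comm
    (hg.intervalIntegrable (μ := MeasureTheory.volume) a b)
  have h2 : (∫ t in a..b, f t) = T.subtypeL (∫ t in a..b, g t) := h1
  rw [h2]
  exact (∫ t in a..b, g t).2

lemma avg_mem (S : Subalgebra ℂ 𝔄) (hS : IsClosed (S : Set 𝔄)) (H X : 𝔄) (hH : H ∈ S)
    (hX : X ∈ S) (w : ℝ) : avg H w X ∈ S :=
  smul_real_mem S _ _ (integral_mem' S hS _ (cont_tau H X) (fun t => tau_mem S hS H X hH hX t) _ _)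

lemma avg_iter_mem (S : Subalgebra ℂ 𝔄) (hS : IsClosed (S : Set 𝔄)) (H X : 𝔄) (hH : H ∈ S)
    (hX : X ∈ S) (w : ℝ) (j : ℕ) : (avg H w)^[j] X ∈ S := by
  induction j with
  | zero => simpa using hX
  | succ j ih =>
    rw [Function.iterate_succ_apply']
    exact avg_mem S hS H _ hH ih w

lemma prim_mem (S : Subalgebra ℂ 𝔄) (hS : IsClosed (S : Set 𝔄)) (H X : 𝔄) (hH : H ∈ S)
    (hX : X ∈ S) (w : ℝ) : prim H w X ∈ S :=
  integral_mem' S hS _ (cont_prim_fn H X w) (fun t => smul_real_mem S _ _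
    (S.sub_mem (tau_mem S hS H X hH hX t) (tau_mem S hS H X hH hX (-t)))) _ _

theorem gen_mem (S : Subalgebra ℂ 𝔄) (hS : IsClosed (S : Set 𝔄)) (H X : 𝔄) (hH : H ∈ S)
    (hX : X ∈ S) (w : ℝ) (m : ℕ) : gen H w m X ∈ S :=
  S.sum_mem fun j _ => prim_mem S hS H _ hH (avg_iter_mem S hS H X hH hX w j) w

lemma avg_sum {ι : Type*} (s : Finset ι) (H : 𝔄) (X : ι → 𝔄) (w : ℝ) :
    avg H w (∑ b ∈ s, X b) = ∑ b ∈ s, avg H w (X b) := by
  simp only [avg, tau_sum]
  rw [intervalIntegral.integral_finsetSum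
    (fun b _ => (cont_tau H (X b)).intervalIntegrable _ _), Finset.smul_sum]

lemma avg_iter_sum {ι : Type*} (s : Finset ι) (H : 𝔄) (X : ι → 𝔄) (w : ℝ) (j : ℕ) :
    (avg H w)^[j] (∑ b ∈ s, X b) = ∑ b ∈ s, (avg H w)^[j] (X b) := by
  induction j with
  | zero => simp
  | succ j ih =>
    simp only [Function.iterate_succ_apply']
    rw [ih, avg_sum]

lemma prim_sum {ι : Type*} (s : Finset ι) (H : 𝔄) (X : ι → 𝔄) (w : ℝ) :
    prim H w (∑ b ∈ s, X b) = ∑ b ∈ s, prim H w (X b) := by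
  simp only [prim, tau_sum, ← Finset.sum_sub_distrib, Finset.smul_sum]
  rw [intervalIntegral.integral_finsetSum
    (fun b _ => (cont_prim_fn H (X b) w).intervalIntegrable _ _)]

theorem gen_sum {ι : Type*} (s : Finset ι) (H : 𝔄) (X : ι → 𝔄) (w : ℝ) (m : ℕ) :
    gen H w m (∑ b ∈ s, X b) = ∑ b ∈ s, gen H w m (X b) := by
  simp only [gen, avg_iter_sum, prim_sum]
  exact Finset.sum_comm

end evol

end Pool.Agent.T6.H19.PQ
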