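import Mathlib
import Pool.Agent.T6.H19.PQ.Defs

/-!
# Averages of the evolution on a gapped ground vector (module G)
-/

set_option autoImplicit false
set_option linter.unusedSectionVars false

open scoped BigOperators Matrix InnerProductSpace
open Finset Pool.Agent.TH235.PP

namespace Pool.Agent.T6.H19.PQ

section G

variable {n : Type*} [Fintype n] [DecidableEq n]

lemma g_ip_diag (b : OrthonormalBasis n ℂ (EuclideanSpace ℂ n)) (B : Matrix n n ℂ) (μ : n → ℂ)
    (hB : ∀ j, B *ᵥ (b j).ofLp = μ j • (b j).ofLp) (x : n → ℂ) (j : n) :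
    ip (b j).ofLp (B *ᵥ x) = μ j * ip (b j).ofLp x := by
  set T := Matrix.toEuclideanLin B with hT
  set X : EuclideanSpace ℂ n := WithLp.toLp 2 x with hX
  have hTb : ∀ j, T (b j) = μ j • b j := by
    intro j
    have : T (b j) = WithLp.toLp 2 (B *ᵥ (b j).ofLp) := rfl
    rw [this, hB j, WithLp.toLp_smul]
  have hsum : T X = ∑ j, (⟪b j, X⟫_ℂ * μ j) • b j := by
    conv_lhs => rw [← b.sum_repr' X]
    rw [map_sum]
    refine Finset.sum_congr rfl fun j _ => ?_
    rw [map_smul, hTb, smul_smul]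
  have hin : ⟪b j, T X⟫_ℂ = ⟪b j, X⟫_ℂ * μ j := by
    rw [hsum]
    exact b.orthonormal.inner_right_fintype _ j
  rw [ip_eq, ip_eq]
  have e1 : (WithLp.toLp 2 (B *ᵥ x) : EuclideanSpace ℂ n) = T X := rfl
  rw [e1]
  have e2 : (WithLp.toLp 2 (b j).ofLp : EuclideanSpace ℂ n) = b j := rfl
  rw [e2, hin, mul_comm]

open scoped Matrix.Norms.L2Operator in
lemma g_exp_mulVec (A : Matrix n n ℂ) (v : n → ℂ) (c : ℂ) (h : A *ᵥ v = c • v) :
    (NormedSpace.exp A) *ᵥ v = Complex.exp c • v := by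
  have h1 : HasSum (fun k : ℕ => ((k.factorial : ℂ)⁻¹) • A ^ k) (NormedSpace.exp A) :=
    NormedSpace.exp_series_hasSum_exp' A
  let L : Matrix n n ℂ →ₗ[ℂ] (n → ℂ) :=
    { toFun := fun Y => Y *ᵥ v
      map_add' := fun Y Z => Matrix.add_mulVec Y Z v
      map_smul' := fun c Y => Matrix.smul_mulVec c Y v }
  have hL : Continuous L := LinearMap.continuous_of_finiteDimensional L
  have h2 := h1.map L hL
  have h3 : HasSum (fun k : ℕ => (((k.factorial : ℂ)⁻¹) • c ^ k) • v) (Complex.exp c • v) := by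
    have h4 : HasSum (fun k : ℕ => ((k.factorial : ℂ)⁻¹) • c ^ k) (Complex.exp c) := by
      rw [Complex.exp_eq_exp_ℂ]
      exact NormedSpace.exp_series_hasSum_exp' c
    exact h4.smul_const v
  have h5 : (L ∘ fun k : ℕ => ((k.factorial : ℂ)⁻¹) • A ^ k) =
      fun k : ℕ => (((k.factorial : ℂ)⁻¹) • c ^ k) • v := by
    funext k
    show (((k.factorial : ℂ)⁻¹) • A ^ k) *ᵥ v = _
    rw [Matrix.smul_mulVec, pow_eig A v c h k, smul_smul, smul_eq_mul]
  rw [h5] at h2
  exact h2.unique h3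

open scoped Matrix.Norms.L2Operator in
lemma g_U (H : Matrix n n ℂ) (v : n → ℂ) (l : ℝ) (h : H *ᵥ v = (l : ℂ) • v) (t : ℝ) :
    (NormedSpace.exp (t • (Complex.I • H))) *ᵥ v = Complex.exp (t * (Complex.I * l)) • v := by
  apply g_exp_mulVec
  rw [Matrix.smul_mulVec, Matrix.smul_mulVec, h, smul_smul, ← Complex.coe_smul, smul_smul]

open scoped Matrix.Norms.L2Operator in
lemma g_cont (H X : Matrix n n ℂ) : Continuous fun t : ℝ => tau H t X := by
  unfold tau
  let _ : NormedAlgebra ℚ (Matrix n n ℂ) := NormedAlgebra.restrictScalars ℚ ℂ (Matrix n n ℂ)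
  have h1 : Continuous fun t : ℝ => t • (Complex.I • H) := by fun_prop
  have h2 : Continuous fun t : ℝ => NormedSpace.exp (t • (Complex.I • H)) :=
    NormedSpace.exp_continuous.comp h1
  have h3 : Continuous fun t : ℝ => NormedSpace.exp (-(t • (Complex.I • H))) :=
    NormedSpace.exp_continuous.comp h1.neg
  exact (h2.mul continuous_const).mul h3

/-- the Fourier multiplier of the average -/
noncomputable def gs (w om : ℝ) : ℂ :=
  ((2 * w)⁻¹ : ℝ) • ∫ t in (-w)..w, Complex.exp (t * (Complex.I * om))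

lemma gs_zero (w : ℝ) (hw : 0 < w) : gs w 0 = 1 := by
  unfold gs
  simp only [Complex.ofReal_zero, mul_zero, Complex.exp_zero, intervalIntegral.integral_const,
    sub_neg_eq_add]
  rw [smul_smul, ← two_mul, inv_mul_cancel₀ (by positivity), one_smul]

lemma gs_bound (w om Δ : ℝ) (hw : 0 < w) (hΔ : 0 < Δ) (hom : Δ ≤ om) :
    ‖gs w om‖ ≤ 1 / (w * Δ) := by
  have hom0 : 0 < om := lt_of_lt_of_le hΔ hom
  have hc : (Complex.I * om : ℂ) ≠ 0 := by
    simp [hom0.ne']
  have h1 : ∫ t in (-w)..w, Complex.exp (t * (Complex.I * om)) =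
      (Complex.exp (Complex.I * om * w) - Complex.exp (Complex.I * om * (-w : ℝ))) /
        (Complex.I * om) := by
    rw [← integral_exp_mul_complex hc]
    refine intervalIntegral.integral_congr fun t _ => ?_
    rw [mul_comm]
  have hn : ∀ x : ℝ, ‖Complex.exp (Complex.I * om * x)‖ = 1 := by
    intro x
    have : (Complex.I * om * x : ℂ) = ((om * x : ℝ) : ℂ) * Complex.I := by
      push_cast; ring
    rw [this, Complex.norm_exp_ofReal_mul_I]
  unfold gs
  rw [h1, norm_smul, norm_div, Real.norm_eq_abs, abs_of_pos (by positivity)]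
  have h2 : ‖Complex.exp (Complex.I * om * w) - Complex.exp (Complex.I * om * (-w : ℝ))‖ ≤ 2 := by
    refine (norm_sub_le _ _).trans ?_
    rw [hn, hn]
    norm_num
  have h3 : ‖(Complex.I * om : ℂ)‖ = om := by
    rw [norm_mul, Complex.norm_I, one_mul, Complex.norm_real, Real.norm_eq_abs,
      abs_of_pos hom0]
  rw [h3]
  calc (2 * w)⁻¹ * (‖Complex.exp (Complex.I * om * w) - Complex.exp (Complex.I * om * (-w : ℝ))‖ / om)
      ≤ (2 * w)⁻¹ * (2 / Δ) := by
        refine mul_le_mul_of_nonneg_left ?_ (by positivity)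
        exact div_le_div₀ (by norm_num) h2 hΔ hom
    _ = 1 / (w * Δ) := by
        field_simp

open scoped Matrix.Norms.L2Operator in
/-- the components of the average on an eigenvector -/
lemma g_avg (H Y : Matrix n n ℂ) (b : OrthonormalBasis n ℂ (EuclideanSpace ℂ n)) (lam : n → ℝ)
    (hb : ∀ j, H *ᵥ (b j).ofLp = (lam j : ℂ) • (b j).ofLp) (Ψ : n → ℂ) (E : ℝ)
    (hE : H *ᵥ Ψ = (E : ℂ) • Ψ) (w : ℝ) (j : n) :
    ip (b j).ofLp ((avg H w Y) *ᵥ Ψ) = gs w (lam j - E) * ip (b j).ofLp (Y *ᵥ Ψ) := by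
  let L : Matrix n n ℂ →ₗ[ℂ] ℂ :=
    { toFun := fun Z => ip (b j).ofLp (Z *ᵥ Ψ)
      map_add' := fun Y Z => by
        rw [Matrix.add_mulVec]
        unfold ip
        rw [← Finset.sum_add_distrib]
        exact Finset.sum_congr rfl fun s _ => by rw [Pi.add_apply, mul_add]
      map_smul' := fun c Z => by
        rw [Matrix.smul_mulVec]
        unfold ip
        rw [RingHom.id_apply, smul_eq_mul, Finset.mul_sum]
        exact Finset.sum_congr rfl fun s _ => by rw [Pi.smul_apply, smul_eq_mul]; ring }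
  let L' : Matrix n n ℂ →L[ℂ] ℂ := LinearMap.toContinuousLinearMap L
  have hLL : ∀ Z, L' Z = ip (b j).ofLp (Z *ᵥ Ψ) := fun Z => rfl
  have htau : ∀ t : ℝ, L' (tau H t Y) =
      Complex.exp (t * (Complex.I * (lam j - E : ℝ))) * ip (b j).ofLp (Y *ᵥ Ψ) := by
    intro t
    rw [hLL]
    unfold tau
    rw [← Matrix.mulVec_mulVec, ← neg_smul, g_U H Ψ E hE (-t), Matrix.mulVec_smul,
      ← Matrix.mulVec_mulVec]
    have e1 := g_ip_diag b (NormedSpace.exp (t • (Complex.I • H)))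
      (fun j => Complex.exp (t * (Complex.I * lam j))) (fun j => g_U H _ (lam j) (hb j) t)
      (Y *ᵥ Ψ) j
    have e2 : ∀ (c : ℂ) (x : n → ℂ), ip (b j).ofLp (c • x) = c * ip (b j).ofLp x := by
      intro c x
      rw [ip_eq, ip_eq, WithLp.toLp_smul, inner_smul_right]
    rw [e2, e1, ← mul_assoc, ← Complex.exp_add]
    congr 2
    push_cast
    ring
  have hint : IntervalIntegrable (fun t => tau H t Y) MeasureTheory.volume (-w) w :=
    (g_cont H Y).intervalIntegrable _ _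
  have h1 : L' (avg H w Y) = gs w (lam j - E) * ip (b j).ofLp (Y *ᵥ Ψ) := by
    unfold avg
    have h2 : L' ((2 * w)⁻¹ • ∫ t in (-w)..w, tau H t Y) =
        (2 * w)⁻¹ • L' (∫ t in (-w)..w, tau H t Y) := by
      exact map_smul (L'.restrictScalars ℝ) _ _
    rw [h2, ← ContinuousLinearMap.intervalIntegral_comp_comm L' hint]
    simp_rw [htau]
    rw [intervalIntegral.integral_mul_const]
    unfold gs
    rw [smul_mul_assoc]
  rw [← hLL, h1]

end G

open scoped Matrix.Norms.L2Operator in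
/-- Module G: the averages on a gapped ground vector. -/
theorem avg_ground {n : Type*} [Fintype n] [DecidableEq n] (H X : Matrix n n ℂ)
    (hH : H.IsHermitian) (Δ : ℝ) (hΔ : 0 < Δ) (Ψ : n → ℂ) (hΨ : normSq Ψ = 1)
    (hgr : IsGappedGround H Δ Ψ) (w : ℝ) (hw : 0 < w) (m : ℕ) :
    nr (((avg H w)^[m] X) *ᵥ Ψ - (ip Ψ (X *ᵥ Ψ)) • Ψ) ≤ (1 / (w * Δ)) ^ m * ‖X‖ := by
  obtain ⟨E, hE, hsimple, hgap⟩ := hgr
  set b := hH.eigenvectorBasis with hb
  set lam := hH.eigenvalues with hlam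
  have hAb : ∀ j, H *ᵥ (b j).ofLp = (lam j : ℂ) • (b j).ofLp := by
    intro j
    have := hH.mulVec_eigenvectorBasis j
    rw [this]
    rfl
  have hbne : ∀ j, (b j).ofLp ≠ 0 := by
    intro j h0
    have h1 : b j = 0 := by
      have : b j = WithLp.toLp 2 ((b j).ofLp) := rfl
      rw [this, h0]; rfl
    have h2 := b.norm_eq_one j
    rw [h1, norm_zero] at h2
    exact zero_ne_one h2
  have hψn : nr Ψ = 1 := nr_one Ψ hΨ
  have hlE : ∀ j, lam j = E ∨ E + Δ ≤ lam j := fun j => hgap (lam j) _ (hbne j) (hAb j)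
  have hit : ∀ (m : ℕ) (j : n), ip (b j).ofLp (((avg H w)^[m] X) *ᵥ Ψ) =
      gs w (lam j - E) ^ m * ip (b j).ofLp (X *ᵥ Ψ) := by
    intro m
    induction m with
    | zero => intro j; simp
    | succ m ih =>
      intro j
      rw [Function.iterate_succ_apply', g_avg H _ b lam hAb Ψ E hE w j, ih j, pow_succ']
      ring
  set D : n → ℂ := ((avg H w)^[m] X) *ᵥ Ψ - (ip Ψ (X *ᵥ Ψ)) • Ψ with hD
  have hΨΨ : ip Ψ Ψ = 1 := by
    rw [ip_eq, inner_self_eq_norm_sq_to_K]
    have : ‖(WithLp.toLp 2 Ψ : EuclideanSpace ℂ n)‖ = 1 := hψn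
    rw [this]; simp
  have hipD : ∀ j, ip (b j).ofLp D = gs w (lam j - E) ^ m * ip (b j).ofLp (X *ᵥ Ψ) -
      ip Ψ (X *ᵥ Ψ) * ip (b j).ofLp Ψ := by
    intro j
    rw [hD, ip_eq, WithLp.toLp_sub, inner_sub_right, WithLp.toLp_smul, inner_smul_right,
      ← ip_eq, ← ip_eq, hit]
  have hq : 0 ≤ 1 / (w * Δ) := by positivity
  have hbd : ∀ j, ‖ip (b j).ofLp D‖ ≤ (1 / (w * Δ)) ^ m * ‖ip (b j).ofLp (X *ᵥ Ψ)‖ := by
    intro j
    rw [hipD]
    by_cases hj : lam j = E
    · have h2 := hAb j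
      rw [hj] at h2
      obtain ⟨c, hc⟩ := hsimple _ h2
      have hc2 : ∀ x, ip (c • Ψ) x = (starRingEnd ℂ) c * ip Ψ x := by
        intro x
        rw [ip_eq, WithLp.toLp_smul, inner_smul_left, ← ip_eq]
      rw [hj, sub_self, gs_zero w hw, one_pow, one_mul, hc, hc2, hc2, hΨΨ]
      have : (starRingEnd ℂ) c * ip Ψ (X *ᵥ Ψ) - ip Ψ (X *ᵥ Ψ) * ((starRingEnd ℂ) c * 1) = 0 := by
        ring
      rw [this, norm_zero]
      positivity
    · have h3 : E + Δ ≤ lam j := (hlE j).resolve_left hj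
      have h4 : ip (b j).ofLp Ψ = 0 := by
        have e1 := g_ip_diag b H (fun j => (lam j : ℂ)) hAb Ψ j
        rw [hE] at e1
        have e2 : ip (b j).ofLp ((E : ℂ) • Ψ) = (E : ℂ) * ip (b j).ofLp Ψ := by
          rw [ip_eq, WithLp.toLp_smul, inner_smul_right, ← ip_eq]
        rw [e2] at e1
        have e3 : ((E : ℂ) - lam j) * ip (b j).ofLp Ψ = 0 := by
          rw [sub_mul, e1, sub_self]
        rcases mul_eq_zero.mp e3 with h | h
        · exfalso
          apply hj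
          have : (E : ℂ) = lam j := sub_eq_zero.mp h
          exact_mod_cast this.symm
        · exact h
      rw [h4, mul_zero, sub_zero, norm_mul, norm_pow]
      refine mul_le_mul_of_nonneg_right ?_ (norm_nonneg _)
      exact pow_le_pow_left₀ (norm_nonneg _) (gs_bound w _ Δ hw hΔ (by linarith)) m
  have hfin : nr D ≤ (1 / (w * Δ)) ^ m * nr (X *ᵥ Ψ) := by
    apply le_of_sq_le_sq _ (by have := nr_nonneg (X *ᵥ Ψ); positivity)
    have hsq : ∀ x : n → ℂ, nr x ^ 2 = ∑ j, ‖ip (b j).ofLp x‖ ^ 2 := by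
      intro x
      have := b.sum_sq_norm_inner_right (WithLp.toLp 2 x)
      unfold nr
      rw [← this]
      refine Finset.sum_congr rfl fun j _ => ?_
      rw [ip_eq]
    rw [mul_pow, hsq D, hsq (X *ᵥ Ψ), Finset.mul_sum]
    refine Finset.sum_le_sum fun j _ => ?_
    rw [← mul_pow]
    exact pow_le_pow_left₀ (norm_nonneg _) (hbd j) 2
  refine hfin.trans (mul_le_mul_of_nonneg_left ?_ (pow_nonneg hq m))
  have h5 := nr_mulVec X Ψ
  rw [hψn, mul_one] at h5
  exact h5

end Pool.Agent.T6.H19.PQ
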