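import Mathlib
import Pool.Agent.T6.H19.PQ.Defs

/-!
# Module LR: Lieb-Robinson localization (abstract form)

Project MP_953b23_mp (helper19), module by helper89.
-/

set_option autoImplicit false
set_option linter.unusedSectionVars false

open scoped BigOperators Matrix
open Finset Pool.Agent.TH235.PP

namespace Pool.Agent.T6.H19.PQ

section evol

variable {𝔄 : Type*} [CStarAlgebra 𝔄]

namespace LR

/-- `exp(itH)` -/
noncomputable def ev (H : 𝔄) (t : ℝ) : 𝔄 := NormedSpace.exp (t • (Complex.I • H))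

lemma tau_eq (H : 𝔄) (t : ℝ) (X : 𝔄) : tau H t X = ev H t * X * ev H (-t) := by
  simp [tau, ev, neg_smul]

lemma ev_zero (H : 𝔄) : ev H 0 = 1 := by simp [ev]

lemma ev_mul_neg (H : 𝔄) (t : ℝ) : ev H t * ev H (-t) = 1 := by
  let _ : NormedAlgebra ℚ 𝔄 := .restrictScalars ℚ ℂ 𝔄
  unfold ev
  rw [neg_smul, ← NormedSpace.exp_add_of_commute (Commute.neg_right (Commute.refl _))]
  simp

lemma ev_neg_mul (H : 𝔄) (t : ℝ) : ev H (-t) * ev H t = 1 := by
  have := ev_mul_neg H (-t)
  rwa [neg_neg] at this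

lemma star_ev (H : 𝔄) (hH : star H = H) (t : ℝ) : star (ev H t) = ev H (-t) := by
  unfold ev
  rw [NormedSpace.star_exp]
  congr 1
  rw [star_smul, star_smul, hH]
  simp

lemma ev_mem (H : 𝔄) (hH : star H = H) (t : ℝ) : ev H t ∈ unitary 𝔄 := by
  rw [Unitary.mem_iff, star_ev H hH]
  exact ⟨ev_neg_mul H t, ev_mul_neg H t⟩

lemma norm_tau (H : 𝔄) (hH : star H = H) (t : ℝ) (X : 𝔄) : ‖tau H t X‖ = ‖X‖ := by
  rw [tau_eq, CStarRing.norm_mul_mem_unitary _ (ev_mem H hH (-t)),
    CStarRing.norm_mem_unitary_mul _ (ev_mem H hH t)]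

lemma tau_zero (H : 𝔄) (X : 𝔄) : tau H 0 X = X := by
  rw [tau_eq, neg_zero, ev_zero]; simp

lemma tau_mul (H : 𝔄) (t : ℝ) (X Y : 𝔄) : tau H t (X * Y) = tau H t X * tau H t Y := by
  simp only [tau_eq]
  calc ev H t * (X * Y) * ev H (-t) = ev H t * X * 1 * Y * ev H (-t) := by
        rw [mul_one]; simp only [mul_assoc]
    _ = _ := by rw [← ev_neg_mul H t]; simp only [mul_assoc]

lemma tau_sub (H : 𝔄) (t : ℝ) (X Y : 𝔄) : tau H t (X - Y) = tau H t X - tau H t Y := by
  simp only [tau_eq, mul_sub, sub_mul]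

lemma tau_sum {ι : Type*} (s : Finset ι) (f : ι → 𝔄) (H : 𝔄) (t : ℝ) :
    tau H t (∑ i ∈ s, f i) = ∑ i ∈ s, tau H t (f i) := by
  simp only [tau_eq, Finset.mul_sum, Finset.sum_mul]

lemma tau_neg_tau (H : 𝔄) (t : ℝ) (X : 𝔄) : tau H (-t) (tau H t X) = X := by
  simp only [tau_eq, neg_neg]
  calc ev H (-t) * (ev H t * X * ev H (-t)) * ev H t
      = (ev H (-t) * ev H t) * X * (ev H (-t) * ev H t) := by simp only [mul_assoc]
    _ = X := by rw [ev_neg_mul]; simp

lemma tau_of_comm (H : 𝔄) (t : ℝ) (X : 𝔄) (h : H * X = X * H) : tau H t X = X := by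
  have hc : Commute X (t • (Complex.I • H)) := by
    have : Commute X H := h.symm
    exact (this.smul_right Complex.I).smul_right t
  have h2 : Commute X (ev H t) := by
    let _ : NormedAlgebra ℚ 𝔄 := .restrictScalars ℚ ℂ 𝔄
    exact hc.exp_right
  rw [tau_eq, ← h2.eq, mul_assoc, ev_mul_neg, mul_one]

/-- the commutator -/
def cm (X Y : 𝔄) : 𝔄 := X * Y - Y * X

lemma tau_cm (H : 𝔄) (t : ℝ) (X Y : 𝔄) : tau H t (cm X Y) = cm (tau H t X) (tau H t Y) := by
  simp only [cm, tau_sub, tau_mul]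

lemma norm_cm_le (X Y : 𝔄) : ‖cm X Y‖ ≤ 2 * ‖X‖ * ‖Y‖ := by
  unfold cm
  calc ‖X * Y - Y * X‖ ≤ ‖X * Y‖ + ‖Y * X‖ := norm_sub_le _ _
    _ ≤ ‖X‖ * ‖Y‖ + ‖Y‖ * ‖X‖ := add_le_add (norm_mul_le _ _) (norm_mul_le _ _)
    _ = _ := by ring

lemma cm_sum {ι : Type*} (s : Finset ι) (f : ι → 𝔄) (Y : 𝔄) :
    cm (∑ i ∈ s, f i) Y = ∑ i ∈ s, cm (f i) Y := by
  simp only [cm, Finset.mul_sum, Finset.sum_mul, Finset.sum_sub_distrib]

lemma cm_neg (X Y : 𝔄) : cm X Y = - cm Y X := by simp [cm]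

lemma cm_sub_right (X Y Z : 𝔄) : cm X (Y - Z) = cm X Y - cm X Z := by
  simp only [cm, mul_sub, sub_mul]; abel

lemma hasDerivAt_ev (H : 𝔄) (t : ℝ) : HasDerivAt (fun s => ev H s) (ev H t * (Complex.I • H)) t :=
  hasDerivAt_exp_smul_const (𝕂 := ℝ) (Complex.I • H) t

lemma hasDerivAt_ev' (H : 𝔄) (t : ℝ) : HasDerivAt (fun s => ev H s) ((Complex.I • H) * ev H t) t :=
  hasDerivAt_exp_smul_const' (𝕂 := ℝ) (Complex.I • H) t

/-- the interpolation between two evolutions -/
lemma hasDerivAt_interp (H K X : 𝔄) (t s : ℝ) :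
    HasDerivAt (fun s => tau H (t - s) (tau K s X))
      (tau H (t - s) (Complex.I • cm (K - H) (tau K s X))) s := by
  have h1 : HasDerivAt (fun s => ev H (t - s)) (-(ev H (t - s) * (Complex.I • H))) s := by
    have := (hasDerivAt_ev H (t - s)).scomp s ((hasDerivAt_id s).const_sub t)
    exact this.congr_deriv (by simp)
  have h2 : HasDerivAt (fun s => ev K s) ((Complex.I • K) * ev K s) s := hasDerivAt_ev' K s
  have h3 : HasDerivAt (fun s => ev K (-s)) (-(ev K (-s) * (Complex.I • K))) s := by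
    have := (hasDerivAt_ev K (-s)).scomp s ((hasDerivAt_id s).neg)
    exact this.congr_deriv (by simp)
  have h4 : HasDerivAt (fun s => ev H (-(t - s))) ((Complex.I • H) * ev H (-(t - s))) s := by
    have := (hasDerivAt_ev' H (-(t - s))).scomp s (((hasDerivAt_id s).const_sub t).neg)
    exact this.congr_deriv (by simp)
  have h := ((h1.mul ((h2.mul_const X).mul h3))).mul h4
  have e : (fun s => tau H (t - s) (tau K s X)) =
      fun s => ev H (t - s) * (ev K s * X * ev K (-s)) * ev H (-(t - s)) := by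
    funext s
    simp only [tau_eq]
  rw [e]
  refine h.congr_deriv ?_
  simp only [tau_eq, cm, Pi.mul_apply]
  simp only [mul_add, add_mul, mul_sub, sub_mul, smul_sub, mul_neg, neg_mul, smul_mul_assoc,
    mul_smul_comm, mul_assoc]
  abel

/-- integration of a polynomial bound -/
lemma norm_sub_le_of_deriv {E : Type*} [NormedAddCommGroup E] [NormedSpace ℝ E] (f f' : ℝ → E)
    (hf : ∀ s, HasDerivAt f (f' s) s) (c : ℝ) (k : ℕ) (hb : ∀ s, ‖f' s‖ ≤ c * |s| ^ k) (s : ℝ) :
    ‖f s - f 0‖ ≤ c * (|s| ^ (k + 1) / (k + 1)) := by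
  have key : ∀ (g g' : ℝ → E), (∀ s, HasDerivAt g (g' s) s) → (∀ s, ‖g' s‖ ≤ c * |s| ^ k) →
      ∀ s, 0 ≤ s → ‖g s - g 0‖ ≤ c * (s ^ (k + 1) / (k + 1)) := by
    intro g g' hg hgb s hs
    have h := image_norm_le_of_norm_deriv_right_le_deriv_boundary (f := fun r => g r - g 0)
      (f' := g') (a := 0) (b := s) (B := fun r => c * (r ^ (k + 1) / (k + 1)))
      (B' := fun r => c * r ^ k)
      (fun r _ => ((hg r).sub_const (g 0)).continuousAt.continuousWithinAt)
      (fun r _ => ((hg r).sub_const (g 0)).hasDerivWithinAt)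
      (by simp)
      (by
        intro r
        have h1 := ((hasDerivAt_pow (k + 1) r).div_const ((k : ℝ) + 1)).const_mul c
        refine h1.congr_deriv ?_
        have : ((k : ℝ) + 1) ≠ 0 := by positivity
        simp only [Nat.add_sub_cancel, Nat.cast_add, Nat.cast_one]
        field_simp)
      (by
        intro r hr
        have := hgb r
        rwa [abs_of_nonneg hr.1] at this)
    exact h (Set.right_mem_Icc.2 hs)
  rcases le_total 0 s with hs | hs
  · rw [abs_of_nonneg hs]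
    exact key f f' hf hb s hs
  · rw [abs_of_nonpos hs]
    have h1 := key (fun r => f (-r)) (fun r => -f' (-r)) (by
      intro r
      have := (hf (-r)).scomp r ((hasDerivAt_id r).neg)
      exact this.congr_deriv (by simp)) (by
      intro r
      rw [norm_neg]
      simpa using hb (-r)) (-s) (by linarith)
    simpa using h1

/-- one step of the Lieb-Robinson recursion -/
lemma step (K V A B : 𝔄) (hK : star K = K) (hV : star V = V)
    (hA : (K - V) * A = A * (K - V)) (hAB : cm A B = 0) (c : ℝ) (k : ℕ)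
    (hb : ∀ r : ℝ, ‖cm (tau K r V) B‖ ≤ c * |r| ^ k) (s : ℝ) :
    ‖cm (tau K s A) B‖ ≤ 2 * ‖A‖ * (c * (|s| ^ (k + 1) / (k + 1))) := by
  have hK' : star (K - V) = K - V := by rw [star_sub, hK, hV]
  -- `F r = tau K' (-r) (tau K r B)`
  have hF : ∀ r, HasDerivAt (fun r => tau (K - V) (0 - r) (tau K r B))
      (tau (K - V) (0 - r) (Complex.I • cm (K - (K - V)) (tau K r B))) r :=
    fun r => hasDerivAt_interp (K - V) K B 0 r
  have hFb : ∀ r, ‖tau (K - V) (0 - r) (Complex.I • cm (K - (K - V)) (tau K r B))‖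
      ≤ c * |r| ^ k := by
    intro r
    rw [norm_tau _ hK', norm_smul, Complex.norm_I, one_mul, sub_sub_cancel]
    have h1 : tau K (-r) (cm V (tau K r B)) = cm (tau K (-r) V) B := by
      rw [tau_cm, tau_neg_tau]
    rw [← norm_tau K hK (-r), h1]
    simpa using hb (-r)
  have h := norm_sub_le_of_deriv _ _ hF c k hFb (-s)
  simp only [zero_sub, neg_neg, abs_neg, sub_zero, tau_zero] at h
  -- the commutator
  have h2 : cm A (tau (K - V) s (tau K (-s) B)) = tau (K - V) s (tau K (-s) (cm (tau K s A) B)) := by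
    rw [tau_cm, tau_cm, tau_neg_tau, tau_of_comm (K - V) s A hA]
  have h3 : ‖cm (tau K s A) B‖ = ‖cm A (tau (K - V) s (tau K (-s) B))‖ := by
    rw [h2, norm_tau _ hK', norm_tau _ hK]
  rw [h3]
  have h4 : cm A (tau (K - V) s (tau K (-s) B)) = cm A (tau (K - V) s (tau K (-s) B) - B) := by
    rw [cm_sub_right, hAB, sub_zero]
  rw [h4]
  refine (norm_cm_le _ _).trans ?_
  exact mul_le_mul_of_nonneg_left h (by positivity)

end LR

open LR

theorem local_bound {ι : Type*} [DecidableEq ι] (Λ Λ0 N : Finset ι) (hΛ : Λ0 ⊆ Λ) (h : ι → 𝔄)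
    (hs : ∀ b, star (h b) = h b) (J : ℝ) (hJ : ∀ b, ‖h b‖ ≤ J) (adj : ι → ι → Prop)
    (hrefl : ∀ b, adj b b) (hcomm : ∀ b b', ¬ adj b b' → h b * h b' = h b' * h b) (ν : ℕ)
    (hν : ∀ b, ∃ T : Finset ι, T.card ≤ ν ∧ ∀ b', adj b b' → b' ∈ T) (X : 𝔄)
    (hN : ∀ b, b ∉ N → X * h b = h b * X) (hNc : N.card ≤ ν) (n : ℕ) (lev : ι → ι → ℕ)
    (hlev : ∀ b b' b'', adj b' b'' → lev b b' ≤ lev b b'' + 1)
    (hlev0 : ∀ b b', adj b b' → lev b b' = 0)
    (hfar : ∀ b ∈ Λ, b ∉ Λ0 → ∀ b' ∈ N, n + 1 ≤ lev b b') (t : ℝ) :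
    ‖tau (∑ b ∈ Λ, h b) t X - tau (∑ b ∈ Λ0, h b) t X‖ ≤
      Λ.card * ‖X‖ * ((2 * J * ν * |t|) ^ (n + 2) / (n + 2).factorial) := by
  classical
  set K : 𝔄 := ∑ b ∈ Λ0, h b with hKdef
  set H : 𝔄 := ∑ b ∈ Λ, h b with hHdef
  have hsum : ∀ s : Finset ι, star (∑ b ∈ s, h b) = ∑ b ∈ s, h b := by
    intro s; rw [star_sum]; exact Finset.sum_congr rfl (fun b _ => hs b)
  have hK : star K = K := hsum _
  have hH : star H = H := hsum _
  have hHK : H - K = ∑ b ∈ Λ \ Λ0, h b := by
    rw [hHdef, hKdef, ← Finset.sum_sdiff hΛ, add_sub_cancel_right]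
  rcases (Λ \ Λ0).eq_empty_or_nonempty with he | hne
  · -- nothing to prove
    have : H = K := by
      rw [he, Finset.sum_empty] at hHK
      exact sub_eq_zero.1 hHK
    rw [this, sub_self, norm_zero]
    rcases isEmpty_or_nonempty ι with hι | ⟨⟨b0⟩⟩
    · have : Λ = ∅ := Finset.eq_empty_of_isEmpty Λ
      simp [this]
    · have hJ0 : 0 ≤ J := (norm_nonneg _).trans (hJ b0)
      positivity
  obtain ⟨b0, hb0⟩ := hne
  have hJ0 : 0 ≤ J := (norm_nonneg _).trans (hJ b0)
  have hν1 : 1 ≤ ν := by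
    obtain ⟨T, hT, hT2⟩ := hν b0
    exact (Finset.card_pos.2 ⟨b0, hT2 b0 (hrefl b0)⟩).trans_le hT
  obtain ⟨κ, hκ⟩ : ∃ κ : ℝ, κ = 2 * J * ν := ⟨_, rfl⟩
  rw [← hκ]
  have hκ0 : 0 ≤ κ := by rw [hκ]; positivity
  -- the recursion
  have P : ∀ b ∈ Λ \ Λ0, ∀ k : ℕ, ∀ b', k ≤ lev b b' → ∀ s : ℝ,
      ‖cm (tau K s (h b')) (h b)‖ ≤ 2 * J ^ 2 * ((κ * |s|) ^ k / k.factorial) := by
    intro b hb k
    induction k with
    | zero =>
      intro b' _ s
      refine (norm_cm_le _ _).trans ?_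
      rw [norm_tau K hK]
      simp only [pow_zero, Nat.factorial_zero, Nat.cast_one, div_one, mul_one]
      have h1 := hJ b'
      have h2 := hJ b
      nlinarith [norm_nonneg (h b'), norm_nonneg (h b), mul_le_mul h1 h2 (norm_nonneg _) hJ0]
    | succ k ih =>
      intro b' hb' s
      set T : Finset ι := Λ0.filter (fun b'' => adj b' b'') with hT
      have hTc : T.card ≤ ν := by
        obtain ⟨T', hT', hT2⟩ := hν b'
        refine (Finset.card_le_card ?_).trans hT'
        intro x hx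
        exact hT2 x (Finset.mem_filter.1 hx).2
      have hKV : K - ∑ b'' ∈ T, h b'' = ∑ b'' ∈ Λ0.filter (fun b'' => ¬ adj b' b''), h b'' := by
        rw [hKdef, ← Finset.sum_filter_add_sum_filter_not Λ0 (fun b'' => adj b' b''),
          add_sub_cancel_left]
      have hA : (K - ∑ b'' ∈ T, h b'') * h b' = h b' * (K - ∑ b'' ∈ T, h b'') := by
        rw [hKV, Finset.sum_mul, Finset.mul_sum]
        refine Finset.sum_congr rfl (fun b'' hb'' => ?_)
        exact (hcomm b' b'' (Finset.mem_filter.1 hb'').2).symm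
      have hAB : cm (h b') (h b) = 0 := by
        have hna : ¬ adj b b' := by
          intro ha
          have := hlev0 b b' ha
          omega
        unfold cm
        rw [hcomm b b' hna, sub_self]
      have hstep := step K (∑ b'' ∈ T, h b'') (h b') (h b) hK (hsum _) hA hAB
        (ν * (2 * J ^ 2 * (κ ^ k / k.factorial))) k (by
          intro r
          rw [tau_sum, cm_sum]
          refine (norm_sum_le _ _).trans ?_
          have : ∀ b'' ∈ T, ‖cm (tau K r (h b'')) (h b)‖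
              ≤ 2 * J ^ 2 * ((κ * |r|) ^ k / k.factorial) := by
            intro b'' hb''
            refine ih b'' ?_ r
            have := hlev b b' b'' (Finset.mem_filter.1 hb'').2
            omega
          refine (Finset.sum_le_card_nsmul T _ _ this).trans ?_
          rw [nsmul_eq_mul]
          have h1 : (T.card : ℝ) ≤ ν := by exact_mod_cast hTc
          calc (T.card : ℝ) * (2 * J ^ 2 * ((κ * |r|) ^ k / k.factorial))
              ≤ ν * (2 * J ^ 2 * ((κ * |r|) ^ k / k.factorial)) :=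
                mul_le_mul_of_nonneg_right h1 (by positivity)
            _ = _ := by rw [mul_pow]; ring) s
      refine hstep.trans ?_
      calc 2 * ‖h b'‖ * (ν * (2 * J ^ 2 * (κ ^ k / k.factorial)) * (|s| ^ (k + 1) / (k + 1)))
          ≤ 2 * J * (ν * (2 * J ^ 2 * (κ ^ k / k.factorial)) * (|s| ^ (k + 1) / (k + 1))) := by
            have := hJ b'
            gcongr
        _ = _ := by
            rw [mul_pow, Nat.factorial_succ, pow_succ κ k]
            push_cast
            have h1 : ((k : ℝ) + 1) ≠ 0 := by positivity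
            have h2 : ((k.factorial : ℕ) : ℝ) ≠ 0 := by positivity
            field_simp
            rw [hκ]
            ring
  -- the commutators with the far terms
  have Q : ∀ b ∈ Λ \ Λ0, ∀ s : ℝ, ‖cm (h b) (tau K s X)‖ ≤
      ‖X‖ * (κ ^ (n + 2) / (n + 1).factorial) * |s| ^ (n + 1) := by
    intro b hb s
    have hbΛ := (Finset.mem_sdiff.1 hb).1
    have hbΛ0 := (Finset.mem_sdiff.1 hb).2
    have hbN : b ∉ N := by
      intro hbN
      have h1 := hfar b hbΛ hbΛ0 b hbN
      have h2 := hlev0 b b (hrefl b)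
      omega
    set T : Finset ι := Λ0.filter (fun b'' => b'' ∈ N) with hT
    have hTc : T.card ≤ ν := by
      refine (Finset.card_le_card ?_).trans hNc
      intro x hx
      exact (Finset.mem_filter.1 hx).2
    have hKV : K - ∑ b'' ∈ T, h b'' = ∑ b'' ∈ Λ0.filter (fun b'' => ¬ b'' ∈ N), h b'' := by
      rw [hKdef, ← Finset.sum_filter_add_sum_filter_not Λ0 (fun b'' => b'' ∈ N),
        add_sub_cancel_left]
    have hA : (K - ∑ b'' ∈ T, h b'') * X = X * (K - ∑ b'' ∈ T, h b'') := by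
      rw [hKV, Finset.sum_mul, Finset.mul_sum]
      refine Finset.sum_congr rfl (fun b'' hb'' => ?_)
      exact (hN b'' (Finset.mem_filter.1 hb'').2).symm
    have hAB : cm X (h b) = 0 := by
      unfold cm
      rw [hN b hbN, sub_self]
    have hstep := step K (∑ b'' ∈ T, h b'') X (h b) hK (hsum _) hA hAB
      (ν * (2 * J ^ 2 * (κ ^ n / n.factorial))) n (by
        intro r
        rw [tau_sum, cm_sum]
        refine (norm_sum_le _ _).trans ?_
        have : ∀ b'' ∈ T, ‖cm (tau K r (h b'')) (h b)‖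
            ≤ 2 * J ^ 2 * ((κ * |r|) ^ n / n.factorial) := by
          intro b'' hb''
          refine P b hb n b'' ?_ r
          have := hfar b hbΛ hbΛ0 b'' (Finset.mem_filter.1 hb'').2
          omega
        refine (Finset.sum_le_card_nsmul T _ _ this).trans ?_
        rw [nsmul_eq_mul]
        have h1 : (T.card : ℝ) ≤ ν := by exact_mod_cast hTc
        calc (T.card : ℝ) * (2 * J ^ 2 * ((κ * |r|) ^ n / n.factorial))
            ≤ ν * (2 * J ^ 2 * ((κ * |r|) ^ n / n.factorial)) :=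
              mul_le_mul_of_nonneg_right h1 (by positivity)
          _ = _ := by rw [mul_pow]; ring) s
    rw [cm_neg, norm_neg]
    refine hstep.trans ?_
    have hν1' : (1 : ℝ) ≤ ν := by exact_mod_cast hν1
    have hJκ : 2 * J ≤ κ := by
      rw [hκ]; nlinarith
    have e1 : 2 * ‖X‖ * (ν * (2 * J ^ 2 * (κ ^ n / n.factorial)) * (|s| ^ (n + 1) / (n + 1)))
        = ‖X‖ * ((2 * J) * κ ^ (n + 1) / (n + 1).factorial) * |s| ^ (n + 1) := by
      rw [Nat.factorial_succ, pow_succ κ n]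
      push_cast
      have h1 : ((n : ℝ) + 1) ≠ 0 := by positivity
      have h2 : ((n.factorial : ℕ) : ℝ) ≠ 0 := by positivity
      field_simp
      rw [hκ]
      ring
    rw [e1]
    have e2 : (2 * J) * κ ^ (n + 1) ≤ κ ^ (n + 2) := by
      calc (2 * J) * κ ^ (n + 1) ≤ κ * κ ^ (n + 1) :=
            mul_le_mul_of_nonneg_right hJκ (by positivity)
        _ = _ := by ring
    gcongr
  -- the interpolation
  have hF : ∀ r, HasDerivAt (fun r => tau H (t - r) (tau K r X))
      (tau H (t - r) (Complex.I • cm (K - H) (tau K r X))) r :=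
    fun r => hasDerivAt_interp H K X t r
  have hcard : ((Λ \ Λ0).card : ℝ) ≤ Λ.card := by
    exact_mod_cast Finset.card_le_card Finset.sdiff_subset
  have hFb : ∀ r, ‖tau H (t - r) (Complex.I • cm (K - H) (tau K r X))‖
      ≤ (Λ.card * (‖X‖ * (κ ^ (n + 2) / (n + 1).factorial))) * |r| ^ (n + 1) := by
    intro r
    rw [norm_tau _ hH, norm_smul, Complex.norm_I, one_mul]
    have e : cm (K - H) (tau K r X) = - ∑ b ∈ Λ \ Λ0, cm (h b) (tau K r X) := by
      rw [← cm_sum, ← hHK]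
      simp only [cm, sub_mul, mul_sub]
      abel
    rw [e, norm_neg]
    refine (norm_sum_le _ _).trans ?_
    refine (Finset.sum_le_card_nsmul (Λ \ Λ0) _ _ (fun b hb => Q b hb r)).trans ?_
    rw [nsmul_eq_mul]
    calc ((Λ \ Λ0).card : ℝ) * (‖X‖ * (κ ^ (n + 2) / (n + 1).factorial) * |r| ^ (n + 1))
        ≤ Λ.card * (‖X‖ * (κ ^ (n + 2) / (n + 1).factorial) * |r| ^ (n + 1)) :=
          mul_le_mul_of_nonneg_right hcard (by positivity)
      _ = _ := by ring
  have hfin := norm_sub_le_of_deriv _ _ hF _ (n + 1) hFb t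
  simp only [sub_self, tau_zero, sub_zero] at hfin
  rw [← norm_neg, neg_sub]
  refine hfin.trans (le_of_eq ?_)
  rw [mul_pow, Nat.factorial_succ (n + 1)]
  push_cast
  have h1 : ((n : ℝ) + 1 + 1) ≠ 0 := by positivity
  have h2 : (((n + 1).factorial : ℕ) : ℝ) ≠ 0 := by positivity
  field_simp

end evol

end Pool.Agent.T6.H19.PQ
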