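import Mathlib
import Pool.Agent.T6.H19.PQ.Defs

/-!
# Time-dependent truncated products applied to tensor networks (module N)
-/

set_option autoImplicit false
set_option linter.unusedSectionVars false

open scoped BigOperators Matrix
open Finset Pool.Agent.TH235.PP

namespace Pool.Agent.T6.H19.PQ

section N

variable {d R L : ℕ} [NeZero L]

/-- total coefficient of a label, time-dependent -/
def wgtT {M : ℕ} (k : Fin M → Site L → BoxOp d R) {r : ℕ} (u : Site L) (φ : Lab d R M r) : ℂ :=
  ∏ t, co 1 (k t u) (φ.1 t)

lemma KTt_eq {M N : ℕ} (k : Fin M → Site L → BoxOp d R) {r : ℕ} (e : Fin N ≃ Site L) :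
    KTt (fun t b => term (k t (e b)) (e b)) r =
      ∑ g : Site L → Lab d R M r, (∏ u, wgtT k u (g u)) • tp (Ov e g) := by
  classical
  -- step 1: expand every selected term
  have h1 : ∀ F : Fin M → Fin N → Bool,
      pr (fun t b => if F t b = true then (term (k t (e b)) (e b) : TorOp d L) else 1) =
      ∑ G : Fin M → Fin N → Option (Lm d R),
        if (∀ t b, (G t b).isSome = F t b) then
          pr (fun t b => co 1 (k t (e b)) (G t b) • tp (lo (e b) (G t b))) else 0 := by
    intro F
    have e1 : pr (fun t b => if F t b = true then (term (k t (e b)) (e b) : TorOp d L) else 1) =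
        pr (fun t b => ∑ o : Option (Lm d R),
        if o.isSome = F t b then co 1 (k t (e b)) o • tp (lo (e b) o) else (0 : TorOp d L)) := by
      congr 1
      funext t b
      rw [Fintype.sum_option]
      cases hF : F t b with
      | true =>
        simp only [if_true, Option.isSome_none, Option.isSome_some, Bool.false_eq_true, if_false,
          zero_add]
        rw [term_eq]
        refine Finset.sum_congr rfl fun pq _ => ?_
        simp only [co, lo, one_mul]
      | false =>
        simp only [Bool.false_eq_true, if_false, Option.isSome_none, if_true, Option.isSome_some,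
          Bool.true_eq_false, Finset.sum_const_zero, add_zero]
        simp only [co, lo]
        rw [tp_one, one_smul]
    rw [e1]
    have e2 := pr_sum (M := M) (fun (t : Fin M) (b : Fin N) (o : Option (Lm d R)) =>
      if o.isSome = F t b then co 1 (k t (e b)) o • tp (lo (e b) o) else (0 : TorOp d L))
    rw [e2]
    refine Finset.sum_congr rfl fun G _ => ?_
    split_ifs with hc
    · congr 1
      funext t b
      rw [if_pos (hc t b)]
    · push Not at hc
      obtain ⟨t, b, hne⟩ := hc
      apply pr_eq_zero _ t b
      rw [if_neg hne]
  -- step 2: exchange the sums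
  have h2 : KTt (fun t b => (term (k t (e b)) (e b) : TorOp d L)) r =
      ∑ G : Fin M → Fin N → Option (Lm d R),
        if (∀ b, (univ.filter fun t => (G t b).isSome = true).card ≤ r) then
          pr (fun t b => co 1 (k t (e b)) (G t b) • tp (lo (e b) (G t b))) else 0 := by
    unfold KTt
    simp only [h1]
    have h3 : ∀ F : Fin M → Fin N → Bool,
        (if (∀ b, cnt F b ≤ r) then ∑ G : Fin M → Fin N → Option (Lm d R),
          (if (∀ t b, (G t b).isSome = F t b) then
            pr (fun t b => co 1 (k t (e b)) (G t b) • tp (lo (e b) (G t b))) else 0)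
            else (0 : TorOp d L)) =
        ∑ G : Fin M → Fin N → Option (Lm d R), if (fun t b => (G t b).isSome) = F then
          (if (∀ b, (univ.filter fun t => (G t b).isSome = true).card ≤ r) then
          pr (fun t b => co 1 (k t (e b)) (G t b) • tp (lo (e b) (G t b))) else 0) else 0 := by
      intro F
      by_cases hF : ∀ b, cnt F b ≤ r
      · rw [if_pos hF]
        refine Finset.sum_congr rfl fun G _ => ?_
        by_cases hG : (fun t b => (G t b).isSome) = F
        · have hG' : ∀ t b, (G t b).isSome = F t b := fun t b => congrFun (congrFun hG t) b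
          rw [if_pos hG, if_pos hG', if_pos]
          intro b
          have := hF b
          unfold cnt at this
          simp only [hG']
          exact this
        · rw [if_neg hG, if_neg (fun hh => hG (funext fun t => funext fun b => hh t b))]
      · rw [if_neg hF]
        symm
        apply Finset.sum_eq_zero
        intro G _
        by_cases hG : (fun t b => (G t b).isSome) = F
        · have hG' : ∀ t b, (G t b).isSome = F t b := fun t b => congrFun (congrFun hG t) b
          rw [if_pos hG, if_neg]
          intro hh
          apply hF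
          intro b
          have := hh b
          simp only [hG'] at this
          exact this
        · rw [if_neg hG]
    simp only [h3]
    rw [Finset.sum_comm]
    refine Finset.sum_congr rfl fun G _ => ?_
    rw [Finset.sum_ite_eq]
    simp
  rw [h2, ← Finset.sum_filter]
  -- step 3: reindex
  symm
  refine Finset.sum_bij' (i := fun (g : Site L → Lab d R M r) _ => fun t b => (g (e b)).1 t)
    (j := fun (G : Fin M → Fin N → Option (Lm d R)) hG => fun u =>
      (⟨fun t => G t (e.symm u), (mem_filter.1 hG).2 (e.symm u)⟩ : Lab d R M r)) ?_ ?_ ?_ ?_ ?_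
  · intro g _
    rw [mem_filter]
    exact ⟨mem_univ _, fun b => (g (e b)).2⟩
  · intro G _
    exact mem_univ _
  · intro g _
    funext u
    apply Subtype.ext
    simp
  · intro G _
    funext t b
    simp
  · intro g _
    rw [pr_smul, tp_pr]
    congr 1
    unfold wgtT
    rw [← e.prod_comp, Finset.prod_comm]

end N

/-- Module N: the time-dependent truncated expansion maps tensor network vectors to tensor network
vectors. -/
theorem peps_apply_t {d R' L : ℕ} [NeZero L] {K : Type*} [Fintype K]
    (A0 : Site L → Fin d → K → K → K → K → ℂ) {M N : ℕ} (k : Fin M → Site L → BoxOp d (R' + 1))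
    (e : Fin N ≃ Site L) (r : ℕ) :
    ∃ A : Site L → Fin d → (K × (Fin (R' + 1) × Fin (R' + 1) → Lab d (R' + 1) M r)) →
      (K × (Fin (R' + 1) × Fin (R' + 1) → Lab d (R' + 1) M r)) →
      (K × (Fin (R' + 1) × Fin (R' + 1) → Lab d (R' + 1) M r)) →
      (K × (Fin (R' + 1) × Fin (R' + 1) → Lab d (R' + 1) M r)) → ℂ,
      (KTt (fun t b => term (k t (e b)) (e b)) r).mulVec (contract A0) = contract A := by
  classical
  set f : Site L → Fin d → (Fin (R' + 1) × Fin (R' + 1) → Lab d (R' + 1) M r) →
      K → K → K → K → ℂ := fun v a' w l r' dn up =>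
    wgtT k v (w (0, 0)) * ∑ a, Ov e (ext v w) v a' a * A0 v a l r' dn up with hf
  refine ⟨_, Eq.trans ?_ (peps_core f).symm⟩
  funext s
  -- the left-hand side
  have hfw : ∀ (g : Site L → Lab d (R' + 1) M r) (v : Site L) (a' : Fin d) (l r' dn up : K),
      f v a' (win g v) l r' dn up =
        wgtT k v (g v) * ∑ a, Ov e g v a' a * A0 v a l r' dn up := by
    intro g v a' l r' dn up
    simp only [hf]
    rw [win_zero]
    have : Ov e (ext v (win (R' := R') g v)) v = Ov e g v := by
      apply Ov_congr
      intro u x hx
      exact ext_win g v u ⟨x, hx⟩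
    rw [this]
  rw [KTt_eq]
  unfold Matrix.mulVec dotProduct
  simp only [Matrix.sum_apply, Matrix.smul_apply, smul_eq_mul, Finset.sum_mul]
  rw [Finset.sum_comm]
  refine Finset.sum_congr rfl fun g _ => ?_
  unfold contract
  simp only [Finset.mul_sum]
  rw [Finset.sum_comm]
  refine Finset.sum_congr rfl fun h0 _ => ?_
  rw [Finset.sum_comm]
  refine Finset.sum_congr rfl fun v0 _ => ?_
  simp only [hfw]
  rw [Finset.prod_mul_distrib, Finset.prod_univ_sum, Fintype.piFinset_univ, Finset.mul_sum]
  refine Finset.sum_congr rfl fun x _ => ?_
  unfold tp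
  rw [Finset.prod_mul_distrib]
  ring

end Pool.Agent.T6.H19.PQ
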