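import Pool.Agent.T6.H19.PQ.Defs

/-!
# Supports of operators on the torus (module S)
-/

set_option autoImplicit false
set_option linter.unusedSectionVars false

open scoped BigOperators Matrix
open Finset Pool.Agent.TH235.PP

namespace Pool.Agent.T6.H19.PQ

theorem Sup.mono {d L : ℕ} {S T : Set (Site L)} (h : S ⊆ T) {X : TorOp d L} (hX : Sup S X) :
    Sup T X := by
  classical
  refine ⟨?_, ?_⟩
  · rintro s t ⟨v, hv, hne⟩
    exact hX.1 s t ⟨v, fun hvS => hv (h hvS), hne⟩
  · intro s t s' t' h1 h2 h3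
    by_cases hs : ∀ v, v ∉ S → s v = t v
    · have hs' : ∀ v, v ∉ S → s' v = t' v := by
        intro v hv
        by_cases hvT : v ∈ T
        · rw [← (h3 v hvT).1, ← (h3 v hvT).2]
          exact hs v hv
        · exact h2 v hvT
      exact hX.2 s t s' t' hs hs' (fun v hv => h3 v (h hv))
    · push Not at hs
      obtain ⟨v, hv, hne⟩ := hs
      have hvT : v ∈ T := by
        by_contra hvT
        exact hne (h1 v hvT)
      rw [hX.1 s t ⟨v, hv, hne⟩, hX.1 s' t' ⟨v, hv, ?_⟩]
      rw [← (h3 v hvT).1, ← (h3 v hvT).2]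
      exact hne

theorem Sup.zero {d L : ℕ} (S : Set (Site L)) : Sup S (0 : TorOp d L) :=
  ⟨fun _ _ _ => rfl, fun _ _ _ _ _ _ _ => rfl⟩

theorem Sup.add {d L : ℕ} {S : Set (Site L)} {X Y : TorOp d L} (hX : Sup S X) (hY : Sup S Y) :
    Sup S (X + Y) := by
  refine ⟨?_, ?_⟩
  · intro s t h
    rw [Matrix.add_apply, hX.1 s t h, hY.1 s t h, add_zero]
  · intro s t s' t' h1 h2 h3
    rw [Matrix.add_apply, Matrix.add_apply, hX.2 s t s' t' h1 h2 h3, hY.2 s t s' t' h1 h2 h3]

theorem Sup.smul {d L : ℕ} {S : Set (Site L)} {X : TorOp d L} (c : ℂ) (hX : Sup S X) :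
    Sup S (c • X) := by
  refine ⟨?_, ?_⟩
  · intro s t h
    rw [Matrix.smul_apply, hX.1 s t h, smul_zero]
  · intro s t s' t' h1 h2 h3
    rw [Matrix.smul_apply, Matrix.smul_apply, hX.2 s t s' t' h1 h2 h3]

theorem Sup.one {d L : ℕ} [NeZero L] (S : Set (Site L)) : Sup S (1 : TorOp d L) := by
  refine ⟨?_, ?_⟩
  · rintro s t ⟨v, _, hne⟩
    exact Matrix.one_apply_ne (fun h => hne (by rw [h]))
  · intro s t s' t' h1 h2 h3
    by_cases hst : s = t
    · have hst' : s' = t' := by
        funext v
        by_cases hv : v ∈ S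
        · rw [← (h3 v hv).1, ← (h3 v hv).2, hst]
        · exact h2 v hv
      rw [hst, hst', Matrix.one_apply_eq, Matrix.one_apply_eq]
    · have hst' : s' ≠ t' := by
        intro h
        apply hst
        funext v
        by_cases hv : v ∈ S
        · rw [(h3 v hv).1, (h3 v hv).2, h]
        · exact h1 v hv
      rw [Matrix.one_apply_ne hst, Matrix.one_apply_ne hst']

theorem Sup.mul {d L : ℕ} [NeZero L] {S : Set (Site L)} {X Y : TorOp d L} (hX : Sup S X)
    (hY : Sup S Y) : Sup S (X * Y) := by
  classical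
  refine ⟨?_, ?_⟩
  · rintro s t ⟨v, hv, hne⟩
    rw [Matrix.mul_apply]
    apply Finset.sum_eq_zero
    intro r _
    by_cases hr : s v = r v
    · rw [hY.1 r t ⟨v, hv, fun h => hne (hr.trans h)⟩, mul_zero]
    · rw [hX.1 s r ⟨v, hv, hr⟩, zero_mul]
  · intro s t s' t' h1 h2 h3
    rw [Matrix.mul_apply, Matrix.mul_apply]
    set φ : (Site L → Fin d) ≃ (Site L → Fin d) :=
      Equiv.piCongrRight (fun v => if v ∈ S then Equiv.refl _ else Equiv.swap (s v) (s' v)) with hφ
    have hin : ∀ r : Site L → Fin d, ∀ v, v ∈ S → φ r v = r v := by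
      intro r v hv
      simp only [hφ, Equiv.piCongrRight_apply, Pi.map_apply, if_pos hv, Equiv.refl_apply]
    have hout : ∀ r : Site L → Fin d, ∀ v, v ∉ S → φ r v = Equiv.swap (s v) (s' v) (r v) := by
      intro r v hv
      simp only [hφ, Equiv.piCongrRight_apply, Pi.map_apply, if_neg hv]
    rw [← Equiv.sum_comp φ (fun r => X s' r * Y r t')]
    apply Finset.sum_congr rfl
    intro r _
    by_cases hr : ∀ v, v ∉ S → s v = r v
    · have hr' : ∀ v, v ∉ S → s' v = φ r v := by
        intro v hv
        rw [hout r v hv, ← hr v hv, Equiv.swap_apply_left]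
      rw [hX.2 s r s' (φ r) hr hr' (fun v hv => ⟨(h3 v hv).1, (hin r v hv).symm⟩),
        hY.2 r t (φ r) t' (fun v hv => (hr v hv).symm.trans (h1 v hv))
          (fun v hv => (hr' v hv).symm.trans (h2 v hv))
          (fun v hv => ⟨(hin r v hv).symm, (h3 v hv).2⟩)]
    · push Not at hr
      obtain ⟨v, hv, hne⟩ := hr
      rw [hX.1 s r ⟨v, hv, hne⟩, hX.1 s' (φ r) ⟨v, hv, ?_⟩, zero_mul, zero_mul]
      rw [hout r v hv]
      intro h
      apply hne
      have := congrArg (Equiv.swap (s v) (s' v)) h
      rw [Equiv.swap_apply_self, Equiv.swap_apply_right] at this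
      exact this

/-- the algebra of the operators acting on `S` -/
def supAlg (d : ℕ) {L : ℕ} [NeZero L] (S : Set (Site L)) : Subalgebra ℂ (TorOp d L) where
  carrier := {X | Sup S X}
  mul_mem' := fun hX hY => Sup.mul hX hY
  add_mem' := fun hX hY => Sup.add hX hY
  algebraMap_mem' := fun c => by
    rw [Algebra.algebraMap_eq_smul_one]
    exact (Sup.one S).smul c

/-- the product of two operators with disjoint supports has one term only -/
lemma mul_apply_of_disjoint {d L : ℕ} [NeZero L] {S T : Set (Site L)} (h : Disjoint S T)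
    {X Y : TorOp d L} (hX : Sup S X) (hY : Sup T Y) (s t : Site L → Fin d)
    (r : Site L → Fin d) (hr1 : ∀ v, v ∈ S → r v = t v) (hr2 : ∀ v, v ∉ S → r v = s v) :
    (X * Y) s t = X s r * Y r t := by
  classical
  rw [Matrix.mul_apply]
  apply Finset.sum_eq_single
  · intro r' _ hne
    have : ∃ v, r' v ≠ r v := by
      by_contra hh
      push Not at hh
      exact hne (funext hh)
    obtain ⟨v, hv⟩ := this
    by_cases hvS : v ∈ S
    · rw [hY.1 r' t ⟨v, fun hvT => Set.disjoint_left.mp h hvS hvT, ?_⟩, mul_zero]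
      rw [← hr1 v hvS]
      exact hv
    · rw [hX.1 s r' ⟨v, hvS, ?_⟩, zero_mul]
      rw [← hr2 v hvS]
      exact fun hh => hv hh.symm
  · intro hh
    exact absurd (Finset.mem_univ _) hh

theorem Sup.comm {d L : ℕ} [NeZero L] {S T : Set (Site L)} (h : Disjoint S T) {X Y : TorOp d L}
    (hX : Sup S X) (hY : Sup T Y) : X * Y = Y * X := by
  classical
  ext s t
  have e1 := mul_apply_of_disjoint h hX hY s t (fun v => if v ∈ S then t v else s v)
    (fun v hv => if_pos hv) (fun v hv => if_neg hv)
  have e2 := mul_apply_of_disjoint h.symm hY hX s t (fun v => if v ∈ T then t v else s v)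
    (fun v hv => if_pos hv) (fun v hv => if_neg hv)
  have hST : ∀ v, v ∈ S → v ∉ T := fun v h1 h2 => Set.disjoint_left.mp h h1 h2
  rw [e1, e2]
  by_cases hst : ∀ v, v ∉ S → v ∉ T → s v = t v
  · rw [mul_comm]
    congr 1
    · apply hY.2
      · intro v hv
        by_cases hvS : v ∈ S
        · simp only [if_pos hvS]
        · simp only [if_neg hvS]
          exact hst v hvS hv
      · intro v hv
        simp only [if_neg hv]
      · intro v hv
        have hvS : v ∉ S := fun h1 => hST v h1 hv
        simp only [if_neg hvS, if_pos hv, and_self]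
    · apply hX.2
      · intro v hv
        simp only [if_neg hv]
      · intro v hv
        by_cases hvT : v ∈ T
        · simp only [if_pos hvT]
        · simp only [if_neg hvT]
          exact hst v hv hvT
      · intro v hv
        simp only [if_neg (hST v hv), if_pos hv, and_self]
  · push Not at hst
    obtain ⟨v, hvS, hvT, hne⟩ := hst
    rw [hY.1 (fun v => if v ∈ S then t v else s v) t ⟨v, hvT, ?_⟩,
      hX.1 (fun v => if v ∈ T then t v else s v) t ⟨v, hvS, ?_⟩, mul_zero, mul_zero]
    · simp only [if_neg hvT]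
      exact hne
    · simp only [if_neg hvS]
      exact hne

theorem sup_term {d R L : ℕ} (h : BoxOp d R) (u : Site L) : Sup (box R u) (term h u) := by
  classical
  have hb : ∀ v : Site L, v ∉ box R u ↔ ∀ x : Fin R × Fin R, sh u x ≠ v := by
    intro v
    simp only [box, Set.mem_setOf_eq, not_exists, ne_eq]
  refine ⟨?_, ?_⟩
  · rintro s t ⟨v, hv, hne⟩
    unfold term
    rw [if_neg]
    intro hh
    exact hne (hh v ((hb v).1 hv))
  · intro s t s' t' h1 h2 h3
    unfold term
    rw [if_pos (fun v hv => h1 v ((hb v).2 hv)), if_pos (fun v hv => h2 v ((hb v).2 hv))]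
    have e1 : (fun x => s (sh u x)) = fun x : Fin R × Fin R => s' (sh u x) :=
      funext fun x => (h3 (sh u x) ⟨x, rfl⟩).1
    have e2 : (fun x => t (sh u x)) = fun x : Fin R × Fin R => t' (sh u x) :=
      funext fun x => (h3 (sh u x) ⟨x, rfl⟩).2
    rw [e1, e2]

theorem term_of_sup {d R L : ℕ} (hR : R ≤ L) (u : Site L) {X : TorOp d L}
    (hX : Sup (box R u) X) : ∃ k : BoxOp d R, X = term k u := by
  classical
  rcases isEmpty_or_nonempty (Fin d) with hd | ⟨⟨c⟩⟩
  · exact ⟨0, by ext s t; exact (hd.false (s u)).elim⟩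
  · set E : (Fin R × Fin R → Fin d) → Site L → Fin d := fun p v =>
      if hv : ∃ x : Fin R × Fin R, sh u x = v then p hv.choose else c with hE
    refine ⟨fun p q => X (E p) (E q), ?_⟩
    ext s t
    unfold term
    have hb : ∀ v : Site L, v ∉ box R u ↔ ∀ x : Fin R × Fin R, sh u x ≠ v := by
      intro v
      simp only [box, Set.mem_setOf_eq, not_exists, ne_eq]
    have hEin : ∀ (r : Site L → Fin d) v, v ∈ box R u → r v = E (fun x => r (sh u x)) v := by
      intro r v hv
      have hv' : ∃ x : Fin R × Fin R, sh u x = v := hv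
      simp only [hE, dif_pos hv']
      rw [hv'.choose_spec]
    have hEout : ∀ (p : Fin R × Fin R → Fin d) v, v ∉ box R u → E p v = c := by
      intro p v hv
      have hv' : ¬ ∃ x : Fin R × Fin R, sh u x = v := hv
      simp only [hE, dif_neg hv']
    by_cases hst : ∀ v, (∀ x : Fin R × Fin R, sh u x ≠ v) → s v = t v
    · rw [if_pos hst]
      apply hX.2
      · intro v hv
        exact hst v ((hb v).1 hv)
      · intro v hv
        have k1 := hEout (fun x => s (sh u x)) v hv
        have k2 := hEout (fun x => t (sh u x)) v hv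
        exact k1.trans k2.symm
      · intro v hv
        exact ⟨hEin s v hv, hEin t v hv⟩
    · rw [if_neg hst]
      push Not at hst
      obtain ⟨v, hv, hne⟩ := hst
      exact hX.1 s t ⟨v, (hb v).2 hv, hne⟩

end Pool.Agent.T6.H19.PQ
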