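import Pool.Agent.T6.H19.PQ.T
import Pool.Agent.T6.H19.PQ.N
import Pool.Agent.T6.H19.PQ.S
import Pool.Agent.T6.H19.PQ.LR
import Pool.Agent.T6.H19.PQ.Filter
import Pool.Agent.T6.H19.PQ.G
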