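import Pool.Agent.T6.H19.PQ.Defs

/-!
# Time-dependent truncated products (module T)

The truncated expansion of an ordered product of all `1 + y t b` approximates the ordered product
of the sums `1 + ∑ b, y t b`; time-dependent version of `Pool.Agent.TH235.PP.trunc_bound`.
-/

set_option autoImplicit false
set_option linter.unusedSectionVars false

open scoped BigOperators Matrix
open Finset Pool.Agent.TH235.PP

namespace Pool.Agent.T6.H19.PQ

section ring

variable {R : Type*} [Ring R] {M N : ℕ}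

/-- the ordered product of the selected terms -/
def PFt (y : Fin M → Fin N → R) (F : Fin M → Fin N → Bool) : R :=
  pr fun t b => if F t b = true then y t b else 1

/-- the terms of `S` occur more than `r` times -/
def ESt (y : Fin M → Fin N → R) (r : ℕ) (S : Finset (Fin N)) : R :=
  ∑ F : Fin M → Fin N → Bool, if (∀ b ∈ S, r < cnt F b) then PFt y F else 0

/-- the terms outside `S` are summed -/
def QSt (y : Fin M → Fin N → R) (S : Finset (Fin N)) (C : Fin M → Fin N → Bool) : R :=
  pr fun t b => if b ∈ S then (if C t b = true then y t b else 1) else 1 + y t b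

lemma incl_excl_t (y : Fin M → Fin N → R) (r : ℕ) :
    KTt y r = ∑ S : Finset (Fin N), ((-1 : ℤ) ^ S.card) • ESt y r S := by
  unfold KTt ESt
  simp only [Finset.smul_sum]
  rw [Finset.sum_comm]
  refine Finset.sum_congr rfl fun F _ => ?_
  have h1 : (if (∀ b, cnt F b ≤ r) then PFt y F else 0) =
      (if (∀ b, cnt F b ≤ r) then (1 : ℤ) else 0) • PFt y F := by
    split_ifs <;> simp
  have h2 : (if (∀ b, cnt F b ≤ r) then pr (fun t b => if F t b = true then y t b else 1) else 0) =
      (if (∀ b, cnt F b ≤ r) then PFt y F else 0) := rfl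
  rw [h2, h1, ind_sum, Finset.sum_smul]
  refine Finset.sum_congr rfl fun S _ => ?_
  split_ifs <;> simp

lemma ESt_empty (y : Fin M → Fin N → R) (r : ℕ) :
    ESt y r ∅ = op (fun t => op fun b => 1 + y t b) := by
  unfold ESt PFt
  have h := pr_sum (M := M) (fun (t : Fin M) (b : Fin N) (x : Bool) =>
    if x = true then y t b else 1)
  simp only [Finset.notMem_empty, false_implies, implies_true, if_true]
  rw [← h]
  unfold pr
  congr 1
  funext t
  congr 1
  funext b
  simp [add_comm]

/-- the sum over all configurations that agree with `C` on `S` -/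
lemma QSt_eq (y : Fin M → Fin N → R) (S : Finset (Fin N)) (C : Fin M → Fin N → Bool) :
    QSt y S C = ∑ F : Fin M → Fin N → Bool,
      if (∀ t, ∀ b ∈ S, F t b = C t b) then PFt y F else 0 := by
  classical
  have h := pr_sum (M := M) (fun (t : Fin M) (b : Fin N) (x : Bool) =>
    if b ∈ S then (if x = C t b then (if x = true then y t b else 1) else 0)
      else (if x = true then y t b else 1))
  have h1 : QSt y S C = pr (fun t b => ∑ x : Bool,
      if b ∈ S then (if x = C t b then (if x = true then y t b else 1) else 0)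
      else (if x = true then y t b else 1)) := by
    unfold QSt
    congr 1
    funext t b
    by_cases hb : b ∈ S
    · simp only [hb, if_true]
      rw [Finset.sum_ite_eq']
      simp
    · simp only [hb, if_false]
      simp [add_comm]
  rw [h1, h]
  refine Finset.sum_congr rfl fun F _ => ?_
  split_ifs with hc
  · unfold PFt
    congr 1
    funext t b
    by_cases hb : b ∈ S
    · rw [if_pos hb, if_pos (hc t b hb)]
    · rw [if_neg hb]
  · push Not at hc
    obtain ⟨t, b, hb, hne⟩ := hc
    apply pr_eq_zero _ t b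
    rw [if_pos hb, if_neg hne]

lemma ESt_eq (y : Fin M → Fin N → R) (r : ℕ) (S : Finset (Fin N)) :
    ESt y r S = ∑ C : Fin M → Fin N → Bool,
      if (∀ t b, b ∉ S → C t b = false) ∧ (∀ b ∈ S, r < cnt C b) then QSt y S C else 0 := by
  classical
  have h1 : ∀ C : Fin M → Fin N → Bool,
      (if (∀ t b, b ∉ S → C t b = false) ∧ (∀ b ∈ S, r < cnt C b) then QSt y S C else 0) =
      ∑ F : Fin M → Fin N → Bool, if C = (fun t b => decide (b ∈ S) && F t b) then
        (if (∀ b ∈ S, r < cnt F b) then PFt y F else 0) else 0 := by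
    intro C
    have key : ∀ F : Fin M → Fin N → Bool, C = (fun t b => decide (b ∈ S) && F t b) →
        (∀ t b, b ∉ S → C t b = false) ∧ (∀ t, ∀ b ∈ S, F t b = C t b) ∧
        (∀ b ∈ S, cnt C b = cnt F b) := by
      intro F hF
      refine ⟨?_, ?_, ?_⟩
      · intro t b hb; rw [hF]; simp [hb]
      · intro t b hb; rw [hF]; simp [hb]
      · intro b hb
        unfold cnt
        congr 1
        ext t
        rw [hF]; simp [hb]
    by_cases hC : ∀ t b, b ∉ S → C t b = false
    · by_cases hC2 : ∀ b ∈ S, r < cnt C b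
      · rw [if_pos ⟨hC, hC2⟩, QSt_eq]
        refine Finset.sum_congr rfl fun F _ => ?_
        by_cases hF : C = (fun t b => decide (b ∈ S) && F t b)
        · obtain ⟨_, k2, k3⟩ := key F hF
          rw [if_pos hF, if_pos k2, if_pos]
          intro b hb
          rw [← k3 b hb]; exact hC2 b hb
        · rw [if_neg hF, if_neg]
          intro hh
          apply hF
          funext t b
          by_cases hb : b ∈ S
          · simp [hb, hh t b hb]
          · simp [hb, hC t b hb]
      · rw [if_neg (fun h => hC2 h.2)]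
        symm
        apply Finset.sum_eq_zero
        intro F _
        by_cases hF : C = (fun t b => decide (b ∈ S) && F t b)
        · obtain ⟨_, _, k3⟩ := key F hF
          rw [if_pos hF, if_neg]
          intro hh
          apply hC2
          intro b hb
          rw [k3 b hb]; exact hh b hb
        · rw [if_neg hF]
    · rw [if_neg (fun h => hC h.1)]
      symm
      apply Finset.sum_eq_zero
      intro F _
      by_cases hF : C = (fun t b => decide (b ∈ S) && F t b)
      · exact absurd (key F hF).1 hC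
      · rw [if_neg hF]
  unfold ESt
  simp only [h1]
  rw [Finset.sum_comm]
  refine Finset.sum_congr rfl fun F _ => ?_
  rw [Finset.sum_ite_eq']
  simp

end ring

section norm

variable {R : Type*} [NormedRing R] [NormOneClass R] {M N : ℕ}

lemma QSt_bound (y : Fin M → Fin N → R) (y0 g : ℝ) (hy0 : 0 ≤ y0) (hy : ∀ t b, ‖y t b‖ ≤ y0)
    (hG : ∀ t, ‖1 + ∑ b, y t b‖ ≤ g) (hg : 1 / 2 ≤ g) (hN : N * y0 ≤ 1 / 4)
    (S : Finset (Fin N)) (C : Fin M → Fin N → Bool) :
    ‖QSt y S C‖ ≤ (g + S.card * y0 + (N * y0) ^ 2) ^ M * wt (4 * y0) S C := by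
  unfold QSt pr wt
  have h := norm_op_le (fun t => op fun b => if b ∈ S then (if C t b = true then y t b else 1)
    else 1 + y t b) _ (fun t => slice_bound (y t) y0 g hy0 (hy t) (hG t) hg hN S (C t))
  refine h.trans (le_of_eq ?_)
  rw [Finset.prod_mul_distrib]
  simp

lemma ESt_bound (y : Fin M → Fin N → R) (y0 g : ℝ) (hy0 : 0 ≤ y0) (hy : ∀ t b, ‖y t b‖ ≤ y0)
    (hG : ∀ t, ‖1 + ∑ b, y t b‖ ≤ g) (hg : 1 / 2 ≤ g) (hN : N * y0 ≤ 1 / 4) (r : ℕ)
    (S : Finset (Fin N)) :
    ‖ESt y r S‖ ≤ g ^ M * Real.exp (2 * M * (N * y0) ^ 2) *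
      Real.exp (13 * (M * y0) - r) ^ S.card := by
  classical
  set a : ℝ := g + S.card * y0 + (N * y0) ^ 2 with ha
  have ha0 : 0 ≤ a := by positivity
  have hg0 : 0 < g := by linarith
  set e : ℝ := Real.exp 1 with he
  have he1 : 1 ≤ e := by rw [he]; exact Real.one_le_exp (by norm_num)
  have he0 : 0 < e := by linarith
  rw [ESt_eq]
  have h1 : ‖∑ C : Fin M → Fin N → Bool,
      (if (∀ t b, b ∉ S → C t b = false) ∧ (∀ b ∈ S, r < cnt C b) then QSt y S C else 0)‖ ≤
      ∑ C : Fin M → Fin N → Bool, (if (∀ t b, b ∉ S → C t b = false) then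
        a ^ M * (((e ^ (r + 1)) ^ S.card)⁻¹ * wt (e * (4 * y0)) S C) else 0) := by
    refine (norm_sum_le _ _).trans (Finset.sum_le_sum fun C _ => ?_)
    by_cases hc1 : ∀ t b, b ∉ S → C t b = false
    · rw [if_pos hc1]
      by_cases hc2 : ∀ b ∈ S, r < cnt C b
      · rw [if_pos ⟨hc1, hc2⟩]
        refine (QSt_bound y y0 g hy0 hy hG hg hN S C).trans ?_
        refine mul_le_mul_of_nonneg_left ?_ (by positivity)
        rw [wt_mul e (4 * y0)]
        have h2 := wt_ge e he1 r S C hc2
        have h3 := wt_nonneg (x := 4 * y0) (by positivity) S C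
        rw [← mul_assoc]
        have h4 : 1 ≤ ((e ^ (r + 1)) ^ S.card)⁻¹ * wt e S C := by
          rw [le_inv_mul_iff₀ (by positivity)]
          linarith
        calc wt (4 * y0) S C = 1 * wt (4 * y0) S C := by ring
          _ ≤ _ := mul_le_mul_of_nonneg_right h4 h3
      · rw [if_neg (fun h => hc2 h.2), norm_zero]
        have := wt_nonneg (x := e * (4 * y0)) (by positivity) S C
        positivity
    · rw [if_neg (fun h => hc1 h.1), if_neg hc1, norm_zero]
  refine h1.trans ?_
  have h2 : ∑ C : Fin M → Fin N → Bool, (if (∀ t b, b ∉ S → C t b = false) then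
        a ^ M * (((e ^ (r + 1)) ^ S.card)⁻¹ * wt (e * (4 * y0)) S C) else 0) =
      a ^ M * ((e ^ (r + 1)) ^ S.card)⁻¹ * (1 + e * (4 * y0)) ^ (M * S.card) := by
    rw [← wt_sum, Finset.mul_sum]
    refine Finset.sum_congr rfl fun C _ => ?_
    split_ifs
    · ring
    · simp
  rw [h2]
  -- estimates
  have h3 : a ^ M ≤ g ^ M * (Real.exp (2 * M * (N * y0) ^ 2) * Real.exp (2 * (M * y0)) ^ S.card) := by
    have h4 : a ≤ g * Real.exp (2 * ((N * y0) ^ 2 + S.card * y0)) := by
      have h5 := Real.add_one_le_exp (2 * ((N * y0) ^ 2 + S.card * y0))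
      have h6 : 0 ≤ (N * y0) ^ 2 + S.card * y0 := by positivity
      have h7 : a ≤ g * (2 * ((N * y0) ^ 2 + S.card * y0) + 1) := by
        rw [ha]; nlinarith
      exact h7.trans (mul_le_mul_of_nonneg_left h5 hg0.le)
    calc a ^ M ≤ (g * Real.exp (2 * ((N * y0) ^ 2 + S.card * y0))) ^ M :=
          pow_le_pow_left₀ ha0 h4 M
      _ = _ := by
          rw [mul_pow, ← Real.exp_nat_mul, ← Real.exp_nat_mul, ← Real.exp_add]
          congr 2
          ring
  have h4 : (1 + e * (4 * y0)) ^ (M * S.card) ≤ Real.exp (11 * (M * y0)) ^ S.card := by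
    rw [pow_mul]
    refine pow_le_pow_left₀ (by positivity) ?_ _
    have he2 : e * 4 ≤ 11 := by
      have := Real.exp_one_lt_d9
      rw [he]; linarith
    calc (1 + e * (4 * y0)) ^ M ≤ (Real.exp (11 * y0)) ^ M := by
          refine pow_le_pow_left₀ (by positivity) ?_ M
          have := Real.add_one_le_exp (11 * y0)
          nlinarith
      _ = Real.exp (11 * (M * y0)) := by
          rw [← Real.exp_nat_mul]; congr 1; ring
  have h5 : ((e ^ (r + 1)) ^ S.card)⁻¹ ≤ Real.exp (-(r : ℝ)) ^ S.card := by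
    rw [← inv_pow]
    refine pow_le_pow_left₀ (by positivity) ?_ _
    rw [he, ← Real.exp_nat_mul, ← Real.exp_neg]
    apply Real.exp_le_exp.2
    push_cast
    linarith
  calc a ^ M * ((e ^ (r + 1)) ^ S.card)⁻¹ * (1 + e * (4 * y0)) ^ (M * S.card)
      ≤ (g ^ M * (Real.exp (2 * M * (N * y0) ^ 2) * Real.exp (2 * (M * y0)) ^ S.card)) *
        Real.exp (-(r : ℝ)) ^ S.card * Real.exp (11 * (M * y0)) ^ S.card := by
        refine mul_le_mul (mul_le_mul h3 h5 (by positivity) (by positivity)) h4
          (by positivity) (by positivity)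
    _ = g ^ M * Real.exp (2 * M * (N * y0) ^ 2) * Real.exp (13 * (M * y0) - r) ^ S.card := by
        have : Real.exp (13 * (M * y0) - r) =
            Real.exp (2 * (M * y0)) * Real.exp (-(r : ℝ)) * Real.exp (11 * (M * y0)) := by
          rw [← Real.exp_add, ← Real.exp_add]; congr 1; ring
        rw [this, mul_pow, mul_pow]
        ring

/-- perturbation of an ordered product -/
lemma norm_op_sub_op {n : ℕ} (G T : Fin n → R) (g k : ℝ) (hG : ∀ t, ‖G t‖ ≤ g)
    (hD : ∀ t, ‖T t - G t‖ ≤ k) (hg : 0 ≤ g) (hk : 0 ≤ k) :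
    ‖op T - op G‖ ≤ (g + k) ^ n - g ^ n := by
  induction n with
  | zero => simp [op_zero]
  | succ n ih =>
    have ih' := ih (fun i => G i.succ) (fun i => T i.succ) (fun i => hG i.succ)
      (fun i => hD i.succ)
    rw [op_succ, op_succ]
    set PT := op (fun i : Fin n => T i.succ) with hPT
    set PG := op (fun i : Fin n => G i.succ) with hPG
    have e : T 0 * PT - G 0 * PG = T 0 * (PT - PG) + (T 0 - G 0) * PG := by noncomm_ring
    rw [e]
    have h1 : ‖PG‖ ≤ g ^ n := by
      refine (norm_op_le _ (fun _ => g) (fun i => hG i.succ)).trans (le_of_eq ?_)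
      simp
    have h2 : ‖T 0‖ ≤ g + k := by
      have : T 0 = G 0 + (T 0 - G 0) := by abel
      rw [this]
      exact (norm_add_le _ _).trans (add_le_add (hG 0) (hD 0))
    calc ‖T 0 * (PT - PG) + (T 0 - G 0) * PG‖
        ≤ ‖T 0‖ * ‖PT - PG‖ + ‖T 0 - G 0‖ * ‖PG‖ :=
          (norm_add_le _ _).trans (add_le_add (norm_mul_le _ _) (norm_mul_le _ _))
      _ ≤ (g + k) * ((g + k) ^ n - g ^ n) + k * g ^ n := by
          refine add_le_add (mul_le_mul h2 ih' (norm_nonneg _) (by positivity)) ?_
          exact mul_le_mul (hD 0) h1 (norm_nonneg _) hk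
      _ = (g + k) ^ (n + 1) - g ^ (n + 1) := by ring

end norm

/-- the truncated expansion approximates the ordered product of the `1 + ∑ b, y t b` -/
theorem trunc_bound_t {R : Type*} [NormedRing R] [NormOneClass R] {M N : ℕ}
    (y : Fin M → Fin N → R) (y0 g : ℝ) (hy0 : 0 ≤ y0) (hy : ∀ t b, ‖y t b‖ ≤ y0)
    (hG : ∀ t, ‖1 + ∑ b, y t b‖ ≤ g) (hg : 1 / 2 ≤ g) (hN : N * y0 ≤ 1 / 4) (r : ℕ)
    (hM : 2 * M * (N * y0) ^ 2 ≤ 1) (hr : N * Real.exp (13 * (M * y0) - r) ≤ 1) :
    ‖KTt y r - op (fun t => 1 + ∑ b, y t b)‖ ≤ g ^ M *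
      (6 * (N * Real.exp (13 * (M * y0) - r)) + 4 * (M * (N * y0) ^ 2)) := by
  classical
  set G : Fin M → R := fun t => 1 + ∑ b, y t b with hGdef
  set T : Fin M → R := fun t => op fun b => 1 + y t b with hT
  set δ : ℝ := Real.exp (13 * (M * y0) - r) with hδ
  set u : ℝ := 2 * M * (N * y0) ^ 2 with hu
  have hδ0 : 0 < δ := Real.exp_pos _
  have hu0 : 0 ≤ u := by positivity
  have hg0 : 0 < g := by linarith
  -- first part
  have h1 : ‖op T - op G‖ ≤ g ^ M * (Real.exp u - 1) := by
    have h2 : ∀ t, ‖T t - G t‖ ≤ (N * y0) ^ 2 := fun t =>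
      ((norm_op_sub (y t) y0 (hy t) hy0).2).trans (pow_bd hy0 (by linarith))
    have h3 := norm_op_sub_op G T g _ hG h2 hg0.le (by positivity)
    refine h3.trans ?_
    have h4 : g + (N * y0) ^ 2 ≤ g * Real.exp (2 * (N * y0) ^ 2) := by
      have h5 := Real.add_one_le_exp (2 * ((N : ℝ) * y0) ^ 2)
      have h6 : g * (2 * ((N : ℝ) * y0) ^ 2 + 1) ≤ g * Real.exp (2 * (N * y0) ^ 2) :=
        mul_le_mul_of_nonneg_left h5 hg0.le
      nlinarith [sq_nonneg ((N : ℝ) * y0)]
    have h5 : (g + (N * y0) ^ 2) ^ M ≤ g ^ M * Real.exp u := by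
      calc (g + (N * y0) ^ 2) ^ M ≤ (g * Real.exp (2 * (N * y0) ^ 2)) ^ M :=
            pow_le_pow_left₀ (by positivity) h4 M
        _ = g ^ M * Real.exp u := by
            rw [mul_pow, ← Real.exp_nat_mul]
            congr 2
            rw [hu]; ring
    nlinarith
  -- second part
  have h2 : ‖KTt y r - op T‖ ≤ g ^ M * Real.exp u * ((1 + δ) ^ N - 1) := by
    rw [incl_excl_t, hT, ← ESt_empty y r]
    rw [← Finset.add_sum_erase univ _ (mem_univ (∅ : Finset (Fin N)))]
    simp only [card_empty, pow_zero, one_smul, add_sub_cancel_left]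
    refine (norm_sum_le _ _).trans ?_
    have h3 : ∀ S : Finset (Fin N), ‖((-1 : ℤ) ^ S.card) • ESt y r S‖ ≤
        g ^ M * Real.exp u * δ ^ S.card := by
      intro S
      have h4 : ‖((-1 : ℤ) ^ S.card) • ESt y r S‖ = ‖ESt y r S‖ := by
        rcases neg_one_pow_eq_or ℤ S.card with h | h <;> rw [h] <;> simp
      rw [h4]
      exact ESt_bound y y0 g hy0 hy hG hg hN r S
    refine (Finset.sum_le_sum fun S _ => h3 S).trans (le_of_eq ?_)
    rw [← Finset.mul_sum]
    congr 1
    have h5 := Finset.sum_pow_mul_eq_add_pow δ 1 (univ : Finset (Fin N))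
    rw [Finset.powerset_univ] at h5
    simp only [one_pow, mul_one, card_univ, Fintype.card_fin] at h5
    rw [← Finset.add_sum_erase univ _ (mem_univ (∅ : Finset (Fin N)))] at h5
    simp only [card_empty, pow_zero] at h5
    rw [add_comm 1 δ, ← h5]
    ring
  have h3 : (1 + δ) ^ N - 1 ≤ 2 * (N * δ) := by
    have h4 : (1 + δ) ^ N ≤ Real.exp (N * δ) := by
      rw [Real.exp_nat_mul]
      exact pow_le_pow_left₀ (by positivity) (by linarith [Real.add_one_le_exp δ]) N
    have h5 := exp_bd2 (u := N * δ) (by positivity) hr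
    linarith
  have h4 : Real.exp u ≤ 3 := by
    have := exp_bd2 hu0 hM
    linarith
  have h5 : Real.exp u - 1 ≤ 2 * u := exp_bd2 hu0 hM
  have hgM : 0 < g ^ M := by positivity
  calc ‖KTt y r - op G‖ = ‖(KTt y r - op T) + (op T - op G)‖ := by congr 1; abel
    _ ≤ g ^ M * Real.exp u * ((1 + δ) ^ N - 1) + g ^ M * (Real.exp u - 1) :=
        (norm_add_le _ _).trans (add_le_add h2 h1)
    _ ≤ g ^ M * 3 * (2 * (N * δ)) + g ^ M * (2 * u) := by
        refine add_le_add ?_ (mul_le_mul_of_nonneg_left h5 hgM.le)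
        refine mul_le_mul (mul_le_mul_of_nonneg_left h4 hgM.le) h3 ?_ (by positivity)
        have : (1 : ℝ) ≤ (1 + δ) ^ N := one_le_pow₀ (by linarith)
        linarith
    _ = g ^ M * (6 * (N * δ) + 4 * (M * (N * y0) ^ 2)) := by rw [hu]; ring

end Pool.Agent.T6.H19.PQ
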